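import Pool.Agent.Lib_helper48.OU.U26

/-! The condition on a module without form. -/

set_option linter.unusedSectionVars false
set_option linter.unusedSimpArgs false

namespace Pool.Agent.OU

open Module Pool.Agent.OT Pool.Agent.U4

attribute [local instance 100] LieRing.ofAssociativeRing

variable {K : Type*} [Field K] [CharZero K]
variable {g : Type*} [LieRing g] [LieAlgebra K g]
variable {V : Type*} [AddCommGroup V] [Module K V] [FiniteDimensional K V]
  [LieRingModule g V] [LieModule K g V]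

theorem mult_pos (h : g) (hh : ∀ v : V, ⁅h, ⁅h, v⁆⁆ = (1/4 : K) • v)
    (hns : ¬ ∃ c : K, ∀ v : V, ⁅h, v⁆ = c • v) :
    0 < finrank K (Module.End.eigenspace (LieModule.toEnd K g V h) (1/2)) ∧
      0 < finrank K (Module.End.eigenspace (LieModule.toEnd K g V h) (-(1/2))) := by
  obtain ⟨e, f, he, hf, hhe, hhf⟩ := eig_vecs h hh hns
  constructor
  · have : Nontrivial (Module.End.eigenspace (LieModule.toEnd K g V h) (1/2)) :=
      ⟨⟨e, Module.End.mem_eigenspace_iff.mpr hhe⟩, 0, fun h0 => he (congrArg Subtype.val h0)⟩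
    exact Module.finrank_pos
  · have : Nontrivial (Module.End.eigenspace (LieModule.toEnd K g V h) (-(1/2))) :=
      ⟨⟨f, Module.End.mem_eigenspace_iff.mpr hhf⟩, 0, fun h0 => hf (congrArg Subtype.val h0)⟩
    exact Module.finrank_pos

/-- The condition on a module without form. -/
theorem condU2 [IsAlgClosed K] [LieModule.IsIrreducible K g V] (hs : PSimple K g V) (h : g)
    (hh : ∀ v : V, ⁅h, ⁅h, v⁆⁆ = (1/4 : K) • v)
    (hns : ¬ ∃ c : K, ∀ v : V, ⁅h, v⁆ = c • v)
    (hsd : (¬ ∃ (f : V ≃ₗ[K] Module.Dual K V) (χ : g → K), ∀ (x : g) (v : V),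
        f ⁅x, v⁆ = ⁅x, f v⁆ + χ x • f v) ∨
      ∃ h : g, (∀ v : V, ⁅h, ⁅h, v⁆⁆ = (1/4 : K) • v) ∧ (¬ ∃ c : K, ∀ v : V, ⁅h, v⁆ = c • v) ∧
        finrank K (Module.End.eigenspace (LieModule.toEnd K g V h) (1/2)) ≠
          finrank K (Module.End.eigenspace (LieModule.toEnd K g V h) (-(1/2)))) {a b : ℕ}
    (ha : finrank K (Module.End.eigenspace (LieModule.toEnd K g V h) (1/2)) = a)
    (hb : finrank K (Module.End.eigenspace (LieModule.toEnd K g V h) (-(1/2))) = b)
    (hc : ((∃ (x : g) (c : K), (¬ ∃ c : K, ∀ v : V, ⁅x, v⁆ = c • v) ∧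
      finrank K V * finrank K (LinearMap.range (LieModule.toEnd K g V x - c • (1 : Module.End K V)))
        < a * b) ∨
      ∃ (s : V ≃ₗ[K] V) (c : K), (∀ x : g, ∃ y : g, ∀ v : V, s ⁅x, v⁆ = ⁅y, s v⁆) ∧
        (¬ ∃ a : K, ∀ v : V, s v = a • v) ∧
        2 * finrank K V * finrank K (LinearMap.range ((s : Module.End K V) -
          c • (1 : Module.End K V))) < a * b) ∨
        ∃ x : g, (∀ v : V, ⁅x, ⁅x, v⁆⁆ = 0) ∧ (∃ v : V, ⁅x, v⁆ ≠ 0) ∧
          (a ≠ b → ¬ ExcU a b (finrank K (LinearMap.range (LieModule.toEnd K g V x)))) ∧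
          (a = b → ¬ ExcT (a + b) (finrank K (LinearMap.range (LieModule.toEnd K g V x))))) :
    ∀ z : Module.End K V, LinearMap.trace K V z = 0 →
      ∃ (y : g) (c : K), ∀ v : V, ⁅y, v⁆ = z v + c • v := by
  obtain ⟨ha0, hb0⟩ := mult_pos h hh hns
  rw [ha] at ha0
  rw [hb] at hb0
  obtain ⟨h1, h2⟩ := sign_eq (K := K) (V := V) h hh
  rw [ha, hb] at h1 h2
  by_cases hab : a = b
  · have htr : LinearMap.trace K V (LieModule.toEnd K g V h) = 0 := by
      rw [hab, sub_self] at h2
      exact (mul_eq_zero.mp h2).resolve_left two_ne_zero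
    have htw : ¬ ∃ (f : V ≃ₗ[K] Module.Dual K V) (χ : g → K), ∀ (x : g) (v : V),
        f ⁅x, v⁆ = ⁅x, f v⁆ + χ x • f v := by
      rcases hsd with hsd | ⟨h', hh', hns', hne'⟩
      · exact hsd
      · rintro ⟨f, χ, hf⟩
        have h3 := twist_trace_dual hh' hh' (fun hs => hns' hs.1) ⟨f, χ h', hf h'⟩
        have h4 : LinearMap.trace K V (LieModule.toEnd K g V h') = 0 := by
          have h5 : (2 : K) * LinearMap.trace K V (LieModule.toEnd K g V h') = 0 := by
            linear_combination h3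
          exact (mul_eq_zero.mp h5).resolve_left two_ne_zero
        obtain ⟨-, h6⟩ := sign_eq (K := K) (V := V) h' hh'
        rw [h4, mul_zero] at h6
        apply hne'
        have h7 := sub_eq_zero.mp h6.symm
        exact_mod_cast h7
    have hn : finrank K V = a + a := by rw [← h1, ← hab]
    have h4N : ∀ r, finrank K V * r < a * b → 4 * r < finrank K V := by
      intro r hr
      rw [hn, ← hab] at hr
      have : a * (2 * r) < a * a := by
        calc a * (2 * r) = (a + a) * r := by ring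
          _ < a * a := hr
      have := Nat.lt_of_mul_lt_mul_left this
      omega
    rcases hc with hc | ⟨x, hx1, hx2, -, hx3⟩
    · obtain ⟨x, hx, c, hx2⟩ := small_any (N := finrank K V) (d := a * b) (by
        rw [← h1]
        exact Nat.mul_le_mul (Nat.le_add_right _ _) (Nat.le_add_left _ _)) hc
      exact coreU0 hs h hh htr htw x hx (Or.inl ⟨c, h4N _ hx2⟩)
    · exact coreU0 hs h hh htr htw x (nsc_of_sq x hx1 hx2) (Or.inr ⟨hx1, by
        rw [← h1]; exact hx3 hab⟩)
  · have h9 := condU (a := a) (b := b) hs h hh ha hb ha0 hb0 hab (by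
      rcases hc with hc | ⟨x, hx1, hx2, hx3, -⟩
      · left
        rw [h1]
        exact hc
      · right
        exact ⟨x, hx1, hx2, hx3 hab⟩)
    intro z hz
    obtain ⟨y, -, hy⟩ := h9.2.1 z hz
    exact ⟨y, 0, fun v => by rw [hy, zero_smul, add_zero]⟩

end Pool.Agent.OU
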