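import Pool.Agent.Lib_helper48.OU.U24

/-! Independence from the centre. -/

set_option linter.unusedSectionVars false
set_option linter.unusedSimpArgs false

namespace Pool.Agent.OU

open Module Pool.Agent.OT

attribute [local instance 100] LieRing.ofAssociativeRing

variable {K : Type*} [Field K] [CharZero K]
variable {g : Type*} [LieRing g] [LieAlgebra K g]
variable {V : Type*} [AddCommGroup V] [Module K V] [FiniteDimensional K V]
  [LieRingModule g V] [LieModule K g V]
variable {W : Type*} [AddCommGroup W] [Module K W] [FiniteDimensional K W]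
  [LieRingModule g W] [LieModule K g W]

theorem tr_eq (φ : V ≃ₗ[K] W)
    (S : Module.End K V) (T : Module.End K W) (c : K) (hφ : ∀ v, φ (S v) = T (φ v) + c • φ v)
    (hT : ∀ w, T (T w) = (1/4 : K) • w) {e f : V} (he : e ≠ 0) (hf : f ≠ 0)
    (hSe : S e = (1/2 : K) • e) (hSf : S f = (-(1/2) : K) • f) :
    LinearMap.trace K V S = LinearMap.trace K W T := by
  have key : ∀ (r : K) (u : V), u ≠ 0 → S u = r • u → (r - c) * (r - c) = 1/4 := by
    intro r u hu hS
    have h1 : T (φ u) = (r - c) • φ u := by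
      have := hφ u
      rw [hS, map_smul] at this
      rw [sub_smul, this, add_sub_cancel_right]
    have h2 := hT (φ u)
    rw [h1, map_smul, h1, smul_smul] at h2
    have h3 : ((r - c) * (r - c) - 1/4) • φ u = 0 := by rw [sub_smul, h2, sub_self]
    have h4 : φ u ≠ 0 := by
      intro h0
      exact hu (φ.injective (by rw [h0, map_zero]))
    exact sub_eq_zero.mp ((smul_eq_zero.mp h3).resolve_right h4)
  have h1 := key _ e he hSe
  have h2 := key _ f hf hSf
  have hc : c = 0 := by linear_combination (1/2 : K) * h2 - (1/2 : K) * h1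
  have h3 : T = φ.toLinearMap ∘ₗ S ∘ₗ φ.symm.toLinearMap := by
    ext w
    have := hφ (φ.symm w)
    rw [hc, zero_smul, add_zero, LinearEquiv.apply_symm_apply] at this
    rw [← this]; rfl
  rw [h3]
  exact (LinearMap.trace_conj' S φ).symm

/-- Twists and traces. -/
theorem twist_trace {h : g} (h1 : ∀ v : V, ⁅h, ⁅h, v⁆⁆ = (1/4 : K) • v)
    (h2 : ∀ v : W, ⁅h, ⁅h, v⁆⁆ = (1/4 : K) • v)
    (hno : ¬ ((∃ c : K, ∀ v : V, ⁅h, v⁆ = c • v) ∧ ∃ c : K, ∀ v : W, ⁅h, v⁆ = c • v))
    (hf : ∃ (f : V ≃ₗ[K] W) (c : K), ∀ v : V, f ⁅h, v⁆ = ⁅h, f v⁆ + c • f v) :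
    LinearMap.trace K V (LieModule.toEnd K g V h) = LinearMap.trace K W (LieModule.toEnd K g W h) := by
  obtain ⟨φ, c, hφ⟩ := hf
  by_cases hs : ∃ c : K, ∀ v : V, ⁅h, v⁆ = c • v
  · exfalso
    apply hno
    refine ⟨hs, ?_⟩
    obtain ⟨r, hr⟩ := hs
    refine ⟨r - c, fun w => ?_⟩
    have := hφ (φ.symm w)
    rw [hr, map_smul, LinearEquiv.apply_symm_apply] at this
    rw [sub_smul, this, add_sub_cancel_right]
  · obtain ⟨e, f, he, hf, hhe, hhf⟩ := eig_vecs h h1 hs
    exact tr_eq φ (LieModule.toEnd K g V h) (LieModule.toEnd K g W h) c hφ h2 he hf hhe hhf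

/-- The same for the dual. -/
theorem twist_trace_dual {h : g} (h1 : ∀ v : V, ⁅h, ⁅h, v⁆⁆ = (1/4 : K) • v)
    (h2 : ∀ v : W, ⁅h, ⁅h, v⁆⁆ = (1/4 : K) • v)
    (hno : ¬ ((∃ c : K, ∀ v : V, ⁅h, v⁆ = c • v) ∧ ∃ c : K, ∀ v : W, ⁅h, v⁆ = c • v))
    (hf : ∃ (f : V ≃ₗ[K] Module.Dual K W) (c : K), ∀ v : V, f ⁅h, v⁆ = ⁅h, f v⁆ + c • f v) :
    LinearMap.trace K V (LieModule.toEnd K g V h) = - LinearMap.trace K W (LieModule.toEnd K g W h) := by
  obtain ⟨φ, c, hφ⟩ := hf
  have hdual : LinearMap.trace K (Module.Dual K W) (LieModule.toEnd K g (Module.Dual K W) h)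
      = - LinearMap.trace K W (LieModule.toEnd K g W h) := by
    have h5 : LieModule.toEnd K g (Module.Dual K W) h
        + Module.Dual.transpose (R := K) (LieModule.toEnd K g W h) = 0 := by
      ext η w
      show - η ⁅h, w⁆ + η ⁅h, w⁆ = 0
      exact neg_add_cancel _
    have h6 := congrArg (LinearMap.trace K (Module.Dual K W)) h5
    rw [map_add, LinearMap.trace_transpose', map_zero] at h6
    exact eq_neg_of_add_eq_zero_left h6
  by_cases hs : ∃ c : K, ∀ v : V, ⁅h, v⁆ = c • v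
  · exfalso
    apply hno
    refine ⟨hs, ?_⟩
    obtain ⟨r, hr⟩ := hs
    refine ⟨c - r, fun w => ?_⟩
    rw [← sub_eq_zero]
    refine (Module.forall_dual_apply_eq_zero_iff K _).mp fun η => ?_
    have h3 := hφ (φ.symm η)
    rw [hr, map_smul, LinearEquiv.apply_symm_apply] at h3
    have h4 := LinearMap.congr_fun h3 w
    have h5 : r * η w = - η ⁅h, w⁆ + c * η w := h4
    rw [map_sub, map_smul, smul_eq_mul]
    linear_combination h5
  · obtain ⟨e, f, he, hf, hhe, hhf⟩ := eig_vecs h h1 hs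
    rw [← hdual]
    refine tr_eq φ (LieModule.toEnd K g V h) (LieModule.toEnd K g (Module.Dual K W) h) c hφ
      (fun η => ?_) he hf hhe hhf
    ext w
    show - (- η ⁅h, ⁅h, w⁆⁆) = _
    rw [h2, map_smul, neg_neg]
    rfl

theorem span_sep {κ : Type*} {T : Set (κ → K)} {i j : κ} (hij : i ≠ j) (e : K)
    (h : ∀ t ∈ T, t i = e * t j) : Submodule.span K T ≠ ⊤ := by
  classical
  intro htop
  have h1 : Submodule.span K T ≤ LinearMap.ker
      ((LinearMap.proj i : (κ → K) →ₗ[K] K) - e • (LinearMap.proj j : (κ → K) →ₗ[K] K)) := by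
    rw [Submodule.span_le]
    intro t ht
    show t i - e * t j = 0
    rw [h t ht, sub_self]
  rw [htop] at h1
  have h2 : (Pi.single i 1 : κ → K) ∈ LinearMap.ker
      ((LinearMap.proj i : (κ → K) →ₗ[K] K) - e • (LinearMap.proj j : (κ → K) →ₗ[K] K)) :=
    h1 Submodule.mem_top
  have h3 : (Pi.single i 1 : κ → K) i - e * (Pi.single i 1 : κ → K) j = 0 := h2
  rw [Pi.single_eq_same, Pi.single_eq_of_ne hij.symm, mul_zero, sub_zero] at h3
  exact one_ne_zero h3

end Pool.Agent.OU
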