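import Pool.Agent.Lib_helper48.OU.U23
import Pool.Agent.Lib_helper9.U4.Mix3

/-! Preparations for the final theorem. -/

set_option linter.unusedSectionVars false
set_option linter.unusedSimpArgs false

namespace Pool.Agent.OU

open Module Pool.Agent.OT

attribute [local instance 100] LieRing.ofAssociativeRing

variable {K : Type*} [Field K] [CharZero K]
variable {g : Type*} [LieRing g] [LieAlgebra K g]
variable {V : Type*} [AddCommGroup V] [Module K V] [FiniteDimensional K V]
  [LieRingModule g V] [LieModule K g V]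

/-- Some h is not a scalar. -/
theorem ns_of_HT [LieModule.IsIrreducible K g V] (hV : finrank K V ≠ 1) {P : g → Prop}
    (HT : ∀ I : LieIdeal K g, (∀ h : g, P h → h ∈ I) → I = ⊤) :
    ∃ h : g, P h ∧ ¬ ∃ c : K, ∀ v : V, ⁅h, v⁆ = c • v := by
  by_contra hcon
  push Not at hcon
  have htop : Pool.Agent.U4.scalId K g V = ⊤ := HT _ (fun h hh => hcon h hh)
  have hall : ∀ x : g, ∃ c : K, ∀ v : V, ⁅x, v⁆ = c • v := by
    intro x
    have : x ∈ Pool.Agent.U4.scalId K g V := by rw [htop]; exact LieSubmodule.mem_top x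
    exact this
  have hnt : Nontrivial V := LieModule.nontrivial_of_isIrreducible K g V
  obtain ⟨u, hu⟩ := exists_ne (0 : V)
  rcases irr_of (g := g) (K ∙ u) (fun x v hv => by
    obtain ⟨c, hc⟩ := hall x
    rw [hc]
    exact Submodule.smul_mem _ _ hv) with h1 | h1
  · exact hu (Submodule.span_singleton_eq_bot.mp h1)
  · apply hV
    have := finrank_span_singleton (K := K) hu
    rwa [h1, finrank_top] at this

/-- A symplectic module of dimension two. -/
theorem spTwo [LieModule.IsIrreducible K g V] {ω : LinearMap.BilinForm K V}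
    (hω : ω.Nondegenerate) (hV : finrank K V = 2)
    (HT : ∀ I : LieIdeal K g, (∀ h : g, (∀ v : V, ⁅h, ⁅h, v⁆⁆ = (1/4 : K) • v) → h ∈ I) → I = ⊤) :
    ∀ x : Module.End K V, Sk ω x → ∃ y : g, LieModule.toEnd K g V y = x := by
  obtain ⟨h, hh, hns⟩ := ns_of_HT (K := K) (V := V) (by omega) HT
  intro x hx
  obtain ⟨y, hy⟩ := dim2 hV h hh hns x (tr_skew ω hω hx)
  exact ⟨y, LinearMap.ext hy⟩

end Pool.Agent.OU
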