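import Pool.Agent.Lib_helper48.OU.U21

/-! The conditions on one module. -/

set_option linter.unusedSectionVars false
set_option linter.unusedSimpArgs false

namespace Pool.Agent.OU

open Module Pool.Agent.OT

attribute [local instance 100] LieRing.ofAssociativeRing

variable {K : Type*} [Field K] [CharZero K]
variable {g : Type*} [LieRing g] [LieAlgebra K g]
variable {V : Type*} [AddCommGroup V] [Module K V] [FiniteDimensional K V]
  [LieRingModule g V] [LieModule K g V]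

theorem small_any [IsAlgClosed K] [LieModule.IsIrreducible K g V] {N d : ℕ}
    (hd : d ≤ N * finrank K V)
    (h : (∃ (x : g) (c : K), (¬ ∃ c : K, ∀ v : V, ⁅x, v⁆ = c • v) ∧
      N * finrank K (LinearMap.range (LieModule.toEnd K g V x - c • (1 : Module.End K V))) < d) ∨
      ∃ (s : V ≃ₗ[K] V) (c : K), (∀ x : g, ∃ y : g, ∀ v : V, s ⁅x, v⁆ = ⁅y, s v⁆) ∧
        (¬ ∃ a : K, ∀ v : V, s v = a • v) ∧
        2 * N * finrank K (LinearMap.range ((s : Module.End K V) - c • (1 : Module.End K V))) < d) :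
    ∃ x : g, (¬ ∃ c : K, ∀ v : V, ⁅x, v⁆ = c • v) ∧ ∃ c : K, N * finrank K (LinearMap.range
      (LieModule.toEnd K g V x + c • (1 : Module.End K V))) < d := by
  rcases h with ⟨x, c, hx, hr⟩ | ⟨s, c, hs, hns, hr⟩
  · refine ⟨x, hx, -c, ?_⟩
    rw [neg_smul, ← sub_eq_add_neg]
    exact hr
  · obtain ⟨x, hx, hr'⟩ := small_of_norm hd s c hs hns hr
    exact ⟨x, hx, 0, by rw [zero_smul, add_zero]; exact hr'⟩

theorem nsc_of_sq (x : g) (h2 : ∀ v : V, ⁅x, ⁅x, v⁆⁆ = 0) (hv : ∃ v : V, ⁅x, v⁆ ≠ 0) :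
    ¬ ∃ c : K, ∀ v : V, ⁅x, v⁆ = c • v := by
  obtain ⟨v, hv⟩ := hv
  rintro ⟨c, hc⟩
  have h3 := h2 v
  rw [hc v, lie_smul, hc v, smul_smul] at h3
  rcases smul_eq_zero.mp h3 with h | h
  · have h0 : c = 0 := by simpa using h
    apply hv
    rw [hc, h0, zero_smul]
  · apply hv
    rw [h, lie_zero]

/-- The condition on a symplectic module. -/
theorem condS [IsAlgClosed K] [LieModule.IsIrreducible K g V] {ω : LinearMap.BilinForm K V}
    (hω : ω.Nondegenerate) (halt : ∀ v w, ω v w = - ω w v)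
    (hinv : ∀ (x : g) (v w : V), ω ⁅x, v⁆ w = - ω v ⁅x, w⁆)
    (HT : ∀ I : LieIdeal K g, (∀ h : g, (∀ v : V, ⁅h, ⁅h, v⁆⁆ = (1/4 : K) • v) → h ∈ I) → I = ⊤)
    (hc : (∃ x : g, (∀ v : V, ⁅x, ⁅x, v⁆⁆ = 0) ∧
        (Odd (finrank K (LinearMap.range (LieModule.toEnd K g V x))) ∨
          finrank K (LinearMap.range (LieModule.toEnd K g V x)) = 2)) ∨
      (PSimple K g V ∧ (((∃ (x : g) (c : K), (¬ ∃ c : K, ∀ v : V, ⁅x, v⁆ = c • v) ∧
      4 * finrank K (LinearMap.range (LieModule.toEnd K g V x - c • (1 : Module.End K V)))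
        < finrank K V) ∨
      ∃ (s : V ≃ₗ[K] V) (c : K), (∀ x : g, ∃ y : g, ∀ v : V, s ⁅x, v⁆ = ⁅y, s v⁆) ∧
        (¬ ∃ a : K, ∀ v : V, s v = a • v) ∧
        2 * 4 * finrank K (LinearMap.range ((s : Module.End K V) - c • (1 : Module.End K V)))
          < finrank K V) ∨
        ∃ x : g, (∀ v : V, ⁅x, ⁅x, v⁆⁆ = 0) ∧ (∃ v : V, ⁅x, v⁆ ≠ 0) ∧
          ¬ Exc (finrank K V) (finrank K (LinearMap.range (LieModule.toEnd K g V x)))))) :
    ∀ x : Module.End K V, Sk ω x → ∃ y : g, LieModule.toEnd K g V y = x := by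
  refine coreS hω halt hinv HT ?_
  rcases hc with hc | ⟨hs, hc⟩
  · exact Or.inl hc
  right
  refine ⟨hs, ?_⟩
  rcases hc with hc | ⟨x, h1, h2, h3⟩
  · obtain ⟨x, hx, hx2⟩ := small_any (by omega) hc
    exact ⟨x, hx, Or.inl hx2⟩
  · exact ⟨x, nsc_of_sq x h1 h2, Or.inr ⟨h1, h3⟩⟩

/-- The condition on a module without form. -/
theorem condU [IsAlgClosed K] [LieModule.IsIrreducible K g V] (hs : PSimple K g V) (h : g)
    (hh : ∀ v : V, ⁅h, ⁅h, v⁆⁆ = (1/4 : K) • v) {a b : ℕ}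
    (ha : finrank K (Module.End.eigenspace (LieModule.toEnd K g V h) (1/2)) = a)
    (hb : finrank K (Module.End.eigenspace (LieModule.toEnd K g V h) (-(1/2))) = b)
    (ha0 : 0 < a) (hb0 : 0 < b) (hne : a ≠ b)
    (hc : ((∃ (x : g) (c : K), (¬ ∃ c : K, ∀ v : V, ⁅x, v⁆ = c • v) ∧
      (a + b) * finrank K (LinearMap.range (LieModule.toEnd K g V x - c • (1 : Module.End K V)))
        < a * b) ∨
      ∃ (s : V ≃ₗ[K] V) (c : K), (∀ x : g, ∃ y : g, ∀ v : V, s ⁅x, v⁆ = ⁅y, s v⁆) ∧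
        (¬ ∃ a : K, ∀ v : V, s v = a • v) ∧
        2 * (a + b) * finrank K (LinearMap.range ((s : Module.End K V) - c • (1 : Module.End K V)))
          < a * b) ∨
        ∃ x : g, (∀ v : V, ⁅x, ⁅x, v⁆⁆ = 0) ∧ (∃ v : V, ⁅x, v⁆ ≠ 0) ∧
          ¬ ExcU a b (finrank K (LinearMap.range (LieModule.toEnd K g V x)))) :
    3 ≤ finrank K V ∧ (∀ z : Module.End K V, LinearMap.trace K V z = 0 →
      ∃ y ∈ LieAlgebra.derivedSeries K g 1, ∀ v : V, ⁅y, v⁆ = z v) ∧
      LinearMap.trace K V (LieModule.toEnd K g V h) ≠ 0 ∧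
      ¬ ∃ c : K, LieModule.toEnd K g V h = c • 1 := by
  obtain ⟨h1, h2⟩ := sign_eq (K := K) (V := V) h hh
  rw [ha, hb] at h1 h2
  have hnt : Nontrivial V := LieModule.nontrivial_of_isIrreducible K g V
  have hab : ((a : K) - b) ≠ 0 := by
    rw [sub_ne_zero]; exact_mod_cast hne
  refine ⟨by omega, ?_, ?_, ?_⟩
  · rcases hc with hc | ⟨x, hx1, hx2, hx3⟩
    · obtain ⟨x, hx, hx2⟩ := small_any (N := a + b) (d := a * b) (by
        rw [← h1]
        exact Nat.mul_le_mul (Nat.le_add_right _ _) (Nat.le_add_left _ _)) hc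
      exact coreU hs h hh h1 ha0 hb0 hne h2 x hx (Or.inl hx2)
    · exact coreU hs h hh h1 ha0 hb0 hne h2 x (nsc_of_sq x hx1 hx2) (Or.inr ⟨hx1, hx3⟩)
  · intro h0
    rw [h0, mul_zero] at h2
    exact hab h2.symm
  · rintro ⟨c, hc⟩
    -- one of the eigenspaces is zero
    have key : ∀ e : K, e ≠ c → finrank K (Module.End.eigenspace (LieModule.toEnd K g V h) e) = 0 := by
      intro e he
      have : Module.End.eigenspace (LieModule.toEnd K g V h) e = ⊥ := by
        rw [eq_bot_iff]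
        intro v hv
        rw [Module.End.mem_eigenspace_iff, hc, LinearMap.smul_apply, Module.End.one_apply] at hv
        have h3 : (c - e) • v = 0 := by rw [sub_smul, hv, sub_self]
        exact (smul_eq_zero.mp h3).resolve_left (sub_ne_zero.mpr he.symm)
      rw [this, finrank_bot]
    by_cases h3 : (1/2 : K) = c
    · have h4 := key (-(1/2)) (by
        rw [← h3]
        intro h5
        have : (1 : K) = 0 := by linear_combination -h5
        exact one_ne_zero this)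
      omega
    · have h4 := key (1/2) h3
      omega

theorem eig_ker (f : Module.End K V) (c : K) :
    Module.End.eigenspace f c = LinearMap.ker (f - c • (1 : Module.End K V)) := by
  ext v
  rw [Module.End.mem_eigenspace_iff, LinearMap.mem_ker, LinearMap.sub_apply, LinearMap.smul_apply,
    Module.End.one_apply, sub_eq_zero]

end Pool.Agent.OU
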