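import Pool.Agent.Lib_helper48.OT.G3

/-! Small rank: simple irreducible Lie subspaces of sp(V), generation by an extremal pair. -/

set_option linter.unusedSectionVars false
set_option linter.unusedSimpArgs false

namespace Pool.Agent.OU

open Module Pool.Agent.OT

variable {K : Type*} [Field K] [CharZero K] [IsAlgClosed K]
variable {V : Type*} [AddCommGroup V] [Module K V] [FiniteDimensional K V]

/-- A simple irreducible Lie subspace of sl(V). -/
structure SimU (L : Submodule K (Module.End K V)) : Prop where
  good : Good L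
  tr0 : ∀ x ∈ L, LinearMap.trace K V x = 0
  irr : ∀ W : Submodule K V, (∀ x ∈ L, ∀ v ∈ W, x v ∈ W) → W = ⊥ ∨ W = ⊤
  sim : ∀ I : Submodule K (Module.End K V), (∀ z ∈ I, z ∈ L) →
    (∀ x ∈ L, ∀ z ∈ I, x * z - z * x ∈ I) → (∀ z ∈ I, z = 0) ∨ ∀ x ∈ L, x ∈ I

variable {L : Submodule K (Module.End K V)}

theorem SimU.tr (S : SimU L) {x : Module.End K V} (hx : x ∈ L) : LinearMap.trace K V x = 0 :=
  S.tr0 x hx

/-- Schur: a nilpotent endomorphism commuting with L is zero. -/
theorem SimU.cen (S : SimU L) {z : Module.End K V} (hz : ∀ x ∈ L, z * x = x * z)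
    (hzz : IsNilpotent z) : z = 0 := by
  rcases S.irr (LinearMap.range z) (by
    rintro x hx _ ⟨v, rfl⟩
    exact ⟨x v, LinearMap.congr_fun (hz x hx) v⟩) with h | h
  · exact LinearMap.range_eq_bot.mp h
  · obtain ⟨n, hn⟩ := hzz
    have hs : Function.Surjective z := LinearMap.range_eq_top.mp h
    have h1 : ∀ m : ℕ, Function.Surjective ((z ^ m : Module.End K V)) := by
      intro m
      induction m with
      | zero => rw [pow_zero]; exact Function.surjective_id
      | succ m ih =>
        rw [pow_succ, Module.End.mul_eq_comp, LinearMap.coe_comp]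
        exact ih.comp hs
    have h2 := h1 n
    rw [hn] at h2
    ext v
    obtain ⟨w, hw⟩ := h2 v
    rw [LinearMap.zero_apply] at hw
    rw [← hw, map_zero, LinearMap.zero_apply]

/-- An element of L commuting with L is zero. -/
theorem SimU.cenL (S : SimU L) {z : Module.End K V} (hzL : z ∈ L) (hz : ∀ x ∈ L, z * x = x * z) :
    z = 0 := by
  by_cases hV : Subsingleton V
  · ext v; exact Subsingleton.elim _ _
  have hnt : Nontrivial V := not_subsingleton_iff_nontrivial.mp hV
  obtain ⟨c, hc⟩ := Module.End.exists_eigenvalue z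
  have hW : Module.End.eigenspace z c = ⊤ := by
    rcases S.irr (Module.End.eigenspace z c) (by
      intro x hx v hv
      rw [Module.End.mem_eigenspace_iff] at hv ⊢
      have h1 : z (x v) = x (z v) := LinearMap.congr_fun (hz x hx) v
      rw [h1, hv, map_smul]) with h | h
    · exact absurd h hc
    · exact h
  have hz1 : z = c • (1 : Module.End K V) := by
    ext v
    have : v ∈ Module.End.eigenspace z c := by rw [hW]; exact Submodule.mem_top
    rw [Module.End.mem_eigenspace_iff] at this
    exact this
  have ht := S.tr hzL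
  rw [hz1, map_smul, LinearMap.trace_one, smul_eq_mul] at ht
  have hc0 : c = 0 := by
    rcases mul_eq_zero.mp ht with h | h
    · exact h
    · exfalso
      have h2 : finrank K V = 0 := by exact_mod_cast h
      have := Module.finrank_pos (R := K) (M := V)
      omega
  rw [hz1, hc0, zero_smul]

variable {E F p q : Module.End K V} {κ : K}

/-- L is generated by E, F and the elements of degree 1 and -1. -/
theorem SimU.gen (S : SimU L) (D : Tri L E F p q) (E0 : E ≠ 0)
    (T : Submodule K (Module.End K V)) (hTb : ∀ x ∈ T, ∀ y ∈ T, x * y - y * x ∈ T)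
    (hT : ∀ n, NN L E F p q n → n ∈ T) : ∀ x ∈ L, x ∈ T := by
  -- the smallest subspace containing E stable under NN
  let Fam : Set (Submodule K (Module.End K V)) :=
    {B | E ∈ B ∧ ∀ n, NN L E F p q n → ∀ b ∈ B, n * b - b * n ∈ B}
  let A : Submodule K (Module.End K V) := sInf Fam
  have Amin : ∀ B ∈ Fam, A ≤ B := fun B hB => sInf_le hB
  have AE : E ∈ A := by
    rw [Submodule.mem_sInf]
    intro B hB
    exact hB.1
  have AN : ∀ n, NN L E F p q n → ∀ b ∈ A, n * b - b * n ∈ A := by
    intro n hn b hb
    rw [Submodule.mem_sInf] at hb ⊢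
    intro B hB
    exact hB.2 n hn b (hb B hB)
  have NL : ∀ n, NN L E F p q n → n ∈ L := by
    intro n hn
    cases hn with
    | e => exact D.hE
    | f => exact D.hF
    | x h => exact h.mem
    | y h => exact h.mem
  have AL : A ≤ L := Amin L ⟨D.hE, fun n hn b hb => D.brk n (NL n hn) b hb⟩
  have AT : A ≤ T := Amin T ⟨hT E NN.e, fun n hn b hb => hTb n (hT n hn) b hb⟩
  -- stability under degree zero
  let M : Submodule K (Module.End K V) :=
    { carrier := {a | a ∈ A ∧ ∀ z, T0 L p q z → z * a - a * z ∈ A}
      zero_mem' := ⟨A.zero_mem, fun z _ => by rw [mul_zero, zero_mul, sub_zero]; exact A.zero_mem⟩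
      add_mem' := by
        rintro a b ⟨ha, ha'⟩ ⟨hb, hb'⟩
        refine ⟨A.add_mem ha hb, fun z hz => ?_⟩
        have : z * (a + b) - (a + b) * z = (z * a - a * z) + (z * b - b * z) := by noncomm_ring
        rw [this]; exact A.add_mem (ha' z hz) (hb' z hz)
      smul_mem' := by
        rintro c a ⟨ha, ha'⟩
        refine ⟨A.smul_mem _ ha, fun z hz => ?_⟩
        have : z * (c • a) - (c • a) * z = c • (z * a - a * z) := by
          rw [mul_smul_comm, smul_mul_assoc, smul_sub]
        rw [this]; exact A.smul_mem _ (ha' z hz) }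
  have AM : A ≤ M := by
    apply Amin
    refine ⟨⟨AE, ?_⟩, ?_⟩
    · intro z hz
      obtain ⟨c, hc⟩ := D.brkE hz
      rw [hc]; exact A.smul_mem _ AE
    · rintro n hn a ⟨ha, ha'⟩
      refine ⟨AN n hn a ha, ?_⟩
      intro z hz
      have hj : z * (n * a - a * n) - (n * a - a * n) * z
          = ((z * n - n * z) * a - a * (z * n - n * z)) + (n * (z * a - a * z) - (z * a - a * z) * n) := by
        noncomm_ring
      rw [hj]
      refine A.add_mem ?_ (AN n hn _ (ha' z hz))
      cases hn with
      | e =>
        obtain ⟨c, hc⟩ := D.brkE hz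
        rw [hc, smul_mul_assoc, mul_smul_comm, ← smul_sub]
        exact A.smul_mem _ (AN E NN.e a ha)
      | f =>
        obtain ⟨c, hc⟩ := D.brkF hz
        rw [hc, smul_mul_assoc, mul_smul_comm, ← smul_sub]
        exact A.smul_mem _ (AN F NN.f a ha)
      | x h => exact AN _ (NN.x (hz.brk1 D.brk h)) a ha
      | y h => exact AN _ (NN.y (T0.brk1 (p := q) (q := p) D.brk ⟨hz.mem, hz.qz, hz.pz⟩ h)) a ha
  have Aid : ∀ x ∈ L, ∀ a ∈ A, x * a - a * x ∈ A := by
    intro x hx a ha
    obtain ⟨c, c', x₁, z, w, hx₁, hz, hw, rfl⟩ := D.split hx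
    have e : (c • E + x₁ + z + w + c' • F) * a - a * (c • E + x₁ + z + w + c' • F)
        = c • (E * a - a * E) + (x₁ * a - a * x₁) + (z * a - a * z) + (w * a - a * w)
          + c' • (F * a - a * F) := by
      simp only [add_mul, mul_add, smul_mul_assoc, mul_smul_comm, smul_sub]; abel
    rw [e]
    exact A.add_mem (A.add_mem (A.add_mem (A.add_mem (A.smul_mem _ (AN _ NN.e a ha))
      (AN _ (NN.x hx₁) a ha)) ((AM ha).2 z hz)) (AN _ (NN.y hw) a ha)) (A.smul_mem _ (AN _ NN.f a ha))
  rcases S.sim A (fun z hz => AL hz) Aid with h | h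
  · exact absurd (h E AE) E0
  · intro x hx
    exact AT (h x hx)

/-- Stability of a subspace only has to be checked on the generators. -/
theorem SimU.stab (S : SimU L) (D : Tri L E F p q) (E0 : E ≠ 0) (W : Submodule K V)
    (h : ∀ n, NN L E F p q n → ∀ v ∈ W, n v ∈ W) : W = ⊥ ∨ W = ⊤ := by
  refine S.irr W ?_
  let T : Submodule K (Module.End K V) :=
    { carrier := {x | ∀ v ∈ W, x v ∈ W}
      zero_mem' := fun v _ => by rw [LinearMap.zero_apply]; exact W.zero_mem
      add_mem' := fun {a b} ha hb v hv => by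
        rw [LinearMap.add_apply]; exact W.add_mem (ha v hv) (hb v hv)
      smul_mem' := fun c {a} ha v hv => by
        rw [LinearMap.smul_apply]; exact W.smul_mem _ (ha v hv) }
  refine S.gen D E0 T ?_ h
  intro x hx y hy v hv
  show (x * y - y * x) v ∈ W
  rw [LinearMap.sub_apply]
  exact W.sub_mem (hx _ (hy v hv)) (hy _ (hx v hv))

/-- An element commuting with the generators and nilpotent is zero. -/
theorem SimU.cenN (S : SimU L) (D : Tri L E F p q) (E0 : E ≠ 0) {z : Module.End K V}
    (hz : ∀ n, NN L E F p q n → z * n = n * z) (hzz : IsNilpotent z) : z = 0 := by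
  refine S.cen ?_ hzz
  let T : Submodule K (Module.End K V) :=
    { carrier := {x | z * x = x * z}
      zero_mem' := by simp
      add_mem' := fun {a b} ha hb => by
        show z * (a + b) = (a + b) * z
        rw [mul_add, add_mul, ha, hb]
      smul_mem' := fun c {a} ha => by
        show z * (c • a) = (c • a) * z
        rw [mul_smul_comm, smul_mul_assoc, ha] }
  refine S.gen D E0 T ?_ hz
  intro x hx y hy
  show z * (x * y - y * x) = (x * y - y * x) * z
  rw [mul_sub, sub_mul, ← mul_assoc, ← mul_assoc, hx, hy, mul_assoc, hy, mul_assoc, hx, mul_assoc, mul_assoc]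

end Pool.Agent.OU
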