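import Pool.Agent.Lib_helper48.OU.U4

/-! Small rank: two orthogonal extremal pairs. -/

set_option linter.unusedSectionVars false
set_option linter.unusedSimpArgs false

namespace Pool.Agent.OU

open Module Pool.Agent.OT

variable {K : Type*} [Field K] [CharZero K] [IsAlgClosed K]
variable {V : Type*} [AddCommGroup V] [Module K V] [FiniteDimensional K V]
variable {L : Submodule K (Module.End K V)}
variable {s E F p q E' F' p' q' : Module.End K V} {κ : K}

/-- Two orthogonal extremal pairs. -/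
structure PrU (L : Submodule K (Module.End K V)) (s : Module.End K V) (κ : K)
    (E F p q E' F' p' q' : Module.End K V) : Prop where
  A : SDU L s κ E F p q
  B : SDU L s κ E' F' p' q'
  pp : p * p' = 0
  pp' : p' * p = 0
  qq : q * q' = 0
  qq' : q' * q = 0

namespace PrU

theorem symm (D : PrU L s κ E F p q E' F' p' q') : PrU L s κ E' F' p' q' E F p q :=
  ⟨D.B, D.A, D.pp', D.pp, D.qq', D.qq⟩

theorem pq (D : PrU L s κ E F p q E' F' p' q') : p * q' = 0 := by
  apply zero_of_eq_neg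
  nth_rewrite 1 [← D.A.ps]
  rw [mul_assoc, D.B.sq, mul_neg]

theorem qp (D : PrU L s κ E F p q E' F' p' q') : q * p' = 0 := by
  apply zero_of_eq_neg
  nth_rewrite 1 [← D.B.sp]
  rw [← mul_assoc, D.A.qs, neg_mul]

theorem Ep (D : PrU L s κ E F p q E' F' p' q') : E * p' = 0 := by
  rw [← D.A.Eq, mul_assoc, D.qp, mul_zero]
theorem Eq (D : PrU L s κ E F p q E' F' p' q') : E * q' = 0 := by
  rw [← D.A.Eq, mul_assoc, D.qq, mul_zero]
theorem pE (D : PrU L s κ E F p q E' F' p' q') : p' * E = 0 := by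
  rw [← D.A.pE, ← mul_assoc, D.pp', zero_mul]
theorem qE (D : PrU L s κ E F p q E' F' p' q') : q' * E = 0 := by
  rw [← D.A.pE, ← mul_assoc, D.symm.qp, zero_mul]
theorem Fp (D : PrU L s κ E F p q E' F' p' q') : F * p' = 0 := by
  rw [← D.A.Fp, mul_assoc, D.pp, mul_zero]
theorem Fq (D : PrU L s κ E F p q E' F' p' q') : F * q' = 0 := by
  rw [← D.A.Fp, mul_assoc, D.pq, mul_zero]
theorem pF (D : PrU L s κ E F p q E' F' p' q') : p' * F = 0 := by
  rw [← D.A.qF, ← mul_assoc, D.symm.pq, zero_mul]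
theorem qF (D : PrU L s κ E F p q E' F' p' q') : q' * F = 0 := by
  rw [← D.A.qF, ← mul_assoc, D.qq', zero_mul]
theorem EE (D : PrU L s κ E F p q E' F' p' q') : E * E' = 0 := by
  rw [← D.B.pE, ← mul_assoc, D.Ep, zero_mul]
theorem EF (D : PrU L s κ E F p q E' F' p' q') : E * F' = 0 := by
  rw [← D.B.qF, ← mul_assoc, D.Eq, zero_mul]
theorem FE (D : PrU L s κ E F p q E' F' p' q') : F * E' = 0 := by
  rw [← D.B.pE, ← mul_assoc, D.Fp, zero_mul]
theorem FF (D : PrU L s κ E F p q E' F' p' q') : F * F' = 0 := by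
  rw [← D.B.qF, ← mul_assoc, D.Fq, zero_mul]

theorem T0E (D : PrU L s κ E F p q E' F' p' q') : T0 L p' q' E :=
  ⟨D.A.hE, by rw [D.pE, D.Ep], by rw [D.qE, D.Eq]⟩
theorem T0F (D : PrU L s κ E F p q E' F' p' q') : T0 L p' q' F :=
  ⟨D.A.hF, by rw [D.pF, D.Fp], by rw [D.qF, D.Fq]⟩

variable {x y z w x' z' w' : Module.End K V} {κ : K}

theorem d0 (D : PrU L s κ E F p q E' F' p' q') (h1 : T1 L p q z) (h2 : T0 L p' q' z) :
    p' * z = 0 ∧ z * p' = 0 ∧ q' * z = 0 ∧ z * q' = 0 := by
  have e1 : p' * z = 0 := by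
    have : p' * z = p' * (p * z) + p' * (z * q) := by rw [h1.px, mul_sub]; abel
    rw [this, ← mul_assoc, D.pp', zero_mul, zero_add, ← mul_assoc, h2.pz, mul_assoc, D.symm.pq, mul_zero]
  have e2 : q' * z = 0 := by
    have : q' * z = q' * (p * z) + q' * (z * q) := by rw [h1.px, mul_sub]; abel
    rw [this, ← mul_assoc, D.symm.qp, zero_mul, zero_add, ← mul_assoc, h2.qz, mul_assoc, D.qq', mul_zero]
  exact ⟨e1, by rw [← h2.pz]; exact e1, e2, by rw [← h2.qz]; exact e2⟩

theorem d1 (D : PrU L s κ E F p q E' F' p' q') (h1 : T1 L p q x) (h2 : T1 L p' q' x) :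
    p' * x = x * q := by
  have e1 : p' * x = p' * (x * q) := by
    have : p' * x = p' * (p * x) + p' * (x * q) := by rw [h1.px, mul_sub]; abel
    rw [this, ← mul_assoc, D.pp', zero_mul, zero_add]
  have e2 : x * q = (p' * x) * q := by
    have : x * q = (p' * x) * q + (x * q') * q := by rw [h2.px, sub_mul]; abel
    rw [this, mul_assoc x q' q, D.qq', mul_zero, add_zero]
  rw [e1, e2, mul_assoc, ← mul_assoc p' p', D.B.toTri.pp]

theorem dm (D : PrU L s κ E F p q E' F' p' q') (h1 : T1 L p q w) (h2 : T1 L q' p' w) :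
    q' * w = w * q ∧ p * w = w * p' := by
  have e1 : q' * w = q' * (w * q) := by
    have : q' * w = q' * (p * w) + q' * (w * q) := by rw [h1.px, mul_sub]; abel
    rw [this, ← mul_assoc, D.symm.qp, zero_mul, zero_add]
  have e2 : w * q = (q' * w) * q := by
    have : w * q = (q' * w) * q + (w * p') * q := by rw [h2.px, sub_mul]; abel
    rw [this, mul_assoc w p' q, D.symm.pq, mul_zero, add_zero]
  have e3 : p * w = p * (w * p') := by
    have : p * w = p * (q' * w) + p * (w * p') := by rw [h2.px, mul_sub]; abel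
    rw [this, ← mul_assoc, D.pq, zero_mul, zero_add]
  have e4 : w * p' = (p * w) * p' := by
    have : w * p' = (p * w) * p' + (w * q) * p' := by rw [h1.px, sub_mul]; abel
    rw [this, mul_assoc w q p', D.qp, mul_zero, add_zero]
  refine ⟨?_, ?_⟩
  · rw [e1, e2, mul_assoc, ← mul_assoc q' q', D.B.toTri.qq]
  · rw [e3, e4, mul_assoc, ← mul_assoc p p, D.A.toTri.pp]

theorem xz (D : PrU L s κ E F p q E' F' p' q') (h1 : T1 L p q x) (h2 : T1 L p' q' x)
    (h3 : T1 L p q z) (h4 : T0 L p' q' z) : x * z = 0 := by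
  have e : x * z = (p * x) * z + x * (q * z) := by rw [h1.px, ← mul_assoc, sub_mul]; abel
  rw [e, D.symm.d1 h2 h1, mul_assoc, (D.d0 h3 h4).2.2.1, h3.qx, mul_zero, add_zero]

theorem wz (D : PrU L s κ E F p q E' F' p' q') (h1 : T1 L p q w) (h2 : T1 L q' p' w)
    (h3 : T1 L p q z) (h4 : T0 L p' q' z) : w * z = 0 := by
  have e : w * z = (p * w) * z + w * (q * z) := by rw [h1.px, ← mul_assoc, sub_mul]; abel
  rw [e, (D.dm h1 h2).2, mul_assoc, (D.d0 h3 h4).1, h3.qx, mul_zero, add_zero]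

theorem xx (D : PrU L s κ E F p q E' F' p' q') (h1 : T1 L p q x) (h2 : T1 L p' q' x)
    (h3 : T1 L p q x') (h4 : T1 L p' q' x') : x * x' = 0 := by
  have e : x * x' = (p * x) * x' + x * (q * x') := by rw [h1.px, ← mul_assoc, sub_mul]; abel
  rw [e, D.symm.d1 h2 h1, mul_assoc, h4.qx, h3.qx, mul_zero, add_zero]

/-- Decomposition of an element of degree one by the second degree. -/
theorem dec (D : PrU L s κ E F p q E' F' p' q') {t : Module.End K V} (ht : T1 L p q t) :
    ∃ x z w, T1 L p q x ∧ T1 L p' q' x ∧ T1 L p q z ∧ T0 L p' q' z ∧ T1 L p q w ∧ T1 L q' p' w ∧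
      t = x + z + w := by
  have B := D.B.toTri
  have hc := comp_pq B.brk B.pp B.qq B.pq B.qp (o := 1 - p' - q') rfl B.hH ht.mem
  have tpq : t = p * t + t * q := by rw [ht.px]; abel
  have hpt : p' * t = p' * (t * q) := by
    conv_lhs => rw [tpq]
    rw [mul_add, ← mul_assoc, D.pp', zero_mul, zero_add]
  have hqt : q' * t = q' * (t * q) := by
    conv_lhs => rw [tpq]
    rw [mul_add, ← mul_assoc, D.symm.qp, zero_mul, zero_add]
  have htp : t * p' = (p * t) * p' := by
    conv_lhs => rw [tpq]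
    rw [add_mul, mul_assoc t q p', D.qp, mul_zero, add_zero]
  have htq : t * q' = (p * t) * q' := by
    conv_lhs => rw [tpq]
    rw [add_mul, mul_assoc t q q', D.qq, mul_zero, add_zero]
  have a1 : p' * t * p' = 0 := by
    rw [hpt, mul_assoc, mul_assoc, D.qp, mul_zero, mul_zero]
  have a2 : p' * t * q' = 0 := by
    rw [hpt, mul_assoc, mul_assoc, D.qq, mul_zero, mul_zero]
  have a3 : q' * t * p' = 0 := by
    rw [hqt, mul_assoc, mul_assoc, D.qp, mul_zero, mul_zero]
  have a4 : q' * t * q' = 0 := by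
    rw [hqt, mul_assoc, mul_assoc, D.qq, mul_zero, mul_zero]
  have ex : p' * t * (1 - p' - q') + (1 - p' - q') * t * q' = p' * t + t * q' := by
    have : p' * t * (1 - p' - q') + (1 - p' - q') * t * q'
        = p' * t + t * q' - p' * t * p' - p' * t * q' - p' * t * q' - q' * t * q' := by noncomm_ring
    rw [this, a1, a2, a4]; abel
  have ew : (1 - p' - q') * t * p' + q' * t * (1 - p' - q') = q' * t + t * p' := by
    have : (1 - p' - q') * t * p' + q' * t * (1 - p' - q')
        = q' * t + t * p' - p' * t * p' - q' * t * p' - q' * t * p' - q' * t * q' := by noncomm_ring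
    rw [this, a1, a3, a4]; abel
  have hxL : p' * t + t * q' ∈ L := by rw [← ex]; exact hc.2.1
  have hwL : q' * t + t * p' ∈ L := by rw [← ew]; exact hc.2.2.2.1
  have hpp := B.pp
  have hqq := B.qq
  have hx1 : T1 L p q (p' * t + t * q') := by
    refine ⟨hxL, ?_, ?_, ?_⟩
    · rw [mul_add, ← mul_assoc, D.pp, zero_mul, zero_add, add_mul, mul_assoc t q' q, D.qq', mul_zero,
        add_zero, mul_assoc p' t q, ← hpt, ← mul_assoc p t q', ← htq]
      abel
    · rw [mul_add, ← mul_assoc, D.qp, zero_mul, ← mul_assoc, ht.qx, zero_mul, add_zero]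
    · rw [add_mul, mul_assoc, ht.xp, mul_zero, mul_assoc, D.symm.qp, mul_zero, add_zero]
  have hx2 : T1 L p' q' (p' * t + t * q') := by
    refine ⟨hxL, ?_, ?_, ?_⟩
    · rw [mul_add, ← mul_assoc, hpp, ← mul_assoc, a2, add_zero, add_mul, a2, zero_add, mul_assoc, hqq]
      abel
    · rw [mul_add, ← mul_assoc, B.qp, zero_mul, ← mul_assoc, a4, add_zero]
    · rw [add_mul, a1, mul_assoc, B.qp, mul_zero, add_zero]
  have hw1 : T1 L p q (q' * t + t * p') := by
    refine ⟨hwL, ?_, ?_, ?_⟩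
    · rw [mul_add, ← mul_assoc, D.pq, zero_mul, zero_add, add_mul, mul_assoc t p' q, D.symm.pq, mul_zero,
        add_zero, mul_assoc q' t q, ← hqt, ← mul_assoc p t p', ← htp]
      abel
    · rw [mul_add, ← mul_assoc, D.qq, zero_mul, ← mul_assoc, ht.qx, zero_mul, add_zero]
    · rw [add_mul, mul_assoc, ht.xp, mul_zero, mul_assoc, D.pp', mul_zero, add_zero]
  have hw2 : T1 L q' p' (q' * t + t * p') := by
    refine ⟨hwL, ?_, ?_, ?_⟩
    · rw [mul_add, ← mul_assoc, hqq, ← mul_assoc, a3, add_zero, add_mul, a3, zero_add, mul_assoc, hpp]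
      abel
    · rw [mul_add, ← mul_assoc, B.pq, zero_mul, ← mul_assoc, a1, add_zero]
    · rw [add_mul, a4, mul_assoc, B.pq, mul_zero, add_zero]
  refine ⟨p' * t + t * q', t - (p' * t + t * q') - (q' * t + t * p'), q' * t + t * p', hx1, hx2,
    (ht.sub hx1).sub hw1, ⟨L.sub_mem (L.sub_mem ht.mem hxL) hwL, ?_, ?_⟩, hw1, hw2, by abel⟩
  · have e1 : p' * (t - (p' * t + t * q') - (q' * t + t * p'))
        = p' * t - (p' * p') * t - p' * t * q' - (p' * q') * t - p' * t * p' := by noncomm_ring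
    have e2 : (t - (p' * t + t * q') - (q' * t + t * p')) * p'
        = t * p' - p' * t * p' - t * (q' * p') - q' * t * p' - t * (p' * p') := by noncomm_ring
    rw [e1, e2, hpp, B.pq, B.qp, a1, a2, a3]
    simp
  · have e1 : q' * (t - (p' * t + t * q') - (q' * t + t * p'))
        = q' * t - (q' * p') * t - q' * t * q' - (q' * q') * t - q' * t * p' := by noncomm_ring
    have e2 : (t - (p' * t + t * q') - (q' * t + t * p')) * q'
        = t * q' - p' * t * q' - t * (q' * q') - q' * t * q' - t * (p' * q') := by noncomm_ring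
    rw [e1, e2, hqq, B.pq, B.qp, a4, a2, a3]
    simp

end PrU

end Pool.Agent.OU
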