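import Pool.Agent.Lib_helper48.OT.G6
import Pool.Agent.Lib_helper48.OU.U5

/-! Small rank: two orthogonal extremal pairs force rank one. -/

set_option linter.unusedSectionVars false
set_option linter.unusedSimpArgs false

namespace Pool.Agent.OU

open Module Pool.Agent.OT

variable {K : Type*} [Field K] [CharZero K] [IsAlgClosed K]
variable {V : Type*} [AddCommGroup V] [Module K V] [FiniteDimensional K V]
variable {L : Submodule K (Module.End K V)}
variable {s E F p q E' F' p' q' : Module.End K V} {κ : K}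

namespace PrU

/-- There is a nonzero element of bidegree (1,1). -/
theorem exX (S : SimU L) (D : PrU L s κ E F p q E' F' p' q') (E0 : E ≠ 0) (E0' : E' ≠ 0) :
    ∃ x, T1 L p q x ∧ T1 L p' q' x ∧ x ≠ 0 := by
  by_contra hne
  push Not at hne
  apply E0'
  have hT : ∀ t, T1 L p q t → E' * t = t * E' := by
    intro t ht
    obtain ⟨x, z, w, hx1, hx2, hz1, hz2, hw1, hw2, rfl⟩ := D.dec ht
    have ex : x = 0 := hne x hx1 hx2
    have ez : E' * z = 0 ∧ z * E' = 0 := by
      obtain ⟨a1, a2, a3, a4⟩ := D.d0 hz1 hz2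
      refine ⟨?_, ?_⟩
      · rw [← D.B.Eq, mul_assoc, a3, mul_zero]
      · rw [← D.B.pE, ← mul_assoc, a2, zero_mul]
    have ew : w * E' - E' * w = 0 :=
      hne _ ((D.symm.T0E.brk1 D.A.brk hw1).flip) (D.B.toTri.gE hw2)
    rw [ex, zero_add, mul_add, add_mul, ez.1, ez.2, zero_add, zero_add]
    exact (sub_eq_zero.mp ew).symm
  refine S.cenN D.A.toTri E0 (z := E') ?_ ⟨2, by rw [pow_two]; exact D.B.EE⟩
  intro n hn
  cases hn with
  | e => rw [D.symm.EE, D.EE]
  | f => rw [D.symm.EF, D.FE]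
  | x h => exact hT n h
  | y h =>
    have hb := h.back D.A.toTri
    have ht := D.A.toTri.gE h
    have c1 : Commute E' F := by
      show E' * F = F * E'
      rw [D.symm.EF, D.FE]
    have c2 : Commute E' (n * E - E * n) := hT _ ht
    have c3 : Commute E' (-(F * (n * E - E * n) - (n * E - E * n) * F)) :=
      ((c1.mul_right c2).sub_right (c2.mul_right c1)).neg_right
    rw [hb]
    exact c3.eq

theorem topx (D : PrU L s κ E F p q E' F' p' q') {x x' : Module.End K V} (h1 : T1 L p q x)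
    (h2 : T1 L p' q' x) (h1' : T1 L p q x') (h2' : T1 L p' q' x') :
    ∃ c : K, x * (F' * x') + x' * (F' * x) = c • E := by
  refine D.A.top _ ?_ ?_ ?_
  · have h := D.A.brk x h1.mem _ (D.A.brk x' h1'.mem F' D.B.hF)
    have e : x * (x' * F' - F' * x') - (x' * F' - F' * x') * x
        = (x * x') * F' + F' * (x' * x) - (x * (F' * x') + x' * (F' * x)) := by noncomm_ring
    rw [e, D.xx h1 h2 h1' h2', D.xx h1' h2' h1 h2, zero_mul, mul_zero, add_zero, zero_sub] at h
    have := L.neg_mem h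
    rwa [neg_neg] at this
  · have e : p * (x * (F' * x') + x' * (F' * x)) = (p * x) * F' * x' + (p * x') * F' * x := by
      noncomm_ring
    have a1 : (x - x * q) * F' = x * F' := by
      rw [sub_mul, mul_assoc x q F', D.symm.qF, mul_zero, sub_zero]
    have a2 : (x' - x' * q) * F' = x' * F' := by
      rw [sub_mul, mul_assoc x' q F', D.symm.qF, mul_zero, sub_zero]
    rw [e, h1.px, h1'.px, a1, a2, mul_assoc, mul_assoc]
  · have e : (x * (F' * x') + x' * (F' * x)) * q = x * F' * (x' * q) + x' * F' * (x * q) := by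
      noncomm_ring
    have a1 : F' * (x' - p * x') = F' * x' := by
      rw [mul_sub, ← mul_assoc F' p, D.symm.Fp, zero_mul, sub_zero]
    have a2 : F' * (x - p * x) = F' * x := by
      rw [mul_sub, ← mul_assoc F' p, D.symm.Fp, zero_mul, sub_zero]
    rw [e, h1.xq, h1'.xq, mul_assoc, mul_assoc, a1, a2]

theorem prxz (D : PrU L s κ E F p q E' F' p' q') {x z : Module.End K V} (r : K) (h1 : T1 L p q x)
    (h2 : T1 L p' q' x) (h3 : T1 L p q z) (h4 : T0 L p' q' z) : pr F r x z = 0 := by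
  rw [pr_def, D.xz h1 h2 h3 h4, zero_sub, mul_neg, map_neg]
  have e : z * x = z * x * q' := by
    have e1 : z * x = z * (p' * x) + z * (x * q') := by rw [h2.px, mul_sub]; abel
    have e2 : z * (p' * x) = 0 := by rw [← mul_assoc, (D.d0 h3 h4).2.1, zero_mul]
    nth_rewrite 1 [e1]
    rw [e2, zero_add, mul_assoc]
  have e3 : LinearMap.trace K V (F * (z * x)) = 0 := by
    rw [e, ← mul_assoc, LinearMap.trace_mul_comm, ← mul_assoc, D.qF, zero_mul, map_zero]
  rw [e3, neg_zero, zero_div]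

theorem przw (D : PrU L s κ E F p q E' F' p' q') {z w : Module.End K V} (r : K) (h1 : T1 L p q w)
    (h2 : T1 L q' p' w) (h3 : T1 L p q z) (h4 : T0 L p' q' z) : pr F r z w = 0 := by
  rw [pr_def, D.wz h1 h2 h3 h4, sub_zero]
  have e : z * w = z * w * p' := by
    have e1 : z * w = z * (q' * w) + z * (w * p') := by rw [h2.px, mul_sub]; abel
    have e2 : z * (q' * w) = 0 := by rw [← mul_assoc, (D.d0 h3 h4).2.2.2, zero_mul]
    nth_rewrite 1 [e1]
    rw [e2, zero_add, mul_assoc]
  rw [e, ← mul_assoc, LinearMap.trace_mul_comm, ← mul_assoc, D.pF, zero_mul, map_zero, zero_div]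

/-- A non isotropic element of bidegree (1,1). -/
theorem exX0 (S : SimU L) (D : PrU L s κ E F p q E' F' p' q') (E0 : E ≠ 0) (E0' : E' ≠ 0) :
    ∃ x, T1 L p q x ∧ T1 L p' q' x ∧ x * (F' * x) = E := by
  obtain ⟨x, h1, h2, c, hc0, hc⟩ : ∃ x, T1 L p q x ∧ T1 L p' q' x ∧ ∃ c : K, c ≠ 0 ∧
      x * (F' * x) = c • E := by
    by_contra hne
    push Not at hne
    have hQ : ∀ x, T1 L p q x → T1 L p' q' x → x * (F' * x) = 0 := by
      intro x h1 h2
      obtain ⟨c, hc⟩ := D.topx h1 h2 h1 h2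
      have h3 : x * (F' * x) = (c/2) • E := by
        rw [← two_smul K] at hc
        have : x * (F' * x) = (1/2 : K) • ((2 : K) • (x * (F' * x))) := by
          rw [smul_smul]; norm_num
        rw [this, hc, smul_smul]; congr 1; ring
      by_cases h0 : c/2 = 0
      · rw [h3, h0, zero_smul]
      · exact absurd h3 (hne x h1 h2 _ h0)
    obtain ⟨x, h1, h2, hx0⟩ := D.exX S E0 E0'
    apply hx0
    refine T1.nd S.good D.A.toTri E0 h1 ?_
    intro t ht
    obtain ⟨x', z, w, hx1, hx2, hz1, hz2, hw1, hw2, rfl⟩ := D.dec ht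
    have g1 : pr F (rk E : K) x x' = 0 := by
      rw [pr_def, D.xx h1 h2 hx1 hx2, D.xx hx1 hx2 h1 h2, sub_zero, mul_zero, map_zero, zero_div]
    have g3 : pr F (rk E : K) x w = 0 := by
      have hb := hw2.back D.B.toTri
      have hy1 : T1 L p q (w * E' - E' * w) := (D.symm.T0E.brk1 D.A.brk hw1).flip
      have hy2 : T1 L p' q' (w * E' - E' * w) := D.B.toTri.gE hw2
      obtain ⟨y, hy⟩ : ∃ y, y = w * E' - E' * w := ⟨_, rfl⟩
      rw [← hy] at hb hy1 hy2
      have hpol : x * (F' * y) + y * (F' * x) = 0 := by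
        have e : x * (F' * y) + y * (F' * x) = (x + y) * (F' * (x + y)) - x * (F' * x)
            - y * (F' * y) := by noncomm_ring
        rw [e, hQ _ (h1.add hy1) (h2.add hy2), hQ x h1 h2, hQ y hy1 hy2, sub_zero, sub_zero]
      have e : x * w - w * x = (x * y) * F' + F' * (y * x) - (x * (F' * y) + y * (F' * x)) := by
        rw [hb]; noncomm_ring
      rw [pr_def, e, hpol, D.xx h1 h2 hy1 hy2, D.xx hy1 hy2 h1 h2]
      simp
    rw [map_add, map_add, g1, D.prxz _ h1 h2 hz1 hz2, g3, add_zero, add_zero]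
  obtain ⟨d, hd⟩ := IsAlgClosed.exists_pow_nat_eq c (n := 2) (by norm_num)
  have hd0 : d ≠ 0 := by
    rintro rfl
    apply hc0
    rw [← hd]; norm_num
  refine ⟨d⁻¹ • x, h1.smul _, h2.smul _, ?_⟩
  rw [mul_smul_comm, mul_smul_comm, smul_mul_assoc, smul_smul, hc, smul_smul, ← hd]
  have : d⁻¹ * d⁻¹ * d ^ 2 = 1 := by field_simp
  rw [this, one_smul]

end PrU

end Pool.Agent.OU
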