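import Pool.Agent.Lib_helper48.OT.G7
import Pool.Agent.Lib_helper48.OU.U6

/-! Small rank: the associative algebra on the range of q. -/

set_option linter.unusedSectionVars false
set_option linter.unusedSimpArgs false

namespace Pool.Agent.OU

open Module Pool.Agent.OT

variable {K : Type*} [Field K] [CharZero K] [IsAlgClosed K]
variable {V : Type*} [AddCommGroup V] [Module K V] [FiniteDimensional K V]
variable {L : Submodule K (Module.End K V)}
variable {s E F p q E' F' p' q' x₀ : Module.End K V} {κ : K}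

/-- Two orthogonal extremal pairs joined by x₀. -/
structure CfgU (L : Submodule K (Module.End K V)) (s : Module.End K V) (κ : K)
    (E F p q E' F' p' q' x₀ : Module.End K V) : Prop where
  S : SimU L
  D : PrU L s κ E F p q E' F' p' q'
  E0 : E ≠ 0
  h1 : T1 L p q x₀
  h2 : T1 L p' q' x₀
  xFx' : x₀ * (F' * x₀) = E
  xFx : x₀ * (F * x₀) = E'

theorem CfgU.mk' (S : SimU L) (D : PrU L s κ E F p q E' F' p' q') (E0 : E ≠ 0)
    (h1 : T1 L p q x₀) (h2 : T1 L p' q' x₀) (h : x₀ * (F' * x₀) = E) :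
    CfgU L s κ E F p q E' F' p' q' x₀ := by
  refine ⟨S, D, E0, h1, h2, h, ?_⟩
  obtain ⟨c, hc⟩ := D.symm.topx h2 h1 h2 h1
  have h3 : x₀ * (F * x₀) = (c/2) • E' := by
    rw [← two_smul K] at hc
    have : x₀ * (F * x₀) = (1/2 : K) • ((2 : K) • (x₀ * (F * x₀))) := by
      rw [smul_smul]; norm_num
    rw [this, hc, smul_smul]; congr 1; ring
  have e1 : x₀ * (F * x₀) * (F' * x₀) = (c/2) • (x₀ * q) := by
    rw [h3, smul_mul_assoc, ← mul_assoc, D.B.EF, D.d1 h1 h2]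
  have e2 : x₀ * (F * x₀) * (F' * x₀) = x₀ * q := by
    have : x₀ * (F * x₀) * (F' * x₀) = x₀ * (F * (x₀ * (F' * x₀))) := by simp only [mul_assoc]
    rw [this, h, D.A.FE]
  have e3 : (c/2 - 1) • (x₀ * q) = 0 := by rw [sub_smul, ← e1, e2, one_smul, sub_self]
  rcases smul_eq_zero.mp e3 with h4 | h4
  · rw [h3, sub_eq_zero.mp h4, one_smul]
  · exfalso
    apply E0
    have : E * q = E := D.A.Eq
    rw [← this, ← h, mul_assoc, mul_assoc, h4, mul_zero, mul_zero]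

namespace CfgU

theorem qalg (C : CfgU L s κ E F p q E' F' p' q' x₀) {α : Module.End K V}
    (h : α ∈ Alg0 L F p q p' q') : q * α = α := by
  rw [Alg0] at h
  induction h using Submodule.span_induction with
  | mem α h =>
    obtain ⟨y, y', -, -, -, -, rfl⟩ := h
    rw [← mul_assoc, C.D.A.qF]
  | zero => rw [mul_zero]
  | add a b _ _ ha hb => rw [mul_add, ha, hb]
  | smul c a _ ha => rw [mul_smul_comm, ha]

theorem x0q (C : CfgU L s κ E F p q E' F' p' q' x₀) {w : Module.End K V} (h1 : T1 L p q w)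
    (h2 : T1 L q' p' w) : F' * (x₀ * (F * (x₀ * (w * q)))) = w * q := by
  have e : F' * (x₀ * (F * (x₀ * (w * q)))) = F' * (x₀ * (F * x₀)) * (w * q) := by
    simp only [mul_assoc]
  rw [e, C.xFx, C.D.B.FE, ← (C.D.dm h1 h2).1, ← mul_assoc, C.D.B.toTri.qq]

/-- multiplication by F x₀ w on the right. -/
theorem step1 (C : CfgU L s κ E F p q E' F' p' q' x₀) {y w : Module.End K V} (h1 : T1 L p q y)
    (h2 : T0 L p' q' y) (h3 : T1 L p q w) (h4 : T1 L q' p' w) :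
    ∃ y', T1 L p q y' ∧ T0 L p' q' y' ∧ y * (F * (x₀ * (w * q))) = y' * q := by
  have hb := C.D.A.brk
  have z1 : T1 L q p (F * x₀ - x₀ * F) := C.D.A.toTri.gF C.h1
  have z2 : T1 L p' q' (F * x₀ - x₀ * F) := C.D.T0F.brk1 hb C.h2
  obtain ⟨z, hz⟩ : ∃ z, z = F * x₀ - x₀ * F := ⟨_, rfl⟩
  rw [← hz] at z1 z2
  have t1 : T0 L p q (y * z - z * y) := (h1.brk hb z1).flip
  have t2 : T1 L p' q' (y * z - z * y) := h2.brk1 hb z2
  obtain ⟨t, ht⟩ : ∃ t, t = y * z - z * y := ⟨_, rfl⟩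
  rw [← ht] at t1 t2
  have y1 : T1 L p q (t * w - w * t) := t1.brk1 hb h3
  have y2 : T0 L p' q' (t * w - w * t) := (t2.brk hb h4).flip
  refine ⟨t * w - w * t, y1, y2, ?_⟩
  have a1 : F * (w * q) = 0 := h3.Fq C.D.A.toTri
  have a2 : y * (w * q) = 0 := by
    rw [← (C.D.dm h3 h4).1, ← mul_assoc, (C.D.d0 h1 h2).2.2.2, zero_mul]
  have a3 : t * q = 0 := by
    have b1 : F * (y * q) = 0 := h1.Fq C.D.A.toTri
    have b2 : x₀ * y = 0 := C.D.xz C.h1 C.h2 h1 h2
    have e : t * q = y * (z * q) - F * (x₀ * y) * q + x₀ * (F * (y * q)) := by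
      rw [ht]; nth_rewrite 2 [hz]; noncomm_ring
    rw [e, z1.xp, b1, b2]; simp
  have e : (t * w - w * t) * q = y * (F * (x₀ * (w * q))) - y * (x₀ * (F * (w * q)))
      - z * (y * (w * q)) - w * (t * q) := by
    nth_rewrite 1 [ht]; nth_rewrite 1 [hz]; noncomm_ring
  rw [e, a1, a2, a3]; simp

theorem step2 (C : CfgU L s κ E F p q E' F' p' q' x₀) {y y' : Module.End K V} (h1 : T1 L p q y)
    (h2 : T0 L p' q' y) (h3 : T1 L p q y') (h4 : T0 L p' q' y') :
    ∃ w, T1 L p q w ∧ T1 L q' p' w ∧ F * (x₀ * (w * q)) = F * (y * (y' * q)) := by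
  have hb := C.D.A.brk
  have w1 : T1 L p q (F' * x₀ - x₀ * F') := C.D.symm.T0F.brk1 hb C.h1
  have w2 : T1 L q' p' (F' * x₀ - x₀ * F') := C.D.B.toTri.gF C.h2
  obtain ⟨w₀, hw⟩ : ∃ w₀, w₀ = F' * x₀ - x₀ * F' := ⟨_, rfl⟩
  rw [← hw] at w1 w2
  have v1 : T1 L q p (F * y - y * F) := C.D.A.toTri.gF h1
  have v2 : T0 L p' q' (F * y - y * F) := C.D.T0F.brk0 hb h2
  obtain ⟨v, hv⟩ : ∃ v, v = F * y - y * F := ⟨_, rfl⟩
  rw [← hv] at v1 v2
  have t1 : T0 L p q (w₀ * v - v * w₀) := (w1.brk hb v1).flip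
  have t2 : T1 L q' p' (w₀ * v - v * w₀) :=
    (T0.brk1 (p := q') (q := p') hb ⟨v2.mem, v2.qz, v2.pz⟩ w2).flip
  obtain ⟨t, ht⟩ : ∃ t, t = w₀ * v - v * w₀ := ⟨_, rfl⟩
  rw [← ht] at t1 t2
  have u1 : T1 L p q (t * y' - y' * t) := t1.brk1 hb h3
  have u2 : T1 L q' p' (t * y' - y' * t) :=
    (T0.brk1 (p := q') (q := p') hb ⟨h4.mem, h4.qz, h4.pz⟩ t2).flip
  refine ⟨t * y' - y' * t, u1, u2, ?_⟩
  have a1 : F * (y' * q) = 0 := h3.Fq C.D.A.toTri
  have a2 : F * (w₀ * q) = 0 := w1.Fq C.D.A.toTri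
  have a3 : w₀ * y' = 0 := C.D.wz w1 w2 h3 h4
  have a4 : y * (w₀ * q) = 0 := by
    rw [← (C.D.dm w1 w2).1, ← mul_assoc, (C.D.d0 h1 h2).2.2.2, zero_mul]
  have a5 : t * q = 0 := by
    have e : t * q = w₀ * (v * q) - F * (y * (w₀ * q)) + y * (F * (w₀ * q)) := by
      rw [ht]; nth_rewrite 2 [hv]; noncomm_ring
    rw [e, v1.xp, a4, a2]; simp
  have a6 : (t * y' - y' * t) * q = w₀ * (F * (y * (y' * q))) := by
    have e : (t * y' - y' * t) * q = w₀ * (F * (y * (y' * q))) - w₀ * (y * (F * (y' * q)))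
        - v * (w₀ * y') * q - y' * (t * q) := by
      nth_rewrite 1 [ht]; nth_rewrite 1 [hv]; noncomm_ring
    rw [e, a1, a3, a5]; simp
  have a7 : x₀ * (w₀ * q) = E := by
    have e : x₀ * (w₀ * q) = x₀ * (F' * x₀) * q - (x₀ * x₀) * F' * q := by
      rw [hw]; noncomm_ring
    rw [e, C.xFx', C.D.A.Eq, C.D.xx C.h1 C.h2 C.h1 C.h2, zero_mul, zero_mul, sub_zero]
  have a8 : q * F = F := C.D.A.qF
  have e : F * (x₀ * (w₀ * (F * (y * (y' * q))))) = F * (x₀ * (w₀ * q)) * (F * (y * (y' * q))) := by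
    nth_rewrite 2 [← a8]
    simp only [mul_assoc]
  rw [a6, e, a7, C.D.A.FE, ← mul_assoc, a8]

/-- The algebra is closed under right multiplication by F x₀ w. -/
theorem mulw (C : CfgU L s κ E F p q E' F' p' q' x₀) {α w : Module.End K V}
    (hα : α ∈ Alg0 L F p q p' q') (h3 : T1 L p q w) (h4 : T1 L q' p' w) :
    α * (F * (x₀ * (w * q))) ∈ Alg0 L F p q p' q' := by
  rw [Alg0] at hα
  induction hα using Submodule.span_induction with
  | mem α h =>
    obtain ⟨y, y', h1, h2, h1', h2', rfl⟩ := h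
    obtain ⟨y'', g1, g2, g3⟩ := C.step1 h1' h2' h3 h4
    have e : F * (y * (y' * q)) * (F * (x₀ * (w * q))) = F * (y * (y'' * q)) := by
      rw [← g3]
      have : F * (y * (y' * q)) * (F * (x₀ * (w * q))) = F * (y * (y' * ((q * F) * (x₀ * (w * q))))) := by
        simp only [mul_assoc]
      rw [this, C.D.A.qF]
    rw [e]
    exact Submodule.subset_span ⟨y, y'', h1, h2, g1, g2, rfl⟩
  | zero => rw [zero_mul]; exact Submodule.zero_mem _
  | add a b _ _ ha hb => rw [add_mul]; exact Submodule.add_mem _ ha hb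
  | smul c a _ ha => rw [smul_mul_assoc]; exact Submodule.smul_mem _ _ ha

/-- Every element of the algebra is of the form F x₀ w q. -/
theorem rep (C : CfgU L s κ E F p q E' F' p' q' x₀) {α : Module.End K V}
    (hα : α ∈ Alg0 L F p q p' q') :
    ∃ w, T1 L p q w ∧ T1 L q' p' w ∧ α = F * (x₀ * (w * q)) := by
  rw [Alg0] at hα
  induction hα using Submodule.span_induction with
  | mem α h =>
    obtain ⟨y, y', h1, h2, h1', h2', rfl⟩ := h
    obtain ⟨w, g1, g2, g3⟩ := C.step2 h1 h2 h1' h2'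
    exact ⟨w, g1, g2, g3.symm⟩
  | zero => exact ⟨0, T1.zero, T1.zero, by simp⟩
  | add a b _ _ ha hb =>
    obtain ⟨w, g1, g2, rfl⟩ := ha
    obtain ⟨w', g1', g2', rfl⟩ := hb
    exact ⟨w + w', g1.add g1', g2.add g2', by simp only [add_mul, mul_add]⟩
  | smul c a _ ha =>
    obtain ⟨w, g1, g2, rfl⟩ := ha
    exact ⟨c • w, g1.smul c, g2.smul c, by simp only [smul_mul_assoc, mul_smul_comm]⟩

theorem mul (C : CfgU L s κ E F p q E' F' p' q' x₀) {α β : Module.End K V}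
    (hα : α ∈ Alg0 L F p q p' q') (hβ : β ∈ Alg0 L F p q p' q') : α * β ∈ Alg0 L F p q p' q' := by
  obtain ⟨w, g1, g2, rfl⟩ := C.rep hβ
  exact C.mulw hα g1 g2

theorem Fxw0 (C : CfgU L s κ E F p q E' F' p' q' x₀) (hq : q ∈ Alg0 L F p q p' q')
    {w : Module.End K V} (h3 : T1 L p q w) (h4 : T1 L q' p' w) :
    F * (x₀ * (w * q)) ∈ Alg0 L F p q p' q' := by
  have := C.mulw hq h3 h4
  rw [← mul_assoc, C.D.A.qF] at this
  exact this

theorem Fxw (C : CfgU L s κ E F p q E' F' p' q' x₀) (hq : q ∈ Alg0 L F p q p' q')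
    {x w : Module.End K V} (h1 : T1 L p q x) (h2 : T1 L p' q' x) (h3 : T1 L p q w)
    (h4 : T1 L q' p' w) : F * (x * (w * q)) ∈ Alg0 L F p q p' q' := by
  have hb := C.D.A.brk
  obtain ⟨c, hc⟩ := C.D.topx h1 h2 C.h1 C.h2
  have hα := C.Fxw0 hq h3 h4
  have hqα := C.qalg hα
  obtain ⟨α, hαe⟩ : ∃ α, α = F * (x₀ * (w * q)) := ⟨_, rfl⟩
  rw [← hαe] at hα hqα
  have w1 : T1 L p q (F' * x - x * F') := C.D.symm.T0F.brk1 hb h1
  have w2 : T1 L q' p' (F' * x - x * F') := C.D.B.toTri.gF h2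
  have hα' := C.Fxw0 hq w1 w2
  have e0 : F * (x₀ * ((F' * x - x * F') * q)) = F * (x₀ * (F' * (x * q))) := by
    have : F * (x₀ * ((F' * x - x * F') * q)) = F * (x₀ * (F' * (x * q))) - F * (x₀ * (x * (F' * q))) := by
      noncomm_ring
    rw [this, C.D.symm.Fq]; simp
  rw [e0] at hα'
  have e1 : F * (x * (w * q)) = c • α - F * (x₀ * (F' * (x * q))) * α := by
    have g1 : w * q = F' * (x₀ * α) := by rw [hαe]; exact (C.x0q h3 h4).symm
    have g2 : x * (F' * (x₀ * α)) = c • (E * α) - x₀ * (F' * (x * α)) := by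
      have : x * (F' * (x₀ * α)) = (x * (F' * x₀) + x₀ * (F' * x)) * α - x₀ * (F' * (x * α)) := by
        noncomm_ring
      rw [this, hc, smul_mul_assoc]
    rw [g1, g2, mul_sub, mul_smul_comm, ← mul_assoc F E, C.D.A.FE, hqα]
    congr 1
    nth_rewrite 1 [← hqα]
    simp only [mul_assoc]
  rw [e1]
  exact Submodule.sub_mem _ (Submodule.smul_mem _ _ hα) (C.mul hα' hα)

/-- All F t t' q belong to the algebra. -/
theorem all (C : CfgU L s κ E F p q E' F' p' q' x₀) (hq : q ∈ Alg0 L F p q p' q')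
    {t t' : Module.End K V} (ht : T1 L p q t) (ht' : T1 L p q t') :
    F * (t * (t' * q)) ∈ Alg0 L F p q p' q' := by
  obtain ⟨x, z, w, x1, x2, z1, z2, w1, w2, rfl⟩ := C.D.dec ht
  obtain ⟨x', z', w', x1', x2', z1', z2', w1', w2', rfl⟩ := C.D.dec ht'
  have D := C.D
  have a1 : x * x' = 0 := D.xx x1 x2 x1' x2'
  have a2 : x * z' = 0 := D.xz x1 x2 z1' z2'
  have a4 : z * (x' * q) = 0 := by
    rw [← D.d1 x1' x2', ← mul_assoc, (D.d0 z1 z2).2.1, zero_mul]
  have a5 : z * (w' * q) = 0 := by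
    rw [← (D.dm w1' w2').1, ← mul_assoc, (D.d0 z1 z2).2.2.2, zero_mul]
  have a6 : w * z' = 0 := D.wz w1 w2 z1' z2'
  have a7 : w * (w' * q) = 0 := by
    rw [← (D.dm w1' w2').1, ← mul_assoc, w2.xp, zero_mul]
  have a8 : F * (w * (x' * q)) = F * (x' * (w * q)) - pr F (rk E : K) x' w • q := by
    have h := x1'.brk_eq D.A.toTri C.E0 w1
    have e : F * (w * (x' * q)) = F * (x' * (w * q)) - F * ((x' * w - w * x') * q) := by noncomm_ring
    rw [e, h, smul_mul_assoc, mul_smul_comm, D.A.Eq, D.A.FE]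
  have e : F * ((x + z + w) * ((x' + z' + w') * q)) = F * (x * x') * q + F * (x * z') * q
      + F * (x * (w' * q)) + F * (z * (x' * q)) + F * (z * (z' * q)) + F * (z * (w' * q))
      + F * (w * (x' * q)) + F * (w * z') * q + F * (w * (w' * q)) := by noncomm_ring
  rw [e, a1, a2, a4, a5, a6, a7, a8, mul_zero, zero_mul, zero_add, zero_add, add_zero, add_zero,
    add_zero, add_zero]
  refine Submodule.add_mem _ (Submodule.add_mem _ (C.Fxw hq x1 x2 w1' w2')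
    (Submodule.subset_span ⟨z, z', z1, z2, z1', z2', rfl⟩))
    (Submodule.sub_mem _ (C.Fxw hq x1' x2' w1 w2) (Submodule.smul_mem _ _ hq))

end CfgU

end Pool.Agent.OU
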