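import Pool.Agent.Lib_helper48.OT.G8
import Pool.Agent.Lib_helper48.OU.U7

/-! Small rank: the main theorem. -/

set_option linter.unusedSectionVars false
set_option linter.unusedSimpArgs false

namespace Pool.Agent.OU

open Module Pool.Agent.OT

variable {K : Type*} [Field K] [CharZero K] [IsAlgClosed K]
variable {V : Type*} [AddCommGroup V] [Module K V] [FiniteDimensional K V]
variable {L : Submodule K (Module.End K V)}
variable {s E F p q E' F' p' q' x₀ : Module.End K V} {κ : K}

namespace CfgU

/-- There is an element of bidegree (1,0). -/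
theorem ex10 (C : CfgU L s κ E F p q E' F' p' q' x₀) (hn : 4 * rk E < finrank K V) :
    ∃ y, T1 L p q y ∧ T0 L p' q' y ∧ y ≠ 0 := by
  have D := C.D
  have hpp := D.A.toTri.pp
  have hqq := D.A.toTri.qq
  have hpp' := D.B.toTri.pp
  have hqq' := D.B.toTri.qq
  by_contra hne
  push Not at hne
  obtain ⟨e, he⟩ : ∃ e : Module.End K V, e = p + q + p' + q' := ⟨_, rfl⟩
  have eE : e * E = E := by
    rw [he, add_mul, add_mul, add_mul, D.A.pE, D.A.toTri.qE, D.pE, D.qE]; abel
  have eF : e * F = F := by
    rw [he, add_mul, add_mul, add_mul, D.A.toTri.pF, D.A.qF, D.pF, D.qF]; abel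
  have eT : ∀ t, T1 L p q t → e * t = t := by
    intro t ht
    obtain ⟨x, z, w, hx1, hx2, hz1, hz2, hw1, hw2, rfl⟩ := D.dec ht
    have ez : z = 0 := hne z hz1 hz2
    have ex : e * x = x := by
      rw [he, add_mul, add_mul, add_mul, hx1.px, hx1.qx, D.d1 hx1 hx2, hx2.qx]; abel
    have ew : e * w = w := by
      rw [he, add_mul, add_mul, add_mul, hw1.px, hw1.qx, hw2.qx, (D.dm hw1 hw2).1]; abel
    rw [mul_add, mul_add, ex, ew, ez, mul_zero]
  have eN : ∀ n, NN L E F p q n → e * n = n := by
    intro n hn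
    cases hn with
    | e => exact eE
    | f => exact eF
    | x h => exact eT n h
    | y h =>
      have hb := h.back D.A.toTri
      have ht := eT _ (D.A.toTri.gE h)
      rw [hb, mul_neg, mul_sub, ← mul_assoc, eF, ← mul_assoc, ht]
  rcases C.S.stab D.A.toTri C.E0 (LinearMap.range e) (by
    intro n hn v _
    exact ⟨n v, LinearMap.congr_fun (eN n hn) v⟩) with h | h
  · apply C.E0
    rw [← eE, LinearMap.range_eq_bot.mp h, zero_mul]
  · have ee : e * e = e := by
      have h1 : e * p = p := by rw [← D.A.EF, ← mul_assoc, eE]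
      have h2 : e * q = q := by rw [← D.A.FE, ← mul_assoc, eF]
      have h3 : e * p' = p' := by
        rw [he, add_mul, add_mul, add_mul, D.pp, D.qp, hpp', D.B.toTri.qp]; abel
      have h4 : e * q' = q' := by
        rw [he, add_mul, add_mul, add_mul, D.pq, D.qq, hqq', D.B.toTri.pq]; abel
      nth_rewrite 2 [he]
      rw [mul_add, mul_add, mul_add, h1, h2, h3, h4, he]
    have e1 : e = 1 := by
      ext v
      obtain ⟨w, hw⟩ := LinearMap.range_eq_top.mp h v
      rw [← hw]
      exact LinearMap.congr_fun ee w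
    have tp : LinearMap.trace K V p = (rk E : K) := by
      rw [← D.A.EF, LinearMap.trace_mul_comm, D.A.FE, D.A.toTri.trq]
    have tp' : LinearMap.trace K V p' = LinearMap.trace K V q' := by
      rw [← D.B.EF, LinearMap.trace_mul_comm, D.B.FE]
    have tq' : LinearMap.trace K V q' = (rk E : K) := by
      rw [← D.A.toTri.trq, ← D.A.FE, ← D.B.FE, ← C.xFx, ← C.xFx', ← mul_assoc,
        LinearMap.trace_mul_comm, ← mul_assoc, ← mul_assoc, ← mul_assoc]
    have ht : LinearMap.trace K V e = (finrank K V : K) := by rw [e1, LinearMap.trace_one]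
    rw [he, map_add, map_add, map_add, tp, tp', tq', D.A.toTri.trq] at ht
    have : ((4 * rk E : ℕ) : K) = ((finrank K V : ℕ) : K) := by
      push_cast
      rw [← ht]; ring
    have h5 : 4 * rk E = finrank K V := by exact_mod_cast this
    omega

/-- The algebra contains the unit. -/
theorem qmem (C : CfgU L s κ E F p q E' F' p' q' x₀) (hn : 4 * rk E < finrank K V) :
    q ∈ Alg0 L F p q p' q' := by
  have D := C.D
  obtain ⟨y, h1, h2, hy0⟩ := C.ex10 hn
  obtain ⟨t, ht, htp⟩ : ∃ t, T1 L p q t ∧ pr F (rk E : K) y t ≠ 0 := by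
    by_contra hne
    push Not at hne
    exact hy0 (T1.nd C.S.good D.A.toTri C.E0 h1 hne)
  obtain ⟨x, z, w, hx1, hx2, hz1, hz2, hw1, hw2, rfl⟩ := D.dec ht
  rw [map_add, map_add, pr_skew F _ y x, D.prxz _ hx1 hx2 h1 h2, D.przw _ hw1 hw2 h1 h2, neg_zero,
    zero_add, add_zero] at htp
  have h3 := h1.brk_eq D.A.toTri C.E0 hz1
  have e : F * (y * (z * q)) - F * (z * (y * q)) = pr F (rk E : K) y z • q := by
    have : F * (y * (z * q)) - F * (z * (y * q)) = F * ((y * z - z * y) * q) := by noncomm_ring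
    rw [this, h3, smul_mul_assoc, mul_smul_comm, D.A.Eq, D.A.FE]
  have e2 : q = (pr F (rk E : K) y z)⁻¹ • (F * (y * (z * q)) - F * (z * (y * q))) := by
    rw [e, smul_smul, inv_mul_cancel₀ htp, one_smul]
  have h4 : (pr F (rk E : K) y z)⁻¹ • (F * (y * (z * q)) - F * (z * (y * q)))
      ∈ Alg0 L F p q p' q' := Submodule.smul_mem _ _ (Submodule.sub_mem _
    (Submodule.subset_span ⟨y, z, h1, h2, hz1, hz2, rfl⟩)
    (Submodule.subset_span ⟨z, y, hz1, hz2, h1, h2, rfl⟩))
  rwa [← e2] at h4

end CfgU

theorem Inv.J (hL : Good L) (hI : Inv L s κ) {x : Module.End K V} (hx : x ∈ L) :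
    J1 L s ((1 + s) * x * (1 - s)) := by
  have hss := hI.ss
  refine ⟨hI.up hL.brk hx, ?_, ?_⟩
  · have : s * ((1 + s) * x * (1 - s)) = (s + s * s) * x * (1 - s) := by noncomm_ring
    rw [this, hss, add_comm]
  · have : (1 + s) * x * (1 - s) * s = (1 + s) * x * (s - s * s) := by noncomm_ring
    rw [this, hss, ← mul_neg, neg_sub]

/-- An element of s-degree one or minus one of rank at most the rank of x. -/
theorem SimU.exJ (S : SimU L) (hI : Inv L s κ) (hsc : ∀ c : K, s ≠ c • 1) {x : Module.End K V}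
    (hx : x ∈ L) (hx0 : x ≠ 0) :
    ∃ t κ', Inv L t κ' ∧ (t = s ∨ t = -s) ∧ ∃ e, J1 L t e ∧ e ≠ 0 ∧ rk e ≤ rk x := by
  have hL := S.good
  have hss := hI.ss
  have hnI : Inv L (-s) (-κ) := hI.neg
  have hnss : (-s) * (-s) = 1 := by rw [neg_mul_neg, hss]
  by_contra hne
  push Not at hne
  -- no components
  have hup : ∀ t κ', Inv L t κ' → (t = s ∨ t = -s) → ∀ y ∈ L, rk y ≤ rk x →
      (1 + t) * y * (1 - t) = 0 := by
    intro t κ' ht hts y hy hyx
    by_contra h0
    have := hne t κ' ht hts _ (ht.J hL hy) h0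
    have h2 := rk_sandwich (1 + t) y (1 - t)
    omega
  have hcom : ∀ y ∈ L, rk y ≤ rk x → s * y = y * s := by
    intro y hy hyx
    have h1 := hup s κ hI (Or.inl rfl) y hy hyx
    have h2 := hup (-s) (-κ) hnI (Or.inr rfl) y hy hyx
    have e : (1 + s) * y * (1 - s) - (1 + -s) * y * (1 - -s) = (2 : K) • (s * y - y * s) := by
      rw [two_smul]; noncomm_ring
    rw [h1, h2, sub_zero] at e
    exact sub_eq_zero.mp ((smul_eq_zero.mp e.symm).resolve_left (by norm_num))
  -- x commutes with the elements of degree one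
  have hxJ : ∀ t, (t = s ∨ t = -s) → ∀ z, J1 L t z → x * z = z * x := by
    intro t ht z hz
    obtain ⟨κ', htI⟩ : ∃ κ', Inv L t κ' := by
      rcases ht with rfl | rfl
      · exact ⟨κ, hI⟩
      · exact ⟨-κ, hnI⟩
    have htt : t * t = 1 := htI.ss
    have htx : t * x = x * t := by
      rcases ht with rfl | rfl
      · exact hcom x hx le_rfl
      · rw [neg_mul, mul_neg, hcom x hx le_rfl]
    have hzz : z * z = 0 := One.mul_zero_of hz.xs hz.sx
    have zxz : z * x * z = 0 := by
      apply zero_of_eq_neg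
      nth_rewrite 2 [← hz.sx]
      rw [← mul_assoc, mul_assoc z x t, ← htx, ← mul_assoc, hz.xs, neg_mul, neg_mul]
    have hy : (1 + z) * x * (1 - z) = x + (z * x - x * z) := by
      have : (1 + z) * x * (1 - z) = x + (z * x - x * z) - z * x * z := by noncomm_ring
      rw [this, zxz, sub_zero]
    have hyL : (1 + z) * x * (1 - z) ∈ L := by
      rw [hy]; exact L.add_mem hx (hL.brk z hz.mem x hx)
    have h1 := hup t κ' htI ht _ hyL (rk_sandwich _ _ _)
    rw [hy] at h1
    have h2 := hup t κ' htI ht x hx le_rfl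
    have e : (1 + t) * (x + (z * x - x * z)) * (1 - t) = (1 + t) * x * (1 - t)
        + ((1 + t) * z * (x - x * t) - (1 + t) * x * (z - z * t)) := by noncomm_ring
    rw [h1, h2, zero_add] at e
    have a1 : (1 + t) * z = (2 : K) • z := by rw [add_mul, one_mul, hz.sx, two_smul]
    have a2 : z - z * t = (2 : K) • z := by rw [hz.xs, two_smul]; abel
    have a3 : z * (x - x * t) = (2 : K) • (z * x) := by
      rw [mul_sub, ← htx, ← mul_assoc, hz.xs, two_smul]; noncomm_ring
    have a4 : (1 + t) * x * z = (2 : K) • (x * z) := by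
      rw [add_mul, one_mul, add_mul, htx, mul_assoc x t z, hz.sx, two_smul]
    rw [a1, a2, mul_smul_comm, a4, smul_mul_assoc, a3, smul_smul, smul_smul, ← smul_sub] at e
    have h3 := (smul_eq_zero.mp e.symm).resolve_left (by norm_num)
    exact (sub_eq_zero.mp h3).symm
  -- the centralizer of the elements of degree one
  let Z : Submodule K (Module.End K V) :=
    { carrier := {y | y ∈ L ∧ ∀ t, (t = s ∨ t = -s) → ∀ z, J1 L t z → y * z = z * y}
      zero_mem' := ⟨L.zero_mem, by intros; simp⟩
      add_mem' := by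
        rintro a b ⟨ha, ha'⟩ ⟨hb, hb'⟩
        exact ⟨L.add_mem ha hb, fun t ht z hz => by rw [add_mul, mul_add, ha' t ht z hz, hb' t ht z hz]⟩
      smul_mem' := by
        rintro c a ⟨ha, ha'⟩
        exact ⟨L.smul_mem _ ha, fun t ht z hz => by rw [smul_mul_assoc, mul_smul_comm, ha' t ht z hz]⟩ }
  have hZ : ∀ w ∈ L, ∀ y ∈ Z, w * y - y * w ∈ Z := by
    rintro w hw y ⟨hy, hy'⟩
    refine ⟨hL.brk w hw y hy, ?_⟩
    intro t ht j hj
    obtain ⟨κ', htI⟩ : ∃ κ', Inv L t κ' := by
      rcases ht with rfl | rfl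
      · exact ⟨κ, hI⟩
      · exact ⟨-κ, hnI⟩
    have htt : t * t = 1 := htI.ss
    have hnt : -t = s ∨ -t = -s := by
      rcases ht with rfl | rfl
      · right; rfl
      · left; exact neg_neg _
    have hntI : Inv L (-t) (-κ') := htI.neg
    -- components of w
    obtain ⟨a, ha⟩ : ∃ a, a = (1 + t) * w * (1 - t) := ⟨_, rfl⟩
    obtain ⟨b, hb⟩ : ∃ b, b = (1 + -t) * w * (1 - -t) := ⟨_, rfl⟩
    obtain ⟨c, hc⟩ : ∃ c, c = w + t * w * t := ⟨_, rfl⟩
    have haJ : J1 L t a := by rw [ha]; exact htI.J hL hw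
    have hbJ : J1 L (-t) b := by rw [hb]; exact hntI.J hL hw
    have hcL : c ∈ L := by rw [hc]; exact L.add_mem hw (htI.conj hL.brk hw)
    have hct : t * c = c * t := by
      rw [hc, mul_add, add_mul, ← mul_assoc t (t * w), ← mul_assoc t t, htt, one_mul,
        mul_assoc (t * w) t t, htt, mul_one, add_comm]
    have hw4 : (4 : K) • w = a + b + (2 : K) • c := by
      have h4 : (4 : K) • w = w + w + w + w := by
        have : (4 : K) = 1 + 1 + 1 + 1 := by norm_num
        rw [this]; simp only [add_smul, one_smul]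
      rw [h4, ha, hb, hc, two_smul]; noncomm_ring
    have cj : Commute y j := hy' t ht j hj
    have ca : Commute y a := hy' t ht a haJ
    have cb : Commute y b := hy' _ hnt b hbJ
    have cc : Commute y (j * c - c * j) := hy' t ht _ (hj.brk0 hL hcL hct)
    -- y commutes with j w - w j
    have cw : Commute y (j * w - w * j) := by
      have e : j * w - w * j = (1/4 : K) • ((j * a - a * j) + (j * b - b * j)
          + (2 : K) • (j * c - c * j)) := by
        have e2 : (j * a - a * j) + (j * b - b * j) + (2 : K) • (j * c - c * j)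
            = j * (a + b + (2 : K) • c) - (a + b + (2 : K) • c) * j := by
          simp only [mul_add, add_mul, mul_smul_comm, smul_mul_assoc, smul_sub]; abel
        rw [e2, ← hw4, mul_smul_comm, smul_mul_assoc, ← smul_sub, smul_smul]; norm_num
      rw [e]
      exact ((((cj.mul_right ca).sub_right (ca.mul_right cj)).add_right
        ((cj.mul_right cb).sub_right (cb.mul_right cj))).add_right (cc.smul_right _)).smul_right _
    have hyj : y * j = j * y := cj
    have hyw : y * (j * w - w * j) = (j * w - w * j) * y := cw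
    have e : (w * y - y * w) * j - j * (w * y - y * w)
        = w * (y * j - j * y) - (y * j - j * y) * w + (y * (j * w - w * j) - (j * w - w * j) * y) := by
      noncomm_ring
    rw [hyj, hyw, sub_self, sub_self, mul_zero, zero_mul, sub_zero, add_zero] at e
    exact sub_eq_zero.mp e
  rcases S.sim Z (fun z hz => hz.1) hZ with h | h
  · exact hx0 (h x ⟨hx, hxJ⟩)
  · -- elements of degree one are central
    have hJ0 : ∀ t, (t = s ∨ t = -s) → ∀ z, J1 L t z → z = 0 := by
      intro t ht z hz
      refine S.cenL hz.mem ?_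
      intro y hy
      exact ((h y hy).2 t ht z hz).symm
    have hscen : ∀ y ∈ L, s * y = y * s := by
      intro y hy
      have h1 := hJ0 s (Or.inl rfl) _ (hI.J hL hy)
      have h2 := hJ0 (-s) (Or.inr rfl) _ (hnI.J hL hy)
      have e : (1 + s) * y * (1 - s) - (1 + -s) * y * (1 - -s) = (2 : K) • (s * y - y * s) := by
        rw [two_smul]; noncomm_ring
      rw [h1, h2, sub_zero] at e
      exact sub_eq_zero.mp ((smul_eq_zero.mp e.symm).resolve_left (by norm_num))
    have hs0 := S.cenL hI.sL (by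
      intro y hy
      rw [sub_mul, mul_sub, hscen y hy, smul_mul_assoc, mul_smul_comm, one_mul, mul_one])
    exact hsc κ (sub_eq_zero.mp hs0)

/-- Partners of elements of degree one. -/
theorem Inv.partner (hL : Good L) (hI : Inv L s κ) {e : Module.End K V}
    (he : J1 L s e) : ∃ f, J1 L (-s) f ∧ e * (f * e) = e := by
  obtain ⟨y, hy, hye⟩ := hL.reg he.mem (One.mul_zero_of he.xs he.sx)
  have h1 := hI.neg.J hL hy
  refine ⟨(1/4 : K) • ((1 + -s) * y * (1 - -s)), ⟨L.smul_mem _ h1.mem, ?_, ?_⟩, ?_⟩
  · rw [mul_smul_comm, h1.sx]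
  · rw [smul_mul_assoc, h1.xs, smul_neg]
  · have e1 : e * (1 + -s) = (2 : K) • e := by rw [mul_add, mul_one, mul_neg, he.xs, neg_neg, two_smul]
    have e2 : (1 - -s) * e = (2 : K) • e := by rw [sub_neg_eq_add, add_mul, one_mul, he.sx, two_smul]
    have e3 : e * ((1/4 : K) • ((1 + -s) * y * (1 - -s)) * e)
        = (1/4 : K) • ((e * (1 + -s)) * y * ((1 - -s) * e)) := by
      rw [smul_mul_assoc, mul_smul_comm]
      simp only [mul_assoc]
    rw [e3, e1, e2, smul_mul_assoc, smul_mul_assoc, mul_smul_comm, hye, smul_smul, smul_smul]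
    norm_num

/-- The data of a pair from an element of minimal rank. -/
theorem mkSDU (hL : Good L) (hI : Inv L s κ) {e f : Module.End K V}
    (he : J1 L s e) (hf : J1 L (-s) f) (h1 : e * (f * e) = e) (h2 : f * (e * f) = f) (e0 : e ≠ 0)
    (spl : ∀ a b, J1 L s a → J1 L s b → e * (f * a) = a → a * (f * e) = a → e * (f * b) = b →
      b * (f * e) = b → rk e = rk a + rk b → a = 0 ∨ b = 0) : SDU L s κ e f (e * f) (f * e) := by
  have hee : e * e = 0 := One.mul_zero_of he.xs he.sx
  have hff : f * f = 0 := One.mul_zero_of hf.xs hf.sx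
  have hJ : ∀ a ∈ L, e * (f * a) = a → a * (f * e) = a → J1 L s a := by
    intro a ha a1 a2
    refine ⟨ha, ?_, ?_⟩
    · nth_rewrite 1 [← a1]
      rw [← mul_assoc, he.sx, a1]
    · nth_rewrite 1 [← a2]
      rw [mul_assoc, mul_assoc, he.xs, mul_neg, mul_neg, a2]
  have MP : MinPair L e f :=
    { hE := he.mem
      hF := hf.mem
      EE := hee
      FF := hff
      EFE := h1
      FEF := h2
      E0 := e0
      spl := fun a ha b hb a1 a2 b1 b2 hab => spl a b (hJ a ha a1 a2) (hJ b hb b1 b2) a1 a2 b1 b2 hab }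
  exact
    { brk := hL.brk
      hE := he.mem
      hF := hf.mem
      EF := rfl
      FE := rfl
      EE := hee
      FF := hff
      pE := by rw [mul_assoc]; exact h1
      Eq := h1
      qF := by rw [mul_assoc]; exact h2
      Fp := h2
      top := fun a ha a1 a2 => MP.top hL ha (by rw [← mul_assoc]; exact a1) a2
      bot := fun a ha a1 a2 => MP.bot hL ha (by rw [← mul_assoc]; exact a1) a2
      hs := hI.sL
      ss := hI.ss
      sE := he.sx
      Es := he.xs
      sF := by
        have := hf.sx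
        rw [neg_mul] at this
        exact neg_eq_iff_eq_neg.mp this
      Fs := by
        have := hf.xs
        rw [mul_neg] at this
        exact neg_injective this }

end Pool.Agent.OU
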