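import Pool.Agent.Lib_helper48.OT.G10
import Pool.Agent.Lib_helper48.OU.U8

/-! All extremal elements have the same rank. -/

set_option linter.unusedSectionVars false
set_option linter.unusedSimpArgs false

namespace Pool.Agent.OU

open Module Pool.Agent.OT

variable {K : Type*} [Field K] [CharZero K] [IsAlgClosed K]
variable {V : Type*} [AddCommGroup V] [Module K V] [FiniteDimensional K V]
variable {L : Submodule K (Module.End K V)}
variable {s e e' : Module.End K V} {κ : K}

/-- Decomposition by s-degree. -/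
theorem Inv.dec (hL : Good L) (hI : Inv L s κ) {w : Module.End K V} (hw : w ∈ L) :
    ∃ a b c, J1 L s a ∧ J1 L (-s) b ∧ c ∈ L ∧ s * c = c * s ∧ w = a + b + c := by
  have hss := hI.ss
  refine ⟨(1/4 : K) • ((1 + s) * w * (1 - s)), (1/4 : K) • ((1 + -s) * w * (1 - -s)),
    (1/2 : K) • (w + s * w * s), (hI.J hL hw).smul _, (hI.neg.J hL hw).smul _,
    L.smul_mem _ (L.add_mem hw (hI.conj hL.brk hw)), ?_, ?_⟩
  · rw [mul_smul_comm, smul_mul_assoc]
    congr 1
    rw [mul_add, add_mul, ← mul_assoc s (s * w), ← mul_assoc s s, hss, one_mul,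
        mul_assoc (s * w) s s, hss, mul_one, add_comm]
  · have e : (1 + s) * w * (1 - s) + (1 + -s) * w * (1 - -s) = w + w - (s * w * s + s * w * s) := by
      noncomm_ring
    rw [← smul_add, e, ← two_smul K w, ← two_smul K (s * w * s)]
    module

/-- L is generated by the elements of s-degree one and minus one. -/
theorem SimU.genJ (S : SimU L) (hI : Inv L s κ) (hsc : ∀ c : K, s ≠ c • 1) (T : Submodule K (Module.End K V))
    (hTb : ∀ x ∈ T, ∀ y ∈ T, x * y - y * x ∈ T) (hT : ∀ j, J1 L s j ∨ J1 L (-s) j → j ∈ T) :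
    ∀ x ∈ L, x ∈ T := by
  have hL := S.good
  let Fam : Set (Submodule K (Module.End K V)) :=
    {B | (∀ j, J1 L s j ∨ J1 L (-s) j → j ∈ B) ∧
      ∀ j, J1 L s j ∨ J1 L (-s) j → ∀ b ∈ B, j * b - b * j ∈ B}
  let A : Submodule K (Module.End K V) := sInf Fam
  have Amin : ∀ B ∈ Fam, A ≤ B := fun B hB => sInf_le hB
  have AJ : ∀ j, J1 L s j ∨ J1 L (-s) j → j ∈ A := by
    intro j hj
    rw [Submodule.mem_sInf]
    intro B hB
    exact hB.1 j hj
  have AN : ∀ j, J1 L s j ∨ J1 L (-s) j → ∀ b ∈ A, j * b - b * j ∈ A := by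
    intro n hn b hb
    rw [Submodule.mem_sInf] at hb ⊢
    intro B hB
    exact hB.2 n hn b (hb B hB)
  have JL : ∀ j, J1 L s j ∨ J1 L (-s) j → j ∈ L := by
    rintro j (h | h)
    · exact h.mem
    · exact h.mem
  have AL : A ≤ L := Amin L ⟨JL, fun n hn b hb => hL.brk n (JL n hn) b hb⟩
  have AT : A ≤ T := Amin T ⟨hT, fun n hn b hb => hTb n (hT n hn) b hb⟩
  have J0 : ∀ z ∈ L, s * z = z * s → ∀ j, J1 L s j ∨ J1 L (-s) j →
      J1 L s (z * j - j * z) ∨ J1 L (-s) (z * j - j * z) := by
    rintro z hz hzs j (h | h)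
    · left
      rw [← neg_sub]; exact (h.brk0 hL hz hzs).neg
    · right
      rw [← neg_sub]; exact (h.brk0 hL hz (by rw [neg_mul, mul_neg, hzs])).neg
  let M : Submodule K (Module.End K V) :=
    { carrier := {a | a ∈ A ∧ ∀ z ∈ L, s * z = z * s → z * a - a * z ∈ A}
      zero_mem' := ⟨A.zero_mem, fun z _ _ => by rw [mul_zero, zero_mul, sub_zero]; exact A.zero_mem⟩
      add_mem' := by
        rintro a b ⟨ha, ha'⟩ ⟨hb, hb'⟩
        refine ⟨A.add_mem ha hb, fun z hz hzs => ?_⟩
        have : z * (a + b) - (a + b) * z = (z * a - a * z) + (z * b - b * z) := by noncomm_ring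
        rw [this]; exact A.add_mem (ha' z hz hzs) (hb' z hz hzs)
      smul_mem' := by
        rintro c a ⟨ha, ha'⟩
        refine ⟨A.smul_mem _ ha, fun z hz hzs => ?_⟩
        have : z * (c • a) - (c • a) * z = c • (z * a - a * z) := by
          rw [mul_smul_comm, smul_mul_assoc, smul_sub]
        rw [this]; exact A.smul_mem _ (ha' z hz hzs) }
  have AM : A ≤ M := by
    apply Amin
    refine ⟨?_, ?_⟩
    · intro j hj
      exact ⟨AJ j hj, fun z hz hzs => AJ _ (J0 z hz hzs j hj)⟩
    · rintro n hn a ⟨ha, ha'⟩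
      refine ⟨AN n hn a ha, ?_⟩
      intro z hz hzs
      have hj : z * (n * a - a * n) - (n * a - a * n) * z
          = ((z * n - n * z) * a - a * (z * n - n * z)) + (n * (z * a - a * z) - (z * a - a * z) * n) := by
        noncomm_ring
      rw [hj]
      exact A.add_mem (AN _ (J0 z hz hzs n hn) a ha) (AN n hn _ (ha' z hz hzs))
  have Aid : ∀ x ∈ L, ∀ a ∈ A, x * a - a * x ∈ A := by
    intro x hx a ha
    obtain ⟨j, j', c, h1, h2, h3, h4, rfl⟩ := hI.dec hL hx
    have e : (j + j' + c) * a - a * (j + j' + c)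
        = (j * a - a * j) + (j' * a - a * j') + (c * a - a * c) := by noncomm_ring
    rw [e]
    exact A.add_mem (A.add_mem (AN j (Or.inl h1) a ha) (AN j' (Or.inr h2) a ha)) ((AM ha).2 c h3 h4)
  rcases S.sim A (fun z hz => AL hz) Aid with h | h
  · -- no elements of degree one
    have hscen : ∀ y ∈ L, s * y = y * s := by
      intro y hy
      obtain ⟨j, j', c, h1, h2, h3, h4, rfl⟩ := hI.dec hL hy
      rw [h j (AJ j (Or.inl h1)), h j' (AJ j' (Or.inr h2)), zero_add, zero_add, h4]
    have hs0 := S.cenL hI.sL (by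
      intro y hy
      rw [sub_mul, mul_sub, hscen y hy, smul_mul_assoc, mul_smul_comm, one_mul, mul_one])
    exact absurd (sub_eq_zero.mp hs0) (hsc κ)
  · intro x hx
    exact AT (h x hx)

/-- All extremal elements have the same rank. -/
theorem SimU.rk_extr (S : SimU L) (hI : Inv L s κ) (hsc : ∀ c : K, s ≠ c • 1) (h : Extr L e) (h' : Extr L e') :
    rk e = rk e' := by
  have hL := S.good
  let I : Submodule K (Module.End K V) := Submodule.span K {f | Extr L f ∧ rk f = rk e}
  have IL : ∀ z ∈ I, z ∈ L := by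
    have : I ≤ L := by
      rw [Submodule.span_le]
      rintro f ⟨hf, -⟩
      exact hf.mem
    exact fun z hz => this hz
  -- stability under square zero elements
  have hsq : ∀ x ∈ L, x * x = 0 → ∀ z ∈ I, x * z - z * x ∈ I := by
    intro x hx hxx z hz
    induction hz using Submodule.span_induction with
    | mem f hf =>
      obtain ⟨hf, hr⟩ := hf
      have h1 := hf.conj hL hx hxx
      have h2 := hf.conj hL (L.neg_mem hx) (by rw [neg_mul_neg, hxx])
      have m1 : (1 + x) * f * (1 - x) ∈ I := Submodule.subset_span ⟨h1.1, by rw [h1.2, hr]⟩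
      have m2 : (1 + -x) * f * (1 - -x) ∈ I := Submodule.subset_span ⟨h2.1, by rw [h2.2, hr]⟩
      have e : x * f - f * x = (1/2 : K) • ((1 + x) * f * (1 - x) - (1 + -x) * f * (1 - -x)) := by
        have : (1 + x) * f * (1 - x) - (1 + -x) * f * (1 - -x) = (2 : K) • (x * f - f * x) := by
          rw [two_smul]; noncomm_ring
        rw [this, smul_smul]; norm_num
      rw [e]
      exact I.smul_mem _ (I.sub_mem m1 m2)
    | zero => rw [mul_zero, zero_mul, sub_zero]; exact I.zero_mem
    | add a b _ _ ha hb =>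
      have : x * (a + b) - (a + b) * x = (x * a - a * x) + (x * b - b * x) := by noncomm_ring
      rw [this]; exact I.add_mem ha hb
    | smul r a _ ha =>
      have : x * (r • a) - (r • a) * x = r • (x * a - a * x) := by
        rw [mul_smul_comm, smul_mul_assoc, smul_sub]
      rw [this]; exact I.smul_mem _ ha
  let T : Submodule K (Module.End K V) :=
    { carrier := {y | ∀ z ∈ I, y * z - z * y ∈ I}
      zero_mem' := fun z _ => by rw [mul_zero, zero_mul, sub_zero]; exact I.zero_mem
      add_mem' := by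
        intro a b ha hb z hz
        have : (a + b) * z - z * (a + b) = (a * z - z * a) + (b * z - z * b) := by noncomm_ring
        rw [this]; exact I.add_mem (ha z hz) (hb z hz)
      smul_mem' := by
        intro c a ha z hz
        have : (c • a) * z - z * (c • a) = c • (a * z - z * a) := by
          rw [mul_smul_comm, smul_mul_assoc, smul_sub]
        rw [this]; exact I.smul_mem _ (ha z hz) }
  have hT : ∀ x ∈ L, x ∈ T := by
    refine S.genJ hI hsc T ?_ ?_
    · intro x hx y hy z hz
      have : (x * y - y * x) * z - z * (x * y - y * x)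
          = (x * (y * z - z * y) - (y * z - z * y) * x) - (y * (x * z - z * x) - (x * z - z * x) * y) := by
        noncomm_ring
      rw [this]
      exact I.sub_mem (hx _ (hy z hz)) (hy _ (hx z hz))
    · rintro j (hj | hj) z hz
      · exact hsq j hj.mem (One.mul_zero_of hj.xs hj.sx) z hz
      · exact hsq j hj.mem (One.mul_zero_of hj.xs hj.sx) z hz
  have heI : e ∈ I := Submodule.subset_span ⟨h, rfl⟩
  rcases S.sim I IL (fun x hx z hz => hT x hx z hz) with h0 | h0
  · exact absurd (h0 e heI) h.ne
  · by_contra hne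
    apply h'.ne
    refine hL.nd e' h'.mem ?_
    intro y hy
    have hy' := h0 y hy
    clear hy
    induction hy' using Submodule.span_induction with
    | mem f hf =>
      obtain ⟨hf, hr⟩ := hf
      by_contra ht
      exact hne (by rw [← hr]; exact (h'.rk_eq hf ht).symm)
    | zero => rw [mul_zero, map_zero]
    | add a b _ _ ha hb => rw [mul_add, map_add, ha, hb, add_zero]
    | smul r a _ ha => rw [mul_smul_comm, map_smul, ha, smul_zero]

end Pool.Agent.OU
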