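import Pool.Agent.Lib_helper48.OU.U10
import Pool.Agent.Lib_helper48.OT.H1

/-! The case of no second pair, in full. -/

set_option linter.unusedSectionVars false
set_option linter.unusedSimpArgs false

namespace Pool.Agent.OU

open Module Pool.Agent.OT

variable {K : Type*} [Field K] [CharZero K] [IsAlgClosed K]
variable {V : Type*} [AddCommGroup V] [Module K V] [FiniteDimensional K V]
variable {L : Submodule K (Module.End K V)}
variable {E F p q s : Module.End K V} {κ : K}

/-- No second pair: the dimensions are those of an exterior power. -/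
theorem SimU.caseA_full (S : SimU L) (D : SDU L s κ E F p q) (E0 : E ≠ 0)
    (hA : ∀ z ∈ L, s * z = -z → z * s = z → q * z = 0 → z * p = 0 → z = 0) :
    ∃ m k, k ≤ m ∧ rk E = m.choose k ∧
      finrank K V = (m + 1).choose (k + 1) + (m + 1).choose k ∧
      LinearMap.trace K V s = ((m + 1).choose (k + 1) : K) - ((m + 1).choose k : K) := by
  classical
  obtain ⟨r, hr⟩ : ∃ r : K, r = (rk E : K) := ⟨_, rfl⟩
  have hr0 : r ≠ 0 := by rw [hr]; exact D.r0 E0
  -- the two halves of degree one
  let X : Submodule K (Module.End K V) :=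
    { carrier := {x | T1 L p q x ∧ s * x = x ∧ x * s = -x}
      zero_mem' := ⟨T1.zero, by simp, by simp⟩
      add_mem' := by
        rintro a b ⟨ha, ha1, ha2⟩ ⟨hb, hb1, hb2⟩
        exact ⟨ha.add hb, by rw [mul_add, ha1, hb1], by rw [add_mul, ha2, hb2, neg_add]⟩
      smul_mem' := by
        rintro c a ⟨ha, ha1, ha2⟩
        exact ⟨ha.smul c, by rw [mul_smul_comm, ha1], by rw [smul_mul_assoc, ha2, smul_neg]⟩ }
  let Y : Submodule K (Module.End K V) :=
    { carrier := {x | T1 L p q x ∧ s * x = x * s}
      zero_mem' := ⟨T1.zero, by simp⟩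
      add_mem' := by
        rintro a b ⟨ha, ha1⟩ ⟨hb, hb1⟩
        exact ⟨ha.add hb, by rw [mul_add, add_mul, ha1, hb1]⟩
      smul_mem' := by
        rintro c a ⟨ha, ha1⟩
        exact ⟨ha.smul c, by rw [mul_smul_comm, smul_mul_assoc, ha1]⟩ }
  have XX : ∀ x ∈ X, ∀ x' ∈ X, x * x' = 0 := by
    rintro x ⟨hx, hx1, hx2⟩ x' ⟨hx', hx1', hx2'⟩
    exact One.mul_zero_of hx2 hx1'
  have YY : ∀ y ∈ Y, ∀ y' ∈ Y, y * y' = 0 := by
    rintro y ⟨hy, hy1⟩ y' ⟨hy', hy1'⟩
    have e1 : p * (y * y') = y * y' := by
      rw [← mul_assoc, hy.px, sub_mul, mul_assoc y q, hy'.qx, mul_zero, sub_zero]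
    have e2 : (y * y') * q = y * y' := by
      rw [mul_assoc, hy'.xq, mul_sub, ← mul_assoc y p, hy.xp, zero_mul, sub_zero]
    have e3 : s * (y * y') = y * y' := by
      rw [← e1, ← mul_assoc, D.sp]
    have e4 : (y * y') * s = -(y * y') := by
      rw [← e2, mul_assoc, D.qs, mul_neg]
    have e5 : s * (y * y') = (y * y') * s := by
      rw [← mul_assoc, hy1, mul_assoc, hy1', mul_assoc]
    rw [e3, e4] at e5
    exact zero_of_eq_neg e5
  have pXX : ∀ x ∈ X, ∀ x' ∈ X, pr F r x x' = 0 := by
    intro x hx x' hx'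
    rw [pr_def, XX x hx x' hx', XX x' hx' x hx, sub_zero, mul_zero, map_zero, zero_div]
  have pYY : ∀ x ∈ Y, ∀ x' ∈ Y, pr F r x x' = 0 := by
    intro x hx x' hx'
    rw [pr_def, YY x hx x' hx', YY x' hx' x hx, sub_zero, mul_zero, map_zero, zero_div]
  have dec : ∀ t, T1 L p q t → ∃ x ∈ X, ∃ y ∈ Y, t = x + y := by
    intro t ht
    obtain ⟨x, y, h1, h2, h3, h4, h5, h6⟩ := D.spl ht
    exact ⟨x, ⟨h1, h2, h3⟩, y, ⟨h4, h5⟩, h6⟩
  obtain ⟨n, x, y, hx, hy, hxy, hX, hY⟩ := dualBases (pr F r) X Y
    (by
      intro x hx h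
      refine T1.nd S.good D.toTri E0 hx.1 ?_
      intro t ht
      obtain ⟨a, ha, b, hb, rfl⟩ := dec t ht
      rw [map_add, ← hr, pXX x hx a ha, h b hb, add_zero])
    (by
      intro y hy h
      refine T1.nd S.good D.toTri E0 hy.1 ?_
      intro t ht
      obtain ⟨a, ha, b, hb, rfl⟩ := dec t ht
      rw [map_add, ← hr, pYY y hy b hb, pr_skew, h a ha, neg_zero, add_zero])
  -- relation from the absence of a second pair
  have yFy : ∀ a ∈ Y, ∀ b ∈ Y, a * F * b + b * F * a = 0 := by
    intro a ha b hb
    refine hA _ ?_ ?_ ?_ ?_ ?_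
    · have e : a * F * b + b * F * a = (a * b) * F + F * (b * a)
          - (a * (b * F - F * b) - (b * F - F * b) * a) := by noncomm_ring
      rw [e, YY a ha b hb, YY b hb a ha, zero_mul, mul_zero, add_zero, zero_sub]
      exact L.neg_mem (D.brk a ha.1.mem _ (D.brk b hb.1.mem F D.hF))
    · have e : s * (a * F * b + b * F * a) = (s * a) * F * b + (s * b) * F * a := by noncomm_ring
      rw [e, ha.2, hb.2, mul_assoc a s F, mul_assoc b s F, D.sF]
      noncomm_ring
    · have e : (a * F * b + b * F * a) * s = a * F * (b * s) + b * F * (a * s) := by noncomm_ring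
      rw [e, ← ha.2, ← hb.2, ← mul_assoc (a * F), ← mul_assoc (b * F), mul_assoc a F s,
        mul_assoc b F s, D.Fs]
    · have e : q * (a * F * b + b * F * a) = (q * a) * F * b + (q * b) * F * a := by noncomm_ring
      rw [e, ha.1.qx, hb.1.qx]; simp
    · have e : (a * F * b + b * F * a) * p = a * F * (b * p) + b * F * (a * p) := by noncomm_ring
      rw [e, ha.1.xp, hb.1.xp]; simp
  have key : ∀ a ∈ Y, ∀ b ∈ Y, ∀ c ∈ X, a * (F * (c * b)) + b * (F * (c * a))
      = pr F r c b • (a * q) + pr F r c a • (b * q) := by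
    intro a ha b hb c hc
    have e1 : c * b = b * c + pr F r c b • E := by
      rw [hr, ← hc.1.brk_eq D.toTri E0 hb.1]; abel
    have e2 : c * a = a * c + pr F r c a • E := by
      rw [hr, ← hc.1.brk_eq D.toTri E0 ha.1]; abel
    have e3 : a * (F * (c * b)) + b * (F * (c * a)) = (a * F * b + b * F * a) * c
        + (pr F r c b • (a * (F * E)) + pr F r c a • (b * (F * E))) := by
      rw [e1, e2]
      simp only [mul_add, mul_smul_comm, add_mul, mul_assoc]
      abel
    rw [e3, yFy a ha b hb, zero_mul, zero_add, D.FE]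
  obtain ⟨Θ, hΘ⟩ : ∃ Θ, Θ = ∑ i, F * (x i * y i) := ⟨_, rfl⟩
  obtain ⟨Ψ, hΨ⟩ : ∃ Ψ, Ψ = ∑ i, y i * (F * x i) := ⟨_, rfl⟩
  have tΨ : LinearMap.trace K V Ψ = LinearMap.trace K V Θ := by
    rw [hΨ, hΘ, map_sum, map_sum]
    refine Finset.sum_congr rfl (fun i _ => ?_)
    rw [LinearMap.trace_mul_comm, mul_assoc]
  -- Θ commutes with degree zero elements commuting with s
  have hcomm : ∀ z, T0 L p q z → s * z = z * s → z * Θ = Θ * z := by
    intro z hz hzs
    obtain ⟨c, hc1, hc2⟩ := D.toTri.brkEF E0 hz
    have zX : ∀ a ∈ X, z * a - a * z ∈ X := by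
      rintro a ⟨ha, ha1, ha2⟩
      refine ⟨hz.brk1 D.brk ha, ?_, ?_⟩
      · rw [mul_sub, ← mul_assoc, hzs, mul_assoc, ha1, ← mul_assoc, ha1]
      · rw [sub_mul, mul_assoc, ha2, mul_assoc, ← hzs, ← mul_assoc a s z, ha2]
        noncomm_ring
    have zY : ∀ a ∈ Y, z * a - a * z ∈ Y := by
      rintro a ⟨ha, ha1⟩
      refine ⟨hz.brk1 D.brk ha, ?_⟩
      have c1 : Commute s z := hzs
      have c2 : Commute s a := ha1
      exact ((c1.mul_right c2).sub_right (c2.mul_right c1)).eq
    have e0 : z * Θ - Θ * z = (-c) • Θ + (∑ i, F * ((z * x i - x i * z) * y i)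
        + ∑ i, F * (x i * (z * y i - y i * z))) := by
      rw [hΘ, Finset.mul_sum, Finset.sum_mul, Finset.smul_sum, ← Finset.sum_sub_distrib,
        ← Finset.sum_add_distrib, ← Finset.sum_add_distrib]
      refine Finset.sum_congr rfl (fun i _ => ?_)
      have : z * (F * (x i * y i)) - F * (x i * y i) * z = (z * F - F * z) * (x i * y i)
          + (F * ((z * x i - x i * z) * y i) + F * (x i * (z * y i - y i * z))) := by noncomm_ring
      rw [this, hc2, smul_mul_assoc]
    have e1 : ∑ i, F * ((z * x i - x i * z) * y i)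
        = ∑ i, ∑ j, pr F r (z * x i - x i * z) (y j) • (F * (x j * y i)) := by
      refine Finset.sum_congr rfl (fun i _ => ?_)
      conv_lhs => rw [hX _ (zX _ (hx i))]
      rw [Finset.sum_mul, Finset.mul_sum]
      refine Finset.sum_congr rfl (fun j _ => ?_)
      rw [smul_mul_assoc, mul_smul_comm]
    have e2 : ∑ j, F * (x j * (z * y j - y j * z))
        = ∑ i, ∑ j, pr F r (x i) (z * y j - y j * z) • (F * (x j * y i)) := by
      rw [Finset.sum_comm]
      refine Finset.sum_congr rfl (fun j _ => ?_)
      conv_lhs => rw [hY _ (zY _ (hy j))]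
      rw [Finset.mul_sum, Finset.mul_sum]
      refine Finset.sum_congr rfl (fun i _ => ?_)
      rw [mul_smul_comm, mul_smul_comm]
    have e3 : ∑ i, F * ((z * x i - x i * z) * y i) + ∑ i, F * (x i * (z * y i - y i * z))
        = c • Θ := by
      rw [e1, e2, ← Finset.sum_add_distrib, hΘ, Finset.smul_sum]
      refine Finset.sum_congr rfl (fun i _ => ?_)
      rw [← Finset.sum_add_distrib, Finset.sum_eq_single i]
      · rw [← add_smul, hr, (hx i).1.inv D.toTri E0 (hy i).1 hz hc1, ← hr, hxy i i, if_pos rfl, mul_one]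
      · intro j _ hji
        rw [← add_smul, hr, (hx i).1.inv D.toTri E0 (hy j).1 hz hc1, ← hr, hxy i j,
          if_neg (fun h => hji h.symm), mul_zero, zero_smul]
      · intro h; exact absurd (Finset.mem_univ i) h
    rw [e3, ← add_smul, neg_add_cancel, zero_smul, sub_eq_zero] at e0
    exact e0
  -- F a b on the range of q for a in X, b in Y
  have zab : ∀ a ∈ X, ∀ b ∈ Y, ∃ z, T0 L p q z ∧ s * z = z * s ∧ ∀ u, q u = u → z u = F (a (b u)) := by
    rintro a ⟨ha, ha1, ha2⟩ b ⟨hb, hb1⟩
    have hw := D.gF ha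
    refine ⟨(F * a - a * F) * b - b * (F * a - a * F), ?_, ?_, ?_⟩
    · exact hb.brk D.brk hw
    · have e1 : s * (F * a - a * F) = (F * a - a * F) * s := by
        have a1 : s * (F * a - a * F) = (s * F) * a - (s * a) * F := by noncomm_ring
        have a2 : (F * a - a * F) * s = F * (a * s) - a * (F * s) := by noncomm_ring
        rw [a1, a2, D.sF, D.Fs, ha1, ha2]; noncomm_ring
      have c1 : Commute s (F * a - a * F) := e1
      have c2 : Commute s b := hb1
      exact ((c1.mul_right c2).sub_right (c2.mul_right c1)).eq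
    · intro u hu
      have f1 : F u = 0 := by rw [← hu]; exact LinearMap.congr_fun D.Fq u
      have f2 : ∀ c, T1 L p q c → F (c u) = 0 := by
        intro c hc
        have g1 : F (p (c u)) = F (c u) := LinearMap.congr_fun D.Fp (c u)
        have g2 : p (c u) = c u - c (q u) := LinearMap.congr_fun hc.px u
        rw [hu, sub_self] at g2
        rw [← g1, g2, map_zero]
      simp only [LinearMap.sub_apply, Module.End.mul_apply, map_sub, f1, f2 b hb, f2 a ha, map_zero,
        sub_zero]
  -- an eigenvector of Θ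
  obtain ⟨θ, hθ⟩ : ∃ θ : K, ∀ v, Θ (q v) = θ • q v := by
    let U := LinearMap.range q
    have hU : Nontrivial U := by
      rw [Submodule.nontrivial_iff_ne_bot]
      intro h
      apply E0
      rw [← D.Eq, LinearMap.range_eq_bot.mp h, mul_zero]
    have ΘU : ∀ v ∈ U, Θ v ∈ U := by
      intro v _
      refine ⟨Θ v, ?_⟩
      have : q * Θ = Θ := by
        rw [hΘ, Finset.mul_sum]
        refine Finset.sum_congr rfl (fun i _ => ?_)
        rw [← mul_assoc, D.qF]
      exact LinearMap.congr_fun this v
    obtain ⟨θ, hθ⟩ := Module.End.exists_eigenvalue (Θ.restrict ΘU)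
    obtain ⟨u, hu⟩ := hθ.exists_hasEigenvector
    have hu1 := hu.apply_eq_smul
    have hu0 : (u : V) ≠ 0 := fun h => hu.2 (Subtype.ext h)
    have hqu : q (u : V) = u := by
      obtain ⟨v, hv⟩ := u.2
      rw [← hv]; exact LinearMap.congr_fun D.qq v
    have hu2 : Θ (u : V) = θ • (u : V) := congrArg Subtype.val hu1
    let U' : Submodule K V :=
      { carrier := {v | q v = v ∧ Θ v = θ • v}
        zero_mem' := ⟨map_zero _, by rw [map_zero, smul_zero]⟩
        add_mem' := by
          rintro a b ⟨ha, ha'⟩ ⟨hb, hb'⟩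
          exact ⟨by rw [map_add, ha, hb], by rw [map_add, ha', hb', smul_add]⟩
        smul_mem' := by
          rintro c a ⟨ha, ha'⟩
          exact ⟨by rw [map_smul, ha], by rw [map_smul, ha', smul_comm]⟩ }
    have hst : ∀ t t', T1 L p q t → T1 L p q t' → ∀ u ∈ U', F (t (t' u)) ∈ U' := by
      intro t t' ht ht' u hu
      obtain ⟨a, ha, b, hb, rfl⟩ := dec t ht
      obtain ⟨a', ha', b', hb', rfl⟩ := dec t' ht'
      have st : ∀ a ∈ X, ∀ b ∈ Y, F (a (b u)) ∈ U' := by
        intro a ha b hb
        obtain ⟨z, hz1, hz2, hz3⟩ := zab a ha b hb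
        refine ⟨LinearMap.congr_fun D.qF _, ?_⟩
        rw [← hz3 u hu.1]
        have : z (Θ u) = Θ (z u) := LinearMap.congr_fun (hcomm z hz1 hz2) u
        rw [← this, hu.2, map_smul]
      have g1 : a (a' u) = 0 := LinearMap.congr_fun (XX a ha a' ha') u
      have g2 : b (b' u) = 0 := LinearMap.congr_fun (YY b hb b' hb') u
      have g3 : b (a' u) = a' (b u) - pr F r a' b • E u := by
        have := LinearMap.congr_fun (ha'.1.brk_eq D.toTri E0 hb.1) u
        rw [LinearMap.sub_apply, LinearMap.smul_apply, Module.End.mul_apply, Module.End.mul_apply,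
          ← hr] at this
        rw [← this]; abel
      have g4 : F (E u) = u := by
        have : F (E u) = q u := LinearMap.congr_fun D.FE u
        rw [this, hu.1]
      have e : F ((a + b) ((a' + b') u)) = F (a (b' u)) + F (a' (b u)) - pr F r a' b • u := by
        simp only [LinearMap.add_apply, map_add, g1, g2, g3, map_sub, map_smul, g4, zero_add, add_zero]
        abel
      rw [e]
      exact U'.sub_mem (U'.add_mem (st a ha b' hb') (st a' ha' b hb)) (U'.smul_mem _ hu)
    have hall := S.irrU D.toTri E0 U' (fun u hu => hu.1) hst (u₀ := (u : V)) ⟨hqu, hu2⟩ hu0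
    exact ⟨θ, fun v => (hall v).2⟩
  have hΘq : Θ * q = θ • q := by ext v; exact hθ v
  have qΘ : q * Θ = Θ := by
    rw [hΘ, Finset.mul_sum]
    refine Finset.sum_congr rfl (fun i _ => ?_)
    rw [← mul_assoc, D.qF]
  have tΘ : LinearMap.trace K V Θ = θ * r := by
    have h1 : LinearMap.trace K V (Θ * q) = LinearMap.trace K V Θ := by
      rw [LinearMap.trace_mul_comm, qΘ]
    rw [← h1, hΘq, map_smul, D.toTri.trq, ← hr, smul_eq_mul]
  -- Ψ on b u
  have hΨb : ∀ b ∈ Y, ∀ u, q u = u → Ψ (b u) = (1 + (n : K) - θ) • b u := by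
    intro b hb u hu
    have h1 : Ψ * b + b * Θ = b * q + (n : K) • (b * q) := by
      have e1 : Ψ * b + b * Θ = ∑ i, (y i * (F * (x i * b)) + b * (F * (x i * y i))) := by
        rw [hΨ, hΘ, Finset.sum_mul, Finset.mul_sum, Finset.sum_add_distrib]
        simp only [mul_assoc]
      have e2 : ∑ i, (y i * (F * (x i * b)) + b * (F * (x i * y i)))
          = ∑ i, (pr F r (x i) b • (y i * q) + b * q) := by
        refine Finset.sum_congr rfl (fun i _ => ?_)
        rw [key (y i) (hy i) b hb (x i) (hx i), hxy i i, if_pos rfl, one_smul]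
      have e3 : ∑ i, pr F r (x i) b • (y i * q) = b * q := by
        conv_rhs => rw [hY b hb]
        rw [Finset.sum_mul]
        simp only [smul_mul_assoc]
      rw [e1, e2, Finset.sum_add_distrib, e3, Finset.sum_const, Finset.card_univ, Fintype.card_fin,
        ← Nat.cast_smul_eq_nsmul K]
    have h2 := LinearMap.congr_fun h1 u
    simp only [LinearMap.add_apply, LinearMap.smul_apply, Module.End.mul_apply, hu] at h2
    have h3 : Θ u = θ • u := by
      have := hθ u
      rw [hu] at this
      exact this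
    rw [h3, map_smul] at h2
    have h4 : Ψ (b u) = (b u + (n : K) • b u) - θ • b u := by rw [← h2]; abel
    rw [h4]
    module
  -- the projection to the middle part of the minus eigenspace
  obtain ⟨P, hP⟩ : ∃ P : Module.End K V, P = (1/2 : K) • (1 - s) := ⟨_, rfl⟩
  have Pp : P * p = 0 := by rw [hP, smul_mul_assoc, sub_mul, one_mul, D.sp, sub_self, smul_zero]
  have qP : q * P = q := by
    rw [hP, mul_smul_comm, mul_sub, mul_one, D.qs]; module
  have Pq : P * q = q := by
    rw [hP, smul_mul_assoc, sub_mul, one_mul, D.sq]; module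
  have pP : p * P = 0 := by rw [hP, mul_smul_comm, mul_sub, mul_one, D.ps, sub_self, smul_zero]
  obtain ⟨e, he⟩ : ∃ e : Module.End K V, e = P - q := ⟨_, rfl⟩
  have he2 : e = P * (1 - p - q) := by rw [he, mul_sub, mul_sub, mul_one, Pp, Pq]; abel
  have hΨe : Ψ * e = (1 + (n : K) - θ) • e := by
    ext v
    have h1 := S.mid D.toTri E0 v
    have h2 : ∀ w ∈ TU L p q (LinearMap.range q), Ψ (P w) = (1 + (n : K) - θ) • P w := by
      intro w hw
      rw [TU] at hw
      induction hw using Submodule.span_induction with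
      | mem w hw =>
        obtain ⟨t, u, ht, hu, rfl⟩ := hw
        have hqu : q u = u := by
          obtain ⟨v, rfl⟩ := hu
          exact LinearMap.congr_fun D.qq v
        obtain ⟨a, ha, b, hb, rfl⟩ := dec t ht
        have g1 : P (a u) = 0 := by
          have : P * a = 0 := by rw [hP, smul_mul_assoc, sub_mul, one_mul, ha.2.1, sub_self, smul_zero]
          exact LinearMap.congr_fun this u
        have g2 : P (b u) = b u := by
          have h3 : P * b = b * P := by rw [hP, smul_mul_assoc, mul_smul_comm, sub_mul, mul_sub, hb.2, one_mul, mul_one]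
          have h4 : P (b u) = b (P u) := LinearMap.congr_fun h3 u
          have h5 : P u = u := by
            rw [← hqu]; exact LinearMap.congr_fun Pq u
          rw [h4, h5]
        rw [LinearMap.add_apply, map_add, g1, g2, zero_add]
        exact hΨb b hb u hqu
      | zero => simp only [map_zero, smul_zero]
      | add a b _ _ ha hb => rw [map_add, map_add, ha, hb, smul_add]
      | smul c a _ ha => rw [map_smul, map_smul, ha, smul_comm]
    have h3 := h2 _ h1
    have h4 : P (v - p v - q v) = e v := by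
      rw [he2]; simp only [Module.End.mul_apply, LinearMap.sub_apply, Module.End.one_apply]
    rw [h4] at h3
    exact h3
  have Ψe : Ψ * e = Ψ := by
    rw [hΨ, Finset.sum_mul]
    refine Finset.sum_congr rfl (fun i _ => ?_)
    have h1 : x i * P = x i := by
      rw [hP, mul_smul_comm, mul_sub, mul_one, (hx i).2.2]; module
    have h2 : F * (x i * q) = 0 := by
      have g : p * (x i * q) = 0 := by
        rw [← mul_assoc, (hx i).1.px, sub_mul, mul_assoc, D.toTri.qq, sub_self]
      rw [← D.Fp, mul_assoc, g, mul_zero]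
    rw [he, mul_assoc, mul_assoc, mul_sub, h1, mul_sub, h2, sub_zero]
  have te : LinearMap.trace K V e = ((finrank K V : K) - LinearMap.trace K V s) / 2 - r := by
    rw [he, map_sub, hP, map_smul, map_sub, LinearMap.trace_one, D.toTri.trq, ← hr,
      smul_eq_mul]
    ring
  have hfin : θ * r = (1 + (n : K) - θ) * (((finrank K V : K) - LinearMap.trace K V s) / 2 - r) := by
    rw [← tΘ, ← tΨ, ← te, ← smul_eq_mul, ← map_smul, ← hΨe, Ψe]
  -- no second pair on the other side
  have hA' : ∀ z, J1 L s z → p * z = 0 → z * q = 0 → z = 0 := by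
    intro z hz hpz hzq
    obtain ⟨w, hw, hwz⟩ := Inv.partner S.good D.inv hz
    have sw : s * w = -w := by
      have := hw.sx
      rw [neg_mul] at this
      exact neg_eq_iff_eq_neg.mp this
    have ws : w * s = w := by
      have := hw.xs
      rw [mul_neg] at this
      exact neg_injective this
    have pw : p * w = 0 := by
      apply zero_of_eq_neg
      nth_rewrite 1 [← D.ps]
      rw [mul_assoc, sw, mul_neg]
    have wq : w * q = 0 := by
      apply zero_of_eq_neg
      nth_rewrite 1 [← ws]
      rw [mul_assoc, D.sq, mul_neg]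
    have qz : q * z = 0 := by
      apply zero_of_eq_neg
      nth_rewrite 1 [← hz.sx]
      rw [← mul_assoc, D.qs, neg_mul]
    have zp : z * p = 0 := by
      apply zero_of_eq_neg
      nth_rewrite 1 [← D.sp]
      rw [← mul_assoc, hz.xs, neg_mul]
    obtain ⟨o, ho⟩ : ∃ o, o = 1 - p - q := ⟨_, rfl⟩
    have hpp := D.toTri.pp
    have hqq := D.toTri.qq
    have hpq := D.toTri.pq
    have hqp := D.toTri.qp
    have hop : o * p = 0 := by rw [ho]; simp only [sub_mul, one_mul, hpp, hqp]; abel
    have hqo : q * o = 0 := by rw [ho]; simp only [mul_sub, mul_one, hqq, hqp]; abel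
    have so : s * o = o * s := by
      rw [ho, mul_sub, mul_sub, sub_mul, sub_mul, D.sp, D.ps, D.sq, D.qs, mul_one, one_mul]
    have hc := (comp_pq S.good.brk hpp hqq hpq hqp ho D.toTri.hH hw.mem).2.2.1
    have e1 : p * w * p + o * w * o + q * w * q = o * w * o := by
      rw [pw, zero_mul, zero_add, mul_assoc q w q, wq, mul_zero, add_zero]
    rw [e1] at hc
    have oz : o * z = z := by rw [ho, sub_mul, sub_mul, one_mul, hpz, qz, sub_zero, sub_zero]
    have zo : z * o = z := by rw [ho, mul_sub, mul_sub, mul_one, zp, hzq, sub_zero, sub_zero]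
    have h0 := hA _ hc
      (by rw [← mul_assoc, ← mul_assoc, so, mul_assoc o s w, sw]; noncomm_ring)
      (by rw [mul_assoc, ← so, ← mul_assoc, mul_assoc o w s, ws])
      (by rw [← mul_assoc, ← mul_assoc, hqo, zero_mul, zero_mul])
      (by rw [mul_assoc, hop, mul_zero])
    have e2 : z * (w * z) = z * ((o * w * o) * z) := by
      nth_rewrite 1 [← zo]
      nth_rewrite 2 [← oz]
      simp only [mul_assoc]
    rw [← hwz, e2, h0, zero_mul, mul_zero]
  have xFx : ∀ a ∈ X, ∀ b ∈ X, a * F * b + b * F * a = 0 := by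
    intro a ha b hb
    refine hA' _ ⟨?_, ?_, ?_⟩ ?_ ?_
    · have e : a * F * b + b * F * a = (a * b) * F + F * (b * a)
          - (a * (b * F - F * b) - (b * F - F * b) * a) := by noncomm_ring
      rw [e, XX a ha b hb, XX b hb a ha, zero_mul, mul_zero, add_zero, zero_sub]
      exact L.neg_mem (D.brk a ha.1.mem _ (D.brk b hb.1.mem F D.hF))
    · have e : s * (a * F * b + b * F * a) = (s * a) * F * b + (s * b) * F * a := by noncomm_ring
      rw [e, ha.2.1, hb.2.1]
    · have e : (a * F * b + b * F * a) * s = a * F * (b * s) + b * F * (a * s) := by noncomm_ring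
      rw [e, ha.2.2, hb.2.2]; noncomm_ring
    · have e : p * (a * F * b + b * F * a) = (p * a) * F * b + (p * b) * F * a := by noncomm_ring
      have g : ∀ c ∈ X, (p * c) * F = 0 := by
        intro c hc
        rw [hc.1.px, sub_mul, mul_assoc, D.qF, sub_self]
      rw [e, g a ha, g b hb]; simp
    · have e : (a * F * b + b * F * a) * q = a * (F * (b * q)) + b * (F * (a * q)) := by noncomm_ring
      rw [e, hb.1.Fq D.toTri, ha.1.Fq D.toTri, mul_zero, mul_zero, add_zero]
  -- the middle part of the plus eigenspace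
  obtain ⟨Ψ', hΨ'⟩ : ∃ Ψ', Ψ' = ∑ i, x i * (F * y i) := ⟨_, rfl⟩
  have hFEu : ∀ u, q u = u → F (E u) = u := by
    intro u hu
    have : F (E u) = q u := LinearMap.congr_fun D.FE u
    rw [this, hu]
  have hΨ'a : ∀ a ∈ X, ∀ u, q u = u → Ψ' (a u) = (-(θ + 1)) • a u := by
    intro a ha u hu
    have h3 : Θ u = θ • u := by
      have := hθ u
      rw [hu] at this
      exact this
    have h4 : ∀ i, (x i * (F * y i)) (a u) = -(a (F (x i (y i u)))) - pr F r a (y i) • x i u := by
      intro i
      have e1 : y i (a u) = a (y i u) - pr F r a (y i) • E u := by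
        have := LinearMap.congr_fun (ha.1.brk_eq D.toTri E0 (hy i).1) u
        rw [LinearMap.sub_apply, LinearMap.smul_apply, Module.End.mul_apply, Module.End.mul_apply,
          ← hr] at this
        rw [← this]; abel
      have e2 : x i (F (a (y i u))) = -(a (F (x i (y i u)))) := by
        have := LinearMap.congr_fun (xFx (x i) (hx i) a ha) (y i u)
        exact eq_neg_of_add_eq_zero_left this
      show x i (F (y i (a u))) = _
      rw [e1, map_sub, map_sub, e2, map_smul, map_smul, hFEu u hu]
    have h5 : Ψ' (a u) = -(a (Θ u)) - a u := by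
      rw [hΨ', LinearMap.sum_apply, Finset.sum_congr rfl (fun i _ => h4 i), Finset.sum_sub_distrib,
        Finset.sum_neg_distrib, ← map_sum]
      have e1 : ∑ i, pr F r a (y i) • x i u = a u := by
        conv_rhs => rw [hX a ha]
        rw [LinearMap.sum_apply]
        simp only [LinearMap.smul_apply]
      have e2 : ∑ i, F (x i (y i u)) = Θ u := by
        rw [hΘ, LinearMap.sum_apply]; rfl
      rw [e1, e2]
    rw [h5, h3, map_smul]
    module
  obtain ⟨Q, hQ⟩ : ∃ Q : Module.End K V, Q = (1/2 : K) • (1 + s) := ⟨_, rfl⟩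
  have Qp : Q * p = p := by
    rw [hQ, smul_mul_assoc, add_mul, one_mul, D.sp]; module
  have QmulZ : Q * q = 0 := by rw [hQ, smul_mul_assoc, add_mul, one_mul, D.sq, add_neg_cancel, smul_zero]
  obtain ⟨e', he'⟩ : ∃ e' : Module.End K V, e' = Q - p := ⟨_, rfl⟩
  have he2' : e' = Q * (1 - p - q) := by rw [he', mul_sub, mul_sub, mul_one, Qp, QmulZ]; abel
  have hΨe' : Ψ' * e' = (-(θ + 1)) • e' := by
    ext v
    have h1 := S.mid D.toTri E0 v
    have h2 : ∀ w ∈ TU L p q (LinearMap.range q), Ψ' (Q w) = (-(θ + 1)) • Q w := by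
      intro w hw
      rw [TU] at hw
      induction hw using Submodule.span_induction with
      | mem w hw =>
        obtain ⟨t, u, ht, hu, rfl⟩ := hw
        have hqu : q u = u := by
          obtain ⟨v, rfl⟩ := hu
          exact LinearMap.congr_fun D.qq v
        obtain ⟨a, ha, b, hb, rfl⟩ := dec t ht
        have g1 : Q (b u) = 0 := by
          have h3 : Q * b = b * Q := by
            rw [hQ, smul_mul_assoc, mul_smul_comm, add_mul, mul_add, hb.2, one_mul, mul_one]
          have h4 : Q (b u) = b (Q u) := LinearMap.congr_fun h3 u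
          have h5 : Q u = 0 := by
            rw [← hqu]; exact LinearMap.congr_fun QmulZ u
          rw [h4, h5, map_zero]
        have g2 : Q (a u) = a u := by
          have : Q * a = a := by
            rw [hQ, smul_mul_assoc, add_mul, one_mul, ha.2.1]; module
          exact LinearMap.congr_fun this u
        rw [LinearMap.add_apply, map_add, g1, g2, add_zero]
        exact hΨ'a a ha u hqu
      | zero => simp only [map_zero, smul_zero]
      | add a b _ _ ha hb => rw [map_add, map_add, ha, hb, smul_add]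
      | smul c a _ ha => rw [map_smul, map_smul, ha, smul_comm]
    have h3 := h2 _ h1
    have h4 : Q (v - p v - q v) = e' v := by
      rw [he2']; simp only [Module.End.mul_apply, LinearMap.sub_apply, Module.End.one_apply]
    rw [h4] at h3
    exact h3
  have Ψe' : Ψ' * e' = Ψ' := by
    rw [hΨ', Finset.sum_mul]
    refine Finset.sum_congr rfl (fun i _ => ?_)
    have h1 : (F * y i) * Q = F * y i := by
      have e1 : y i * Q = Q * y i := by
        rw [hQ, smul_mul_assoc, mul_smul_comm, add_mul, mul_add, (hy i).2, one_mul, mul_one]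
      have e2 : F * Q = F := by
        rw [hQ, mul_smul_comm, mul_add, mul_one, D.Fs]; module
      rw [mul_assoc, e1, ← mul_assoc, e2]
    have h2 : (F * y i) * p = 0 := by rw [mul_assoc, (hy i).1.xp, mul_zero]
    rw [he', mul_assoc, mul_sub, h1, h2, sub_zero]
  have tΨ' : LinearMap.trace K V Ψ' = θ * r - (n : K) * r := by
    have h1 : ∀ i, LinearMap.trace K V (x i * (F * y i)) = LinearMap.trace K V (F * (x i * y i)) - r := by
      intro i
      have e1 : LinearMap.trace K V (x i * (F * y i)) = LinearMap.trace K V (F * (y i * x i)) := by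
        rw [LinearMap.trace_mul_comm, mul_assoc]
      have e2 : F * (y i * x i) = F * (x i * y i) - q := by
        have h := (hx i).1.brk_eq D.toTri E0 (hy i).1
        rw [← hr, hxy i i, if_pos rfl, one_smul] at h
        have : y i * x i = x i * y i - E := by rw [← h]; abel
        rw [this, mul_sub, D.FE]
      rw [e1, e2, map_sub, D.toTri.trq, ← hr]
    rw [hΨ', map_sum, Finset.sum_congr rfl (fun i _ => h1 i), Finset.sum_sub_distrib, ← map_sum, ← hΘ,
      tΘ, Finset.sum_const, Finset.card_univ, Fintype.card_fin, nsmul_eq_mul]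
  have te' : LinearMap.trace K V e' = ((finrank K V : K) + LinearMap.trace K V s) / 2 - r := by
    have tp : LinearMap.trace K V p = r := by
      rw [← D.EF, LinearMap.trace_mul_comm, D.FE, D.toTri.trq, ← hr]
    rw [he', map_sub, hQ, map_smul, map_add, LinearMap.trace_one, tp, smul_eq_mul]
    ring
  have hfin' : θ * r - (n : K) * r
      = (-(θ + 1)) * (((finrank K V : K) + LinearMap.trace K V s) / 2 - r) := by
    rw [← tΨ', ← te', ← smul_eq_mul, ← map_smul, ← hΨe', Ψe']
  have key2 : ∀ a ∈ X, ∀ c ∈ X, ∀ b ∈ Y, F * (a * (b * (F * c))) + F * (c * (b * (F * a)))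
      = pr F r a b • (F * c) + pr F r c b • (F * a) := by
    intro a ha c hc b hb
    have e1 : a * b = b * a + pr F r a b • E := by
      rw [hr, ← ha.1.brk_eq D.toTri E0 hb.1]; abel
    have e2 : c * b = b * c + pr F r c b • E := by
      rw [hr, ← hc.1.brk_eq D.toTri E0 hb.1]; abel
    have e3 : F * (a * (b * (F * c))) + F * (c * (b * (F * a)))
        = F * ((a * b) * (F * c)) + F * ((c * b) * (F * a)) := by simp only [mul_assoc]
    have e4 : F * ((b * a + pr F r a b • E) * (F * c)) + F * ((b * c + pr F r c b • E) * (F * a))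
        = F * (b * (a * F * c + c * F * a)) + (pr F r a b • (F * E * F * c)
          + pr F r c b • (F * E * F * a)) := by
      simp only [add_mul, mul_add, smul_mul_assoc, mul_smul_comm, mul_assoc]; abel
    rw [e3, e1, e2, e4, xFx a ha c hc, D.FE, D.qF]; simp
  obtain ⟨A, hAd⟩ : ∃ A : Fin n → Fin n → Module.End K V, A = fun i j => F * (x i * (y j * q)) :=
    ⟨_, rfl⟩
  have hAd' : ∀ i j, A i j = F * (x i * (y j * q)) := fun i j => by rw [hAd]
  have hAm : ∀ i j k l, A i j * A k l = F * (x i * (y j * (F * (x k * (y l * q))))) := by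
    intro i j k l
    rw [hAd', hAd']
    have : F * (x i * (y j * q)) * (F * (x k * (y l * q)))
        = F * (x i * (y j * ((q * F) * (x k * (y l * q))))) := by simp only [mul_assoc]
    rw [this, D.qF]
  have hExt : Ext A := by
    refine ⟨?_, ?_⟩
    · intro i j k l
      have h1 := congrArg (fun z => F * (x i * (z * q))) (key (y j) (hy j) (y l) (hy l) (x k) (hx k))
      rw [hAm, hAm]
      have e1 : F * (x i * (y j * (F * (x k * (y l * q))))) + F * (x i * (y l * (F * (x k * (y j * q)))))
          = F * (x i * ((y j * (F * (x k * y l)) + y l * (F * (x k * y j))) * q)) := by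
        simp only [mul_assoc, add_mul, mul_add]
      rw [e1, h1, hxy k l, hxy k j]
      have e2 : ∀ (c d : K), F * (x i * ((c • (y j * q) + d • (y l * q)) * q)) = c • A i j + d • A i l := by
        intro c d
        rw [hAd', hAd']
        simp only [add_mul, mul_add, smul_mul_assoc, mul_smul_comm, mul_assoc, D.toTri.qq]
      rw [e2]
      split_ifs <;> simp
    · intro i j k l
      have h1 := congrArg (fun z => z * (y l * q)) (key2 (x i) (hx i) (x k) (hx k) (y j) (hy j))
      rw [hAm, hAm]
      have e1 : F * (x i * (y j * (F * (x k * (y l * q))))) + F * (x k * (y j * (F * (x i * (y l * q)))))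
          = (F * (x i * (y j * (F * x k))) + F * (x k * (y j * (F * x i)))) * (y l * q) := by
        simp only [mul_assoc, add_mul, mul_add]
      rw [e1, h1, hxy i j, hxy k j, hAd', hAd']
      simp only [add_mul, smul_mul_assoc, mul_assoc]
      rw [add_comm]
      split_ifs <;> simp
  obtain ⟨W, hWd⟩ : ∃ W, W = LinearMap.range q := ⟨_, rfl⟩
  have hqW : ∀ u ∈ W, q u = u := by
    rw [hWd]
    rintro _ ⟨v, rfl⟩; exact LinearMap.congr_fun D.qq v
  have hWq : ∀ u, q u ∈ W := by rw [hWd]; exact fun u => ⟨u, rfl⟩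
  have hW0 : W ≠ ⊥ := by
    rw [hWd]
    intro h
    apply E0
    rw [← D.Eq, LinearMap.range_eq_bot.mp h, mul_zero]
  have hIrr : Irr (unc A) W := by
    refine ⟨hW0, ?_, ?_⟩
    · rintro ⟨i, j⟩ u _
      have : q * A i j = A i j := by rw [hAd', ← mul_assoc, D.qF]
      have h2 : q (A i j u) = A i j u := LinearMap.congr_fun this u
      show A i j u ∈ W
      rw [← h2]; exact hWq _
    · intro W' hle hst
      by_cases h0 : W' = ⊥
      · left; exact h0
      right
      obtain ⟨u₀, hu₀, hu₀0⟩ := Submodule.exists_mem_ne_zero_of_ne_bot h0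
      have hq' : ∀ u ∈ W', q u = u := fun u hu => hqW u (hle hu)
      have hstt : ∀ t t', T1 L p q t → T1 L p q t' → ∀ u ∈ W', F (t (t' u)) ∈ W' := by
        intro t t' ht ht' u hu
        obtain ⟨a, ha, b, hb, rfl⟩ := dec t ht
        obtain ⟨a', ha', b', hb', rfl⟩ := dec t' ht'
        have st : ∀ a ∈ X, ∀ b ∈ Y, F (a (b u)) ∈ W' := by
          intro a ha b hb
          rw [hX a ha, hY b hb]
          simp only [LinearMap.sum_apply, LinearMap.smul_apply, map_sum, map_smul]
          refine W'.sum_mem fun i _ => W'.smul_mem _ (W'.sum_mem fun j _ => W'.smul_mem _ ?_)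
          have h1 := hst (j, i) u hu
          have h2 : unc A (j, i) u = F (x j (y i (q u))) := by
            show A j i u = _
            rw [hAd']; rfl
          rw [h2, hq' u hu] at h1
          exact h1
        have g1 : a (a' u) = 0 := LinearMap.congr_fun (XX a ha a' ha') u
        have g2 : b (b' u) = 0 := LinearMap.congr_fun (YY b hb b' hb') u
        have g3 : b (a' u) = a' (b u) - pr F r a' b • E u := by
          have := LinearMap.congr_fun (ha'.1.brk_eq D.toTri E0 hb.1) u
          rw [LinearMap.sub_apply, LinearMap.smul_apply, Module.End.mul_apply, Module.End.mul_apply,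
            ← hr] at this
          rw [← this]; abel
        have g4 : F (E u) = u := by
          have : F (E u) = q u := LinearMap.congr_fun D.FE u
          rw [this, hq' u hu]
        have e : F ((a + b) ((a' + b') u)) = F (a (b' u)) + F (a' (b u)) - pr F r a' b • u := by
          simp only [LinearMap.add_apply, map_add, g1, g2, g3, map_sub, map_smul, g4, zero_add, add_zero]
          abel
        rw [e]
        exact W'.sub_mem (W'.add_mem (st a ha b' hb') (st a' ha' b hb)) (W'.smul_mem _ hu)
      apply le_antisymm hle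
      intro v hv
      rw [← hqW v hv]
      exact S.irrU D.toTri E0 W' hq' hstt hu₀ hu₀0 v
  have hsum : ∀ u ∈ W, ∑ i, A i i u = θ • u := by
    intro u hu
    have h1 := hθ u
    rw [hqW u hu] at h1
    rw [← h1, hΘ, LinearMap.sum_apply]
    refine Finset.sum_congr rfl (fun i _ => ?_)
    rw [hAd']
    show F (x i (y i (q u))) = F (x i (y i u))
    rw [hqW u hu]
  obtain ⟨k, hkn, hck, hfr⟩ := hExt.dim hIrr hsum
  have hrk : rk E = n.choose k := by
    rw [← D.toTri.rkq, ← hWd, hfr]
  refine ⟨n, k, hkn, hrk, ?_⟩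
  have hrK : r = (n.choose k : K) := by rw [hr, hrk]
  obtain ⟨a, ha⟩ : ∃ a : K, a = ((finrank K V : K) + LinearMap.trace K V s) / 2 := ⟨_, rfl⟩
  obtain ⟨b, hb⟩ : ∃ b : K, b = ((finrank K V : K) - LinearMap.trace K V s) / 2 := ⟨_, rfl⟩
  rw [← hb] at hfin
  rw [← ha] at hfin'
  rw [hck] at hfin hfin'
  -- binomial identities
  have hA1 : ((k : K) + 1) * (n + 1).choose (k + 1) = ((n : K) + 1) * n.choose k := by
    have := Nat.add_one_mul_choose_eq n k
    have h2 : ((n + 1) * n.choose k : ℕ) = ((n + 1).choose (k + 1) * (k + 1) : ℕ) := this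
    have h3 : (((n + 1) * n.choose k : ℕ) : K) = (((n + 1).choose (k + 1) * (k + 1) : ℕ) : K) := by
      rw [h2]
    push_cast at h3
    linear_combination -h3
  have hB1 : ((n : K) + 1 - k) * (n + 1).choose k = ((n : K) + 1) * n.choose k := by
    have h2 : (n + 1).choose k * (n + 1 - k) = (n + 1) * n.choose k := by
      have := Nat.choose_mul_succ_eq n k
      rw [mul_comm (n + 1), this]
    have h3 : (((n + 1).choose k * (n + 1 - k) : ℕ) : K) = (((n + 1) * n.choose k : ℕ) : K) := by
      rw [h2]
    rw [Nat.cast_mul, Nat.cast_sub (by omega)] at h3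
    push_cast at h3
    linear_combination h3
  have hk1 : (k : K) + 1 ≠ 0 := by exact_mod_cast Nat.succ_ne_zero k
  have hnk : (n : K) + 1 - k ≠ 0 := by
    have h1 : ((n + 1 - k : ℕ) : K) ≠ 0 := by
      have : n + 1 - k ≠ 0 := by omega
      exact_mod_cast this
    rw [Nat.cast_sub (by omega)] at h1
    push_cast at h1
    exact h1
  have ha2 : a = ((n + 1).choose (k + 1) : K) := by
    have : ((k : K) + 1) * (a - (n + 1).choose (k + 1)) = 0 := by
      rw [mul_sub, hA1, ← hrK]
      linear_combination hfin'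
    exact sub_eq_zero.mp ((mul_eq_zero.mp this).resolve_left hk1)
  have hb2 : b = ((n + 1).choose k : K) := by
    have : ((n : K) + 1 - k) * (b - (n + 1).choose k) = 0 := by
      rw [mul_sub, hB1, ← hrK]
      linear_combination -hfin
    exact sub_eq_zero.mp ((mul_eq_zero.mp this).resolve_left hnk)
  refine ⟨?_, ?_⟩
  · have : ((finrank K V : ℕ) : K) = (((n + 1).choose (k + 1) + (n + 1).choose k : ℕ) : K) := by
      push_cast
      rw [← ha2, ← hb2, ha, hb]; ring
    exact_mod_cast this
  · rw [← ha2, ← hb2, ha, hb]; ring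

end Pool.Agent.OU
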