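import Pool.Agent.Lib_helper48.OT.G12
import Pool.Agent.Lib_helper48.OU.U10

/-! Two orthogonal pairs, in full. -/

set_option linter.unusedSectionVars false
set_option linter.unusedSimpArgs false

namespace Pool.Agent.OU

open Module Pool.Agent.OT

variable {K : Type*} [Field K] [CharZero K] [IsAlgClosed K]
variable {V : Type*} [AddCommGroup V] [Module K V] [FiniteDimensional K V]
variable {L : Submodule K (Module.End K V)}
variable {s E F p q E' F' p' q' x₀ : Module.End K V} {κ : K}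

theorem PrU.bb_eq (D : PrU L s κ E F p q E' F' p' q') (E0 : E ≠ 0) {x x' : Module.End K V}
    (h1 : T1 L p q x) (h2 : T1 L p' q' x) (h1' : T1 L p q x') (h2' : T1 L p' q' x') :
    x * (F' * x') + x' * (F' * x) = bb F F' (rk E : K) x x' • E := by
  obtain ⟨c, hc⟩ := D.topx h1 h2 h1' h2'
  have : bb F F' (rk E : K) x x' = c := by
    rw [bb_def, hc, mul_smul_comm, D.A.FE, map_smul, D.A.toTri.trq, smul_eq_mul,
      mul_div_assoc, div_self (D.A.toTri.r0 E0), mul_one]
  rw [this, hc]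

/-- The polar form is nondegenerate. -/
theorem PrU.bb_nd (S : SimU L) (D : PrU L s κ E F p q E' F' p' q') (E0 : E ≠ 0)
    {x : Module.End K V} (h1 : T1 L p q x) (h2 : T1 L p' q' x)
    (h : ∀ y, T1 L p q y → T1 L p' q' y → bb F F' (rk E : K) x y = 0) : x = 0 := by
  refine T1.nd S.good D.A.toTri E0 h1 ?_
  intro t ht
  obtain ⟨x', z, w, hx1, hx2, hz1, hz2, hw1, hw2, rfl⟩ := D.dec ht
  have g1 : pr F (rk E : K) x x' = 0 := by
    rw [pr_def, D.xx h1 h2 hx1 hx2, D.xx hx1 hx2 h1 h2, sub_zero, mul_zero, map_zero, zero_div]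
  have g3 : pr F (rk E : K) x w = 0 := by
    have hb := hw2.back D.B.toTri
    have hy1 : T1 L p q (w * E' - E' * w) := (D.symm.T0E.brk1 D.A.brk hw1).flip
    have hy2 : T1 L p' q' (w * E' - E' * w) := D.B.toTri.gE hw2
    obtain ⟨y, hy⟩ : ∃ y, y = w * E' - E' * w := ⟨_, rfl⟩
    rw [← hy] at hb hy1 hy2
    have hpol := D.bb_eq E0 h1 h2 hy1 hy2
    rw [h y hy1 hy2, zero_smul] at hpol
    have e : x * w - w * x = (x * y) * F' + F' * (y * x) - (x * (F' * y) + y * (F' * x)) := by
      rw [hb]; noncomm_ring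
    rw [pr_def, e, hpol, D.xx h1 h2 hy1 hy2, D.xx hy1 hy2 h1 h2]
    simp
  rw [map_add, map_add, g1, D.prxz _ h1 h2 hz1 hz2, g3, add_zero, add_zero]

namespace CfgU

theorem ee (C : CfgU L s κ E F p q E' F' p' q' x₀) :
    (p + q + p' + q') * (p + q + p' + q') = p + q + p' + q' := by
  have D := C.D
  have hpp := D.A.toTri.pp
  have hqq := D.A.toTri.qq
  have hpp' := D.B.toTri.pp
  have hqq' := D.B.toTri.qq
  simp only [add_mul, mul_add, hpp, hqq, hpp', hqq', D.A.toTri.pq, D.A.toTri.qp, D.B.toTri.pq,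
    D.B.toTri.qp, D.pp, D.pp', D.qq, D.qq', D.pq, D.qp, D.symm.pq, D.symm.qp]
  abel

theorem tr4 (C : CfgU L s κ E F p q E' F' p' q' x₀) :
    LinearMap.trace K V (p + q + p' + q') = ((4 * rk E : ℕ) : K) := by
  have D := C.D
  have tp : LinearMap.trace K V p = (rk E : K) := by
    rw [← D.A.EF, LinearMap.trace_mul_comm, D.A.FE, D.A.toTri.trq]
  have tp' : LinearMap.trace K V p' = LinearMap.trace K V q' := by
    rw [← D.B.EF, LinearMap.trace_mul_comm, D.B.FE]
  have tq' : LinearMap.trace K V q' = (rk E : K) := by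
    rw [← D.A.toTri.trq, ← D.A.FE, ← D.B.FE, ← C.xFx, ← C.xFx', ← mul_assoc,
      LinearMap.trace_mul_comm, ← mul_assoc, ← mul_assoc, ← mul_assoc]
  rw [map_add, map_add, map_add, tp, tp', tq', D.A.toTri.trq]
  push_cast
  ring

theorem le4 (C : CfgU L s κ E F p q E' F' p' q' x₀) : 4 * rk E ≤ finrank K V := by
  have hP : LinearMap.IsProj (LinearMap.range (p + q + p' + q')) (p + q + p' + q') :=
    ⟨fun x => ⟨x, rfl⟩, fun x ⟨v, hv⟩ => by rw [← hv]; exact LinearMap.congr_fun C.ee v⟩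
  have h1 := hP.trace
  rw [C.tr4] at h1
  have h2 : 4 * rk E = finrank K (LinearMap.range (p + q + p' + q')) := by exact_mod_cast h1
  rw [h2]
  exact Submodule.finrank_le _

theorem e1 (C : CfgU L s κ E F p q E' F' p' q' x₀) (hn : 4 * rk E = finrank K V) :
    p + q + p' + q' = 1 := by
  have hP : LinearMap.IsProj (LinearMap.range (p + q + p' + q')) (p + q + p' + q') :=
    ⟨fun x => ⟨x, rfl⟩, fun x ⟨v, hv⟩ => by rw [← hv]; exact LinearMap.congr_fun C.ee v⟩
  have h1 := hP.trace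
  rw [C.tr4] at h1
  have h2 : 4 * rk E = finrank K (LinearMap.range (p + q + p' + q')) := by exact_mod_cast h1
  rw [hn] at h2
  have h3 : LinearMap.range (p + q + p' + q') = ⊤ := Submodule.eq_top_of_finrank_eq h2.symm
  ext v
  obtain ⟨w, hw⟩ := LinearMap.range_eq_top.mp h3 v
  rw [← hw]
  exact LinearMap.congr_fun C.ee w

theorem no10 (C : CfgU L s κ E F p q E' F' p' q' x₀) (hn : 4 * rk E = finrank K V)
    {z : Module.End K V} (h1 : T1 L p q z) (h2 : T0 L p' q' z) : z = 0 := by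
  have D := C.D
  obtain ⟨a1, a2, a3, a4⟩ := D.d0 h1 h2
  have e1 : z = p * z := by
    have : (p + q + p' + q') * z = z := by rw [C.e1 hn, one_mul]
    rw [add_mul, add_mul, add_mul, h1.qx, a1, a3, add_zero, add_zero, add_zero] at this
    exact this.symm
  have e2 : z = z * q := by
    have : z * (p + q + p' + q') = z := by rw [C.e1 hn, mul_one]
    rw [mul_add, mul_add, mul_add, h1.xp, a2, a4, add_zero, add_zero, zero_add] at this
    exact this.symm
  have e3 := h1.px
  rw [← e1, ← e2, sub_self] at e3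
  exact e3

theorem x0q0 (C : CfgU L s κ E F p q E' F' p' q' x₀) : x₀ * q ≠ 0 := by
  intro h4
  apply C.E0
  have : E * q = E := C.D.A.Eq
  rw [← this, ← C.xFx', mul_assoc, mul_assoc, h4, mul_zero, mul_zero]

/-- Elements orthogonal to x₀ anticommute with it through F as well. -/
theorem perp (C : CfgU L s κ E F p q E' F' p' q' x₀) {x : Module.End K V} (h1 : T1 L p q x)
    (h2 : T1 L p' q' x) (h : bb F F' (rk E : K) x₀ x = 0) :
    x₀ * (F' * x) = -(x * (F' * x₀)) ∧ x₀ * (F * x) = -(x * (F * x₀)) := by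
  have D := C.D
  have hc := D.bb_eq C.E0 C.h1 C.h2 h1 h2
  rw [h, zero_smul] at hc
  have g1 : x₀ * (F' * x) = -(x * (F' * x₀)) := eq_neg_of_add_eq_zero_left hc
  refine ⟨g1, ?_⟩
  obtain ⟨c', hc'⟩ := D.symm.topx C.h2 C.h1 h2 h1
  have e1 : (x₀ * (F * x) + x * (F * x₀)) * (F' * x₀) = c' • (x₀ * q) := by
    rw [hc', smul_mul_assoc, ← mul_assoc, D.B.EF, D.d1 C.h1 C.h2]
  have e2 : (x₀ * (F * x) + x * (F * x₀)) * (F' * x₀) = 0 := by
    have : (x₀ * (F * x) + x * (F * x₀)) * (F' * x₀)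
        = x₀ * (F * (x * (F' * x₀))) + x * (F * (x₀ * (F' * x₀))) := by noncomm_ring
    rw [this, C.xFx', D.A.FE]
    have h5 : x * (F' * x₀) = -(x₀ * (F' * x)) := by rw [g1, neg_neg]
    rw [h5]
    have : x₀ * (F * -(x₀ * (F' * x))) = -(x₀ * (F * x₀) * (F' * x)) := by noncomm_ring
    rw [this, C.xFx, ← mul_assoc, D.B.EF, D.d1 h1 h2]
    exact neg_add_cancel _
  rw [e2] at e1
  have h0 := (smul_eq_zero.mp e1.symm).resolve_right C.x0q0
  rw [h0, zero_smul] at hc'
  exact eq_neg_of_add_eq_zero_left hc'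

theorem clif (C : CfgU L s κ E F p q E' F' p' q' x₀) (x : Module.End K V) {y : Module.End K V}
    (g1 : T1 L p q y) (g2 : T1 L p' q' y) (hy : bb F F' (rk E : K) x₀ y = 0) :
    F * (x * (F' * (x₀ * q))) * (F * (y * (F' * (x₀ * q)))) = -(F * (x * (F' * (y * q)))) := by
  have D := C.D
  have e : F * (x * (F' * (x₀ * q))) * (F * (y * (F' * (x₀ * q))))
      = F * (x * (F' * ((x₀ * ((q * F) * y)) * (F' * (x₀ * q))))) := by simp only [mul_assoc]
  rw [e, D.A.qF, (C.perp g1 g2 hy).2]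
  have e2 : F * (x * (F' * (-(y * (F * x₀)) * (F' * (x₀ * q)))))
      = -(F * (x * (F' * (y * (F * (x₀ * (F' * x₀)) * q))))) := by noncomm_ring
  rw [e2, C.xFx', D.A.FE, D.A.toTri.qq]

/-- If the dimension is four times the rank then s has trace zero. -/
theorem kap (C : CfgU L s κ E F p q E' F' p' q' x₀) (hn : 4 * rk E = finrank K V) : κ = 0 := by
  have D := C.D
  have h1 : LinearMap.trace K V s = κ * (finrank K V : K) := by
    have := C.S.tr D.A.hs
    rw [map_sub, map_smul, LinearMap.trace_one, smul_eq_mul, sub_eq_zero] at this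
    exact this
  have h2 : LinearMap.trace K V s = 0 := by
    have e : s = s * (p + q + p' + q') := by rw [C.e1 hn, mul_one]
    have tp : LinearMap.trace K V p = LinearMap.trace K V q := by
      rw [← D.A.EF, LinearMap.trace_mul_comm, D.A.FE]
    have tp' : LinearMap.trace K V p' = LinearMap.trace K V q' := by
      rw [← D.B.EF, LinearMap.trace_mul_comm, D.B.FE]
    rw [e, mul_add, mul_add, mul_add, D.A.sp, D.A.sq, D.B.sp, D.B.sq, map_add, map_add, map_add,
      map_neg, map_neg, tp, tp']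
    ring
  rw [h2] at h1
  rcases mul_eq_zero.mp h1.symm with h | h
  · exact h
  · exfalso
    have h3 : finrank K V = 0 := by exact_mod_cast h
    have h4 : rk E = 0 := by omega
    exact C.E0 (eq_zero_of_rk h4)

end CfgU

end Pool.Agent.OU
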