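import Pool.Agent.Lib_helper48.OU.U11
import Pool.Agent.Lib_helper48.OU.U12

/-! No second pair: relations on the range of q, and the centraliser of the pair. -/

set_option linter.unusedSectionVars false
set_option linter.unusedSimpArgs false

namespace Pool.Agent.OU

open Module Pool.Agent.OT

variable {K : Type*} [Field K] [CharZero K] [IsAlgClosed K]
variable {V : Type*} [AddCommGroup V] [Module K V] [FiniteDimensional K V]
variable {L : Submodule K (Module.End K V)}
variable {E F p q s x y z w b : Module.End K V} {κ : K}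

/-- Degree one for the pair and for s. -/
structure Xd (L : Submodule K (Module.End K V)) (s p q x : Module.End K V) : Prop where
  t : T1 L p q x
  sx : s * x = x
  xs : x * s = -x

/-- Degree one for the pair and degree zero for s. -/
structure Yd (L : Submodule K (Module.End K V)) (s p q y : Module.End K V) : Prop where
  t : T1 L p q y
  sy : s * y = y * s

/-- An adapted pair without a second pair. -/
structure PA (L : Submodule K (Module.End K V)) (s : Module.End K V) (κ : K)
    (E F p q : Module.End K V) : Prop extends SDU L s κ E F p q where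
  S : SimU L
  E0 : E ≠ 0
  hA : ∀ z ∈ L, s * z = -z → z * s = z → q * z = 0 → z * p = 0 → z = 0

theorem Xd.smul (h : Xd L s p q x) (c : K) : Xd L s p q (c • x) :=
  ⟨h.t.smul c, by rw [mul_smul_comm, h.sx], by rw [smul_mul_assoc, h.xs, smul_neg]⟩

theorem Yd.smul (h : Yd L s p q y) (c : K) : Yd L s p q (c • y) :=
  ⟨h.t.smul c, by rw [mul_smul_comm, smul_mul_assoc, h.sy]⟩

namespace PA

theorem XX (hx : Xd L s p q x) (hz : Xd L s p q z) : x * z = 0 := One.mul_zero_of hx.xs hz.sx

theorem YY (h : PA L s κ E F p q) (hy : Yd L s p q y) (hy' : Yd L s p q w) : y * w = 0 := by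
  have D := h.toSDU
  have e1 : p * (y * w) = y * w := by
    rw [← mul_assoc, hy.t.px, sub_mul, mul_assoc y q, hy'.t.qx, mul_zero, sub_zero]
  have e2 : (y * w) * q = y * w := by
    rw [mul_assoc, hy'.t.xq, mul_sub, ← mul_assoc y p, hy.t.xp, zero_mul, sub_zero]
  have e3 : s * (y * w) = y * w := by
    rw [← e1, ← mul_assoc, D.sp]
  have e4 : (y * w) * s = -(y * w) := by
    rw [← e2, mul_assoc, D.qs, mul_neg]
  have e5 : s * (y * w) = (y * w) * s := by
    rw [← mul_assoc, hy.sy, mul_assoc, hy'.sy, mul_assoc]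
  rw [e3, e4] at e5
  exact zero_of_eq_neg e5

theorem pXX (h : PA L s κ E F p q) (hx : Xd L s p q x) (hz : Xd L s p q z) :
    pr F (rk E : K) x z = 0 := by
  rw [pr_def, XX hx hz, XX hz hx, sub_zero, mul_zero, map_zero, zero_div]

theorem pYY (h : PA L s κ E F p q) (hx : Yd L s p q y) (hz : Yd L s p q w) :
    pr F (rk E : K) y w = 0 := by
  rw [pr_def, h.YY hx hz, h.YY hz hx, sub_zero, mul_zero, map_zero, zero_div]

theorem dec (h : PA L s κ E F p q) (ht : T1 L p q z) :
    ∃ x y, Xd L s p q x ∧ Yd L s p q y ∧ z = x + y := by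
  obtain ⟨x, y, h1, h2, h3, h4, h5, h6⟩ := h.toSDU.spl ht
  exact ⟨x, y, ⟨h1, h2, h3⟩, ⟨h4, h5⟩, h6⟩

/-- The pairing is nondegenerate on X. -/
theorem ndX (h : PA L s κ E F p q) (hx : Xd L s p q x)
    (h0 : ∀ y, Yd L s p q y → pr F (rk E : K) x y = 0) : x = 0 := by
  refine T1.nd h.S.good h.toTri h.E0 hx.t ?_
  intro t ht
  obtain ⟨a, b, ha, hb, rfl⟩ := h.dec ht
  rw [map_add, h.pXX hx ha, h0 b hb, add_zero]

/-- The pairing is nondegenerate on Y. -/
theorem ndY (h : PA L s κ E F p q) (hy : Yd L s p q y)
    (h0 : ∀ x, Xd L s p q x → pr F (rk E : K) x y = 0) : y = 0 := by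
  refine T1.nd h.S.good h.toTri h.E0 hy.t ?_
  intro t ht
  obtain ⟨a, b, ha, hb, rfl⟩ := h.dec ht
  rw [map_add, h.pYY hy hb, pr_skew, h0 a ha, neg_zero, add_zero]

theorem yFy (h : PA L s κ E F p q) (hy : Yd L s p q y) (hw : Yd L s p q w) :
    y * F * w + w * F * y = 0 := by
  have D := h.toSDU
  refine h.hA _ ?_ ?_ ?_ ?_ ?_
  · have e : y * F * w + w * F * y = (y * w) * F + F * (w * y)
        - (y * (w * F - F * w) - (w * F - F * w) * y) := by noncomm_ring
    rw [e, h.YY hy hw, h.YY hw hy, zero_mul, mul_zero, add_zero, zero_sub]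
    exact L.neg_mem (D.brk y hy.t.mem _ (D.brk w hw.t.mem F D.hF))
  · have e : s * (y * F * w + w * F * y) = (s * y) * F * w + (s * w) * F * y := by noncomm_ring
    rw [e, hy.sy, hw.sy, mul_assoc y s F, mul_assoc w s F, D.sF]
    noncomm_ring
  · have e : (y * F * w + w * F * y) * s = y * F * (w * s) + w * F * (y * s) := by noncomm_ring
    rw [e, ← hy.sy, ← hw.sy, ← mul_assoc (y * F), ← mul_assoc (w * F), mul_assoc y F s,
      mul_assoc w F s, D.Fs]
  · have e : q * (y * F * w + w * F * y) = (q * y) * F * w + (q * w) * F * y := by noncomm_ring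
    rw [e, hy.t.qx, hw.t.qx]; simp
  · have e : (y * F * w + w * F * y) * p = y * F * (w * p) + w * F * (y * p) := by noncomm_ring
    rw [e, hy.t.xp, hw.t.xp]; simp

/-- No second pair on the other side. -/
theorem hA' (h : PA L s κ E F p q) (hz : J1 L s z) (hpz : p * z = 0) (hzq : z * q = 0) : z = 0 := by
  have D := h.toSDU
  obtain ⟨w, hw, hwz⟩ := Inv.partner h.S.good D.inv hz
  have sw : s * w = -w := by
    have := hw.sx
    rw [neg_mul] at this
    exact neg_eq_iff_eq_neg.mp this
  have ws : w * s = w := by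
    have := hw.xs
    rw [mul_neg] at this
    exact neg_injective this
  have pw : p * w = 0 := by
    apply zero_of_eq_neg
    nth_rewrite 1 [← D.ps]
    rw [mul_assoc, sw, mul_neg]
  have wq : w * q = 0 := by
    apply zero_of_eq_neg
    nth_rewrite 1 [← ws]
    rw [mul_assoc, D.sq, mul_neg]
  have qz : q * z = 0 := by
    apply zero_of_eq_neg
    nth_rewrite 1 [← hz.sx]
    rw [← mul_assoc, D.qs, neg_mul]
  have zp : z * p = 0 := by
    apply zero_of_eq_neg
    nth_rewrite 1 [← D.sp]
    rw [← mul_assoc, hz.xs, neg_mul]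
  obtain ⟨o, ho⟩ : ∃ o, o = 1 - p - q := ⟨_, rfl⟩
  have hpp := D.toTri.pp
  have hqq := D.toTri.qq
  have hpq := D.toTri.pq
  have hqp := D.toTri.qp
  have hop : o * p = 0 := by rw [ho]; simp only [sub_mul, one_mul, hpp, hqp]; abel
  have hqo : q * o = 0 := by rw [ho]; simp only [mul_sub, mul_one, hqq, hqp]; abel
  have so : s * o = o * s := by
    rw [ho, mul_sub, mul_sub, sub_mul, sub_mul, D.sp, D.ps, D.sq, D.qs, mul_one, one_mul]
  have hc := (comp_pq h.S.good.brk hpp hqq hpq hqp ho D.toTri.hH hw.mem).2.2.1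
  have e1 : p * w * p + o * w * o + q * w * q = o * w * o := by
    rw [pw, zero_mul, zero_add, mul_assoc q w q, wq, mul_zero, add_zero]
  rw [e1] at hc
  have oz : o * z = z := by rw [ho, sub_mul, sub_mul, one_mul, hpz, qz, sub_zero, sub_zero]
  have zo : z * o = z := by rw [ho, mul_sub, mul_sub, mul_one, zp, hzq, sub_zero, sub_zero]
  have h0 := h.hA _ hc
    (by rw [← mul_assoc, ← mul_assoc, so, mul_assoc o s w, sw]; noncomm_ring)
    (by rw [mul_assoc, ← so, ← mul_assoc, mul_assoc o w s, ws])
    (by rw [← mul_assoc, ← mul_assoc, hqo, zero_mul, zero_mul])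
    (by rw [mul_assoc, hop, mul_zero])
  have e2 : z * (w * z) = z * ((o * w * o) * z) := by
    nth_rewrite 1 [← zo]
    nth_rewrite 2 [← oz]
    simp only [mul_assoc]
  rw [← hwz, e2, h0, zero_mul, mul_zero]

theorem xFx (h : PA L s κ E F p q) (hx : Xd L s p q x) (hz : Xd L s p q z) :
    x * F * z + z * F * x = 0 := by
  have D := h.toSDU
  refine h.hA' ⟨?_, ?_, ?_⟩ ?_ ?_
  · have e : x * F * z + z * F * x = (x * z) * F + F * (z * x)
        - (x * (z * F - F * z) - (z * F - F * z) * x) := by noncomm_ring
    rw [e, XX hx hz, XX hz hx, zero_mul, mul_zero, add_zero, zero_sub]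
    exact L.neg_mem (D.brk x hx.t.mem _ (D.brk z hz.t.mem F D.hF))
  · have e : s * (x * F * z + z * F * x) = (s * x) * F * z + (s * z) * F * x := by noncomm_ring
    rw [e, hx.sx, hz.sx]
  · have e : (x * F * z + z * F * x) * s = x * F * (z * s) + z * F * (x * s) := by noncomm_ring
    rw [e, hx.xs, hz.xs]; noncomm_ring
  · have e : p * (x * F * z + z * F * x) = (p * x) * F * z + (p * z) * F * x := by noncomm_ring
    have g : ∀ c, Xd L s p q c → (p * c) * F = 0 := by
      intro c hc
      rw [hc.t.px, sub_mul, mul_assoc, D.qF, sub_self]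
    rw [e, g x hx, g z hz]; simp
  · have e : (x * F * z + z * F * x) * q = x * (F * (z * q)) + z * (F * (x * q)) := by noncomm_ring
    rw [e, hz.t.Fq D.toTri, hx.t.Fq D.toTri, mul_zero, mul_zero, add_zero]

/-- The relation in the second variables. -/
theorem relY (h : PA L s κ E F p q) (x : Module.End K V) (hz : Xd L s p q z) (hy : Yd L s p q y)
    (hw : Yd L s p q w) :
    F * (x * (y * q)) * (F * (z * (w * q))) + F * (x * (w * q)) * (F * (z * (y * q)))
      = pr F (rk E : K) z w • (F * (x * (y * q))) + pr F (rk E : K) z y • (F * (x * (w * q))) := by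
  have D := h.toSDU
  have e1 : z * w = w * z + pr F (rk E : K) z w • E := by
    rw [← hz.t.brk_eq D.toTri h.E0 hw.t]; abel
  have e2 : z * y = y * z + pr F (rk E : K) z y • E := by
    rw [← hz.t.brk_eq D.toTri h.E0 hy.t]; abel
  have e0 : F * (x * (y * q)) * (F * (z * (w * q))) + F * (x * (w * q)) * (F * (z * (y * q)))
      = F * (x * ((y * (q * F) * (z * w) + w * (q * F) * (z * y)) * q)) := by noncomm_ring
  rw [e0, D.qF, e1, e2]
  have e3 : y * F * (w * z + pr F (rk E : K) z w • E) + w * F * (y * z + pr F (rk E : K) z y • E)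
      = (y * F * w + w * F * y) * z
        + (pr F (rk E : K) z w • (y * (F * E)) + pr F (rk E : K) z y • (w * (F * E))) := by
    simp only [mul_add, mul_smul_comm, add_mul, mul_assoc]
    abel
  rw [e3, h.yFy hy hw, zero_mul, zero_add, D.FE]
  simp only [add_mul, mul_add, smul_mul_assoc, mul_smul_comm, mul_assoc, D.toTri.qq]

/-- The relation in the first variables. -/
theorem relX (h : PA L s κ E F p q) (hx : Xd L s p q x) (hz : Xd L s p q z) (hy : Yd L s p q y)
    (w : Module.End K V) :
    F * (x * (y * q)) * (F * (z * (w * q))) + F * (z * (y * q)) * (F * (x * (w * q)))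
      = pr F (rk E : K) x y • (F * (z * (w * q))) + pr F (rk E : K) z y • (F * (x * (w * q))) := by
  have D := h.toSDU
  have e1 : x * y = y * x + pr F (rk E : K) x y • E := by
    rw [← hx.t.brk_eq D.toTri h.E0 hy.t]; abel
  have e2 : z * y = y * z + pr F (rk E : K) z y • E := by
    rw [← hz.t.brk_eq D.toTri h.E0 hy.t]; abel
  have e0 : F * (x * (y * q)) * (F * (z * (w * q))) + F * (z * (y * q)) * (F * (x * (w * q)))
      = F * (((x * y) * (q * F) * z + (z * y) * (q * F) * x) * (w * q)) := by noncomm_ring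
  rw [e0, D.qF, e1, e2]
  have e3 : (y * x + pr F (rk E : K) x y • E) * F * z + (y * z + pr F (rk E : K) z y • E) * F * x
      = y * (x * F * z + z * F * x)
        + (pr F (rk E : K) x y • (E * F * z) + pr F (rk E : K) z y • (E * F * x)) := by
    simp only [mul_add, smul_mul_assoc, add_mul, mul_assoc]
    abel
  have e4 : F * (E * F) = F := by rw [D.EF, D.Fp]
  rw [e3, h.xFx hx hz, mul_zero, zero_add]
  simp only [add_mul, mul_add, smul_mul_assoc, mul_smul_comm]
  have e5 : ∀ c : Module.End K V, F * (E * F * c * (w * q)) = F * (c * (w * q)) := by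
    intro c
    have : F * (E * F * c * (w * q)) = F * (E * F) * (c * (w * q)) := by noncomm_ring
    rw [this, e4]
  rw [e5, e5]

/-- F t t' on the range of q. -/
theorem Ftt (h : PA L s κ E F p q) {a c : Module.End K V} (hx : Xd L s p q x) (hy : Yd L s p q y)
    (ha : Xd L s p q a) (hc : Yd L s p q c) :
    F * ((x + y) * ((a + c) * q)) = F * (x * (c * q)) + F * (a * (y * q))
      - pr F (rk E : K) a y • q := by
  have D := h.toSDU
  have g3 : y * a = a * y - pr F (rk E : K) a y • E := by
    rw [← ha.t.brk_eq D.toTri h.E0 hy.t]; abel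
  have e : F * ((x + y) * ((a + c) * q)) = F * ((x * a) * q) + F * (x * (c * q)) + F * ((y * a) * q)
      + F * ((y * c) * q) := by noncomm_ring
  rw [e, XX hx ha, h.YY hy hc, g3]
  simp only [zero_mul, mul_zero, zero_add, add_zero, sub_mul, mul_sub, smul_mul_assoc, mul_smul_comm,
    D.Eq, D.FE, mul_assoc]
  abel

/-- If all F x y are scalars on the range of q then the rank is one. -/
theorem rk_one (h : PA L s κ E F p q)
    (hs : ∀ x y, Xd L s p q x → Yd L s p q y → ∃ c : K, F * (x * (y * q)) = c • q) : rk E = 1 := by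
  have D := h.toSDU
  have hq0 : q ≠ 0 := by
    intro h0
    apply h.E0
    rw [← D.Eq, h0, mul_zero]
  obtain ⟨v, hv⟩ : ∃ v, q v ≠ 0 := by
    by_contra hne
    push Not at hne
    exact hq0 (LinearMap.ext hne)
  have hqq : ∀ v, q (q v) = q v := fun v => LinearMap.congr_fun D.toTri.qq v
  have hU := h.S.irrU D.toTri h.E0 (Submodule.span K {q v})
    (by
      intro u hu
      obtain ⟨c, rfl⟩ := Submodule.mem_span_singleton.mp hu
      rw [map_smul, hqq])
    (by
      intro t t' ht ht' u hu
      obtain ⟨c, rfl⟩ := Submodule.mem_span_singleton.mp hu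
      obtain ⟨x, y, hx, hy, rfl⟩ := h.dec ht
      obtain ⟨a, d, ha, hd, rfl⟩ := h.dec ht'
      obtain ⟨c1, h1⟩ := hs x d hx hd
      obtain ⟨c2, h2⟩ := hs a y ha hy
      have e := h.Ftt hx hy ha hd
      rw [h1, h2, ← add_smul, ← sub_smul] at e
      have e2 := LinearMap.congr_fun e v
      simp only [LinearMap.smul_apply, Module.End.mul_apply] at e2
      refine Submodule.mem_span_singleton.mpr ⟨c * (c1 + c2 - pr F (rk E : K) a y), ?_⟩
      rw [mul_smul, ← e2]
      simp only [map_smul])
    (Submodule.mem_span_singleton_self _) hv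
  have h1 : LinearMap.range q = Submodule.span K {q v} := by
    apply le_antisymm
    · rintro _ ⟨u, rfl⟩
      exact hU u
    · rw [Submodule.span_le]
      rintro _ rfl
      exact ⟨v, rfl⟩
  rw [← D.toTri.rkq, h1]
  exact finrank_span_singleton hv

/-- A square zero element orthogonal to the pair is zero, if the rank is not one. -/
theorem L00 (h : PA L s κ E F p q) (hr : rk E ≠ 1) (hb : b ∈ L) (bb : b * b = 0) (bp : b * p = 0)
    (pb : p * b = 0) (bq : b * q = 0) (qb : q * b = 0) (sb : s * b = b * s) : b = 0 := by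
  classical
  have D := h.toSDU
  have bE : b * E = 0 := by rw [← D.pE, ← mul_assoc, bp, zero_mul]
  have Eb : E * b = 0 := by rw [← D.Eq, mul_assoc, qb, mul_zero]
  have bF : b * F = 0 := by rw [← D.qF, ← mul_assoc, bq, zero_mul]
  have Fb : F * b = 0 := by rw [← D.Fp, mul_assoc, pb, mul_zero]
  have hz : T0 L p q b := ⟨hb, by rw [bp, pb], by rw [bq, qb]⟩
  have hbc : b * E - E * b = (0 : K) • E := by rw [bE, Eb, sub_zero, zero_smul]
  have btb : ∀ t, T1 L p q t → b * t * b = 0 := by
    intro t ht
    have : t = p * t + t * q := by rw [ht.px]; abel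
    rw [this]
    have e : b * (p * t + t * q) * b = (b * p) * t * b + b * t * (q * b) := by noncomm_ring
    rw [e, bp, qb]; simp
  have hX : ∀ x, Xd L s p q x → Xd L s p q (b * x - x * b) := by
    intro x hx
    refine ⟨hz.brk1 D.brk hx.t, ?_, ?_⟩
    · rw [mul_sub, ← mul_assoc, sb, mul_assoc, hx.sx, ← mul_assoc, hx.sx]
    · rw [sub_mul, mul_assoc, hx.xs, mul_assoc, ← sb, ← mul_assoc, hx.xs]; noncomm_ring
  have hY : ∀ y, Yd L s p q y → Yd L s p q (b * y - y * b) := by
    intro y hy
    refine ⟨hz.brk1 D.brk hy.t, ?_⟩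
    have c1 : Commute s b := sb
    have c2 : Commute s y := hy.sy
    exact ((c1.mul_right c2).sub_right (c2.mul_right c1)).eq
  have twice : ∀ t, T1 L p q t → b * (b * t - t * b) - (b * t - t * b) * b = 0 := by
    intro t ht
    have e : b * (b * t - t * b) - (b * t - t * b) * b = (b * b) * t - (b * t * b + b * t * b)
        + t * (b * b) := by noncomm_ring
    rw [e, bb, btb t ht]; simp
  have hinv : ∀ x y, Xd L s p q x → Yd L s p q y →
      pr F (rk E : K) (b * x - x * b) y = - pr F (rk E : K) x (b * y - y * b) := by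
    intro x y hx hy
    have := T1.inv D.toTri h.E0 hx.t hy.t hz hbc
    rw [zero_mul] at this
    exact eq_neg_of_add_eq_zero_left this
  have hAi : ∀ x y, F * ((b * x - x * b) * (y * q)) = -(F * (x * ((b * y - y * b) * q))) := by
    intro x y
    have e1 : F * ((b * x - x * b) * (y * q)) = (F * b) * x * (y * q) - F * (x * (b * (y * q))) := by
      noncomm_ring
    have e2 : F * (x * ((b * y - y * b) * q)) = F * (x * (b * (y * q))) - F * (x * (y * (b * q))) := by
      noncomm_ring
    rw [e1, e2, Fb, bq]; simp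
  -- b commutes with X
  have hcX : ∀ x, Xd L s p q x → b * x - x * b = 0 := by
    intro x hx
    by_contra hx0
    obtain ⟨x', hx'd⟩ : ∃ x', x' = b * x - x * b := ⟨_, rfl⟩
    have hx' : Xd L s p q x' := by rw [hx'd]; exact hX x hx
    rw [← hx'd] at hx0
    obtain ⟨y, hy, hy1⟩ : ∃ y, Yd L s p q y ∧ pr F (rk E : K) x' y = 1 := by
      by_contra hne
      push Not at hne
      apply hx0
      refine h.ndX hx' ?_
      intro y hy
      by_contra h0
      apply hne _ (hy.smul (pr F (rk E : K) x' y)⁻¹)
      rw [map_smul, smul_eq_mul, inv_mul_cancel₀ h0]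
    obtain ⟨g, hg⟩ : ∃ g, g = F * (x' * (y * q)) := ⟨_, rfl⟩
    -- (1)
    have r1 : ∀ w, Yd L s p q w → F * (x' * (w * q)) = pr F (rk E : K) x' w • g := by
      intro w hw
      have a1 : g * (F * (x' * (w * q))) = F * (x' * (w * q)) := by
        have := h.relX hx' hx' hy w
        rw [hy1, one_smul, ← hg, ← two_smul K, ← two_smul K] at this
        exact smul_right_injective _ (two_ne_zero) this
      have hw' := hY w hw
      have a2 := h.relY x' hx hy hw'
      have a3 : F * (x' * ((b * w - w * b) * q)) = 0 := by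
        have e1 := hAi x (b * w - w * b)
        rw [twice w hw.t, zero_mul, mul_zero, mul_zero, neg_zero, ← hx'd] at e1
        exact e1
      have a4 : F * (x * ((b * w - w * b) * q)) = -(F * (x' * (w * q))) := by
        have e1 := hAi x w
        rw [← hx'd] at e1
        rw [e1, neg_neg]
      have a5 : pr F (rk E : K) x (b * w - w * b) = - pr F (rk E : K) x' w := by
        rw [hx'd, hinv x w hx hw, neg_neg]
      rw [a3, a4, a5, ← hg, zero_mul, add_zero, smul_zero, add_zero, mul_neg, a1, neg_smul] at a2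
      exact neg_injective a2
    -- (2)
    have r2 : ∀ z w, Xd L s p q z → Yd L s p q w →
        F * (z * (w * q)) * g = F * (z * (w * q)) := by
      have r0 : ∀ z w, Xd L s p q z → Yd L s p q w →
          F * (z * (w * q)) * g + pr F (rk E : K) x' w • (F * (z * (y * q)) * g)
            = F * (z * (w * q)) + pr F (rk E : K) x' w • (F * (z * (y * q))) := by
        intro z w hz hw
        have := h.relY z hx' hw hy
        rw [hy1, one_smul, r1 w hw, ← hg, mul_smul_comm] at this
        exact this
      have r00 : ∀ z, Xd L s p q z → F * (z * (y * q)) * g = F * (z * (y * q)) := by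
        intro z hz
        have := r0 z y hz hy
        rw [hy1, one_smul, one_smul, ← two_smul K, ← two_smul K] at this
        exact smul_right_injective _ (two_ne_zero) this
      intro z w hz hw
      have := r0 z w hz hw
      rw [r00 z hz] at this
      exact add_right_cancel this
    -- (3)
    have r3 : ∀ z w, Xd L s p q z → Yd L s p q w →
        F * (z * (w * q)) + pr F (rk E : K) x' w • (g * (F * (z * (y * q))))
          = pr F (rk E : K) z w • g + pr F (rk E : K) x' w • (F * (z * (y * q))) := by
      intro z w hz hw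
      have := h.relX hz hx' hw y
      rw [r1 w hw, ← hg, r2 z w hz hw, smul_mul_assoc] at this
      exact this
    have hqg : q * g = g := by rw [hg, ← mul_assoc, D.qF]
    have hqA : ∀ x y, q * (F * (x * (y * q))) = F * (x * (y * q)) := by
      intro x y
      rw [← mul_assoc, D.qF]
    have hAq : ∀ x y, F * (x * (y * q)) * q = F * (x * (y * q)) := by
      intro x y
      simp only [mul_assoc, D.toTri.qq]
    -- the common kernel
    let U' : Submodule K V :=
      { carrier := {u | q u = u ∧ ∀ z w, Xd L s p q z → Yd L s p q w → (F * (z * (w * q))) u = 0}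
        zero_mem' := ⟨map_zero _, fun _ _ _ _ => map_zero _⟩
        add_mem' := by
          rintro a c ⟨ha, ha'⟩ ⟨hc, hc'⟩
          exact ⟨by rw [map_add, ha, hc], fun z w hz hw => by
            rw [map_add, ha' z w hz hw, hc' z w hz hw, add_zero]⟩
        smul_mem' := by
          rintro c a ⟨ha, ha'⟩
          exact ⟨by rw [map_smul, ha], fun z w hz hw => by rw [map_smul, ha' z w hz hw, smul_zero]⟩ }
    have hst : ∀ t t', T1 L p q t → T1 L p q t' → ∀ u ∈ U', F (t (t' u)) ∈ U' := by
      intro t t' ht ht' u hu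
      obtain ⟨x, y, hx, hy, rfl⟩ := h.dec ht
      obtain ⟨a, d, ha, hd, rfl⟩ := h.dec ht'
      have e := LinearMap.congr_fun (h.Ftt hx hy ha hd) u
      simp only [LinearMap.sub_apply, LinearMap.add_apply (F * (x * (d * q))), LinearMap.smul_apply,
        hu.2 x d hx hd, hu.2 a y ha hy, hu.1, zero_add, zero_sub] at e
      have e2 : (F * ((x + y) * ((a + d) * q))) u = F ((x + y) ((a + d) u)) := by
        show F ((x + y) ((a + d) (q u))) = _
        rw [hu.1]
      rw [← e2, e]
      exact U'.neg_mem (U'.smul_mem _ hu)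
    apply hr
    by_cases hU : ∃ u₀ ∈ U', u₀ ≠ 0
    · obtain ⟨u₀, hu₀, hu₀0⟩ := hU
      have hall := h.S.irrU D.toTri h.E0 U' (fun u hu => hu.1) hst hu₀ hu₀0
      refine h.rk_one ?_
      intro z w hz hw
      refine ⟨0, ?_⟩
      rw [zero_smul, ← hAq]
      ext v
      exact (hall v).2 z w hz hw
    · push Not at hU
      have hgq : g = q := by
        have : q - g = 0 := by
          ext v
          refine hU _ ⟨?_, ?_⟩
          · have : q * (q - g) = q - g := by rw [mul_sub, D.toTri.qq, hqg]
            exact LinearMap.congr_fun this v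
          · intro z w hz hw
            have : F * (z * (w * q)) * (q - g) = 0 := by
              rw [mul_sub, hAq, r2 z w hz hw, sub_self]
            exact LinearMap.congr_fun this v
        exact (sub_eq_zero.mp this).symm
      refine h.rk_one ?_
      intro z w hz hw
      refine ⟨pr F (rk E : K) z w, ?_⟩
      have := r3 z w hz hw
      rw [hgq, hqA] at this
      exact add_right_cancel this
  have hcY : ∀ y, Yd L s p q y → b * y - y * b = 0 := by
    intro y hy
    refine h.ndY (hY y hy) ?_
    intro x hx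
    have := hinv x y hx hy
    rw [hcX x hx, map_zero, LinearMap.zero_apply] at this
    exact neg_eq_zero.mp this.symm
  have hcT : ∀ t, T1 L p q t → b * t = t * b := by
    intro t ht
    obtain ⟨x, y, hx, hy, rfl⟩ := h.dec ht
    rw [mul_add, add_mul, sub_eq_zero.mp (hcX x hx), sub_eq_zero.mp (hcY y hy)]
  refine h.S.cenN D.toTri h.E0 ?_ ⟨2, by rw [pow_two, bb]⟩
  intro n hn
  cases hn with
  | e => rw [bE, Eb]
  | f => rw [bF, Fb]
  | x ht => exact hcT _ ht
  | y hw =>
    have hb := hw.back D.toTri
    have hg := hcT _ (D.toTri.gE hw)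
    obtain ⟨g, hgd⟩ : ∃ g, g = n * E - E * n := ⟨_, rfl⟩
    rw [← hgd] at hb hg
    rw [hb]
    have c1 : Commute b F := by show b * F = F * b; rw [bF, Fb]
    have c2 : Commute b g := hg
    exact (((c1.mul_right c2).sub_right (c2.mul_right c1)).neg_right).eq

end PA

end Pool.Agent.OU
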