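import Pool.Agent.Lib_helper48.OU.U13

/-! No second pair: all elements with square zero have the same rank. -/

set_option linter.unusedSectionVars false
set_option linter.unusedSimpArgs false

namespace Pool.Agent.OU

open Module Pool.Agent.OT

variable {K : Type*} [Field K] [CharZero K] [IsAlgClosed K]
variable {V : Type*} [AddCommGroup V] [Module K V] [FiniteDimensional K V]
variable {L : Submodule K (Module.End K V)}
variable {E F p q s x y z w b : Module.End K V} {κ : K}

/-- Conjugation by 1 + z. -/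
def cj (z x : Module.End K V) : Module.End K V := (1 + z) * x * (1 - z)

theorem cj_mul (hz : z * z = 0) (x y : Module.End K V) : cj z x * cj z y = cj z (x * y) := by
  have h1 : (1 - z) * (1 + z) = 1 := by
    have : (1 - z) * (1 + z) = 1 - z * z := by noncomm_ring
    rw [this, hz, sub_zero]
  have : cj z x * cj z y = (1 + z) * x * ((1 - z) * (1 + z)) * y * (1 - z) := by
    simp only [cj, mul_assoc]
  rw [this, h1, mul_one]
  simp only [cj, mul_assoc]

theorem cj_neg (hz : z * z = 0) (x : Module.End K V) : cj z (cj (-z) x) = x := by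
  have h1 : (1 + z) * (1 - z) = 1 := by
    have : (1 + z) * (1 - z) = 1 - z * z := by noncomm_ring
    rw [this, hz, sub_zero]
  have : cj z (cj (-z) x) = ((1 + z) * (1 - z)) * x * ((1 + z) * (1 - z)) := by
    simp only [cj, mul_assoc, sub_neg_eq_add, ← sub_eq_add_neg]
  rw [this, h1, one_mul, mul_one]

theorem cj_neg' (hz : z * z = 0) (x : Module.End K V) : cj (-z) (cj z x) = x := by
  have := cj_neg (z := -z) (by rw [neg_mul_neg, hz]) x
  rwa [neg_neg] at this

theorem cj_smul (c : K) (x : Module.End K V) : cj z (c • x) = c • cj z x := by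
  simp only [cj, mul_smul_comm, smul_mul_assoc]

theorem cj_add (x y : Module.End K V) : cj z (x + y) = cj z x + cj z y := by
  simp only [cj, mul_add, add_mul]

theorem cj_zero : cj z (0 : Module.End K V) = 0 := by simp only [cj, mul_zero, zero_mul]

theorem cj_nneg (x : Module.End K V) : cj z (-x) = -cj z x := by
  simp only [cj, mul_neg, neg_mul]

theorem cj_mem (hL : Good L) (hz : z ∈ L) (hzz : z * z = 0) (hx : x ∈ L) : cj z x ∈ L :=
  conj_mem hL hz hzz hx

theorem cj_rk (hz : z * z = 0) (x : Module.End K V) : rk (cj z x) = rk x := by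
  apply le_antisymm (rk_sandwich _ _ _)
  conv_lhs => rw [← cj_neg' hz x]
  exact rk_sandwich _ _ _

theorem cj_s (hs : s * z = z * s) (x : Module.End K V) : s * cj z x = cj z (s * x) := by
  have h : s * (1 + z) = (1 + z) * s := by rw [mul_add, add_mul, mul_one, one_mul, hs]
  simp only [cj]
  rw [← mul_assoc, ← mul_assoc, h, mul_assoc (1 + z) s x]

theorem cj_s' (hs : s * z = z * s) (x : Module.End K V) : cj z x * s = cj z (x * s) := by
  have h : (1 - z) * s = s * (1 - z) := by rw [mul_sub, sub_mul, mul_one, one_mul, hs]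
  simp only [cj]
  rw [mul_assoc, h, ← mul_assoc, mul_assoc (1 + z) x s]

theorem rk_smul {c : K} (hc : c ≠ 0) (x : Module.End K V) : rk (c • x) = rk x := by
  apply le_antisymm
  · have : c • x = (c • (1 : Module.End K V)) * x * 1 := by rw [mul_one, smul_mul_assoc, one_mul]
    rw [this]; exact rk_sandwich _ _ _
  · have : x = (c⁻¹ • (1 : Module.End K V)) * (c • x) * 1 := by
      rw [mul_one, smul_mul_smul_comm, inv_mul_cancel₀ hc, one_smul, one_mul]
    conv_lhs => rw [this]
    exact rk_sandwich _ _ _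

namespace PA

theorem conj (h : PA L s κ E F p q) (hz : z ∈ L) (hzz : z * z = 0) (hs : s * z = z * s) :
    PA L s κ (cj z E) (cj z F) (cj z p) (cj z q) := by
  have hL := h.S.good
  have hnz : -z ∈ L := L.neg_mem hz
  have hnzz : (-z) * (-z) = 0 := by rw [neg_mul_neg, hzz]
  have hsn : s * (-z) = (-z) * s := by rw [mul_neg, neg_mul, hs]
  have back : ∀ {a b : Module.End K V}, cj z a * b = b → a * cj (-z) b = cj (-z) b := by
    intro a b hab
    have := congrArg (cj (-z)) hab
    rw [← cj_mul hnzz, cj_neg' hzz] at this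
    exact this
  have back' : ∀ {a b : Module.End K V}, b * cj z a = b → cj (-z) b * a = cj (-z) b := by
    intro a b hab
    have := congrArg (cj (-z)) hab
    rw [← cj_mul hnzz, cj_neg' hzz] at this
    exact this
  have back0 : ∀ {a b : Module.End K V}, cj z a * b = 0 → a * cj (-z) b = 0 := by
    intro a b hab
    have := congrArg (cj (-z)) hab
    rw [← cj_mul hnzz, cj_neg' hzz, cj_zero] at this
    exact this
  have back0' : ∀ {a b : Module.End K V}, b * cj z a = 0 → cj (-z) b * a = 0 := by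
    intro a b hab
    have := congrArg (cj (-z)) hab
    rw [← cj_mul hnzz, cj_neg' hzz, cj_zero] at this
    exact this
  exact
    { brk := h.brk
      hE := cj_mem hL hz hzz h.hE
      hF := cj_mem hL hz hzz h.hF
      EF := by rw [cj_mul hzz, h.EF]
      FE := by rw [cj_mul hzz, h.FE]
      EE := by rw [cj_mul hzz, h.EE, cj_zero]
      FF := by rw [cj_mul hzz, h.FF, cj_zero]
      pE := by rw [cj_mul hzz, h.pE]
      Eq := by rw [cj_mul hzz, h.Eq]
      qF := by rw [cj_mul hzz, h.qF]
      Fp := by rw [cj_mul hzz, h.Fp]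
      top := by
        intro a ha h1 h2
        obtain ⟨c, hc⟩ := h.top _ (cj_mem hL hnz hnzz ha) (back h1) (back' h2)
        exact ⟨c, by rw [← cj_neg hzz a, hc, cj_smul]⟩
      bot := by
        intro a ha h1 h2
        obtain ⟨c, hc⟩ := h.bot _ (cj_mem hL hnz hnzz ha) (back h1) (back' h2)
        exact ⟨c, by rw [← cj_neg hzz a, hc, cj_smul]⟩
      hs := h.hs
      ss := h.ss
      sE := by rw [cj_s hs, h.sE]
      Es := by rw [cj_s' hs, h.Es, cj_nneg]
      sF := by rw [cj_s hs, h.sF, cj_nneg]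
      Fs := by rw [cj_s' hs, h.Fs]
      S := h.S
      E0 := by
        intro h0
        apply h.E0
        rw [← cj_neg' hzz E, h0, cj_zero]
      hA := by
        intro y hy h1 h2 h3 h4
        have := h.hA _ (cj_mem hL hnz hnzz hy) (by rw [cj_s hsn, h1, cj_nneg])
          (by rw [cj_s' hsn, h2]) (back0 h3) (back0' h4)
        rw [← cj_neg hzz y, this, cj_zero] }

theorem smul (h : PA L s κ E F p q) {c : K} (hc : c ≠ 0) : PA L s κ (c • E) (c⁻¹ • F) p q :=
  { brk := h.brk
    hE := L.smul_mem _ h.hE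
    hF := L.smul_mem _ h.hF
    EF := by rw [smul_mul_smul_comm, h.EF, mul_inv_cancel₀ hc, one_smul]
    FE := by rw [smul_mul_smul_comm, h.FE, inv_mul_cancel₀ hc, one_smul]
    EE := by rw [smul_mul_smul_comm, h.EE, smul_zero]
    FF := by rw [smul_mul_smul_comm, h.FF, smul_zero]
    pE := by rw [mul_smul_comm, h.pE]
    Eq := by rw [smul_mul_assoc, h.Eq]
    qF := by rw [mul_smul_comm, h.qF]
    Fp := by rw [smul_mul_assoc, h.Fp]
    top := by
      intro a ha h1 h2
      obtain ⟨d, hd⟩ := h.top a ha h1 h2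
      exact ⟨d * c⁻¹, by rw [smul_smul, mul_assoc, inv_mul_cancel₀ hc, mul_one, hd]⟩
    bot := by
      intro a ha h1 h2
      obtain ⟨d, hd⟩ := h.bot a ha h1 h2
      exact ⟨d * c, by rw [smul_smul, mul_assoc, mul_inv_cancel₀ hc, mul_one, hd]⟩
    hs := h.hs
    ss := h.ss
    sE := by rw [mul_smul_comm, h.sE]
    Es := by rw [smul_mul_assoc, h.Es, smul_neg]
    sF := by rw [mul_smul_comm, h.sF, smul_neg]
    Fs := by rw [smul_mul_assoc, h.Fs]
    S := h.S
    E0 := smul_ne_zero hc h.E0
    hA := h.hA }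

theorem neg (h : PA L s κ E F p q) : PA L (-s) (-κ) F E q p :=
  { brk := h.brk
    hE := h.hF
    hF := h.hE
    EF := h.FE
    FE := h.EF
    EE := h.FF
    FF := h.EE
    pE := h.qF
    Eq := h.Fp
    qF := h.pE
    Fp := h.Eq
    top := h.bot
    bot := h.top
    hs := h.toSDU.inv.neg.sL
    ss := by rw [neg_mul_neg, h.ss]
    sE := by rw [neg_mul, h.sF, neg_neg]
    Es := by rw [mul_neg, h.Fs]
    sF := by rw [neg_mul, h.sE]
    Fs := by rw [mul_neg, h.Es, neg_neg]
    S := h.S
    E0 := by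
      intro h0
      apply h.E0
      rw [← h.pE, ← h.EF, h0, mul_zero, zero_mul]
    hA := by
      intro z hz h1 h2 h3 h4
      refine h.hA' ⟨hz, ?_, ?_⟩ h3 h4
      · rw [neg_mul] at h1; exact neg_injective h1
      · rw [mul_neg] at h2; exact neg_eq_iff_eq_neg.mp h2 }

theorem rkF (h : PA L s κ E F p q) : rk F = rk E := by
  apply le_antisymm
  · have : F = F * E * F := by rw [h.FE, h.qF]
    conv_lhs => rw [this]
    exact rk_sandwich _ _ _
  · have : E = E * F * E := by rw [h.EF, h.pE]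
    conv_lhs => rw [this]
    exact rk_sandwich _ _ _

/-- Every nonzero element of s-degree one belongs to an adapted pair. -/
theorem all (h : PA L s κ E F p q) (hx : J1 L s x) (x0 : x ≠ 0) :
    ∃ F' p' q', PA L s κ x F' p' q' ∧ rk x = rk E := by
  have D := h.toSDU
  have hL := h.S.good
  obtain ⟨o, ho⟩ : ∃ o, o = 1 - p - q := ⟨_, rfl⟩
  have hpp := D.toTri.pp
  have hqq := D.toTri.qq
  have hpq := D.toTri.pq
  have hqp := D.toTri.qp
  have hop : o * p = 0 := by rw [ho]; simp only [sub_mul, one_mul, hpp, hqp]; abel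
  have hpo : p * o = 0 := by rw [ho]; simp only [mul_sub, mul_one, hpp, hpq]; abel
  have hqo : q * o = 0 := by rw [ho]; simp only [mul_sub, mul_one, hqq, hqp]; abel
  have hoq : o * q = 0 := by rw [ho]; simp only [sub_mul, one_mul, hqq, hpq]; abel
  have so : s * o = o * s := by
    rw [ho, mul_sub, mul_sub, sub_mul, sub_mul, D.sp, D.ps, D.sq, D.qs, mul_one, one_mul]
  have qx : q * x = 0 := by
    apply zero_of_eq_neg
    nth_rewrite 1 [← hx.sx]
    rw [← mul_assoc, D.qs, neg_mul]
  have xp : x * p = 0 := by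
    apply zero_of_eq_neg
    nth_rewrite 1 [← D.sp]
    rw [← mul_assoc, hx.xs, neg_mul]
  have hcp := comp_pq hL.brk hpp hqq hpq hqp ho D.toTri.hH hx.mem
  have hoxo : o * x * o = 0 := by
    refine h.hA' ⟨?_, ?_, ?_⟩ ?_ ?_
    · have e1 : p * x * p + o * x * o + q * x * q = o * x * o := by
        rw [qx, zero_mul, add_zero, mul_assoc p x p, xp, mul_zero, zero_add]
      rw [← e1]; exact hcp.2.2.1
    · rw [← mul_assoc, ← mul_assoc, so, mul_assoc o s x, hx.sx]
    · rw [mul_assoc, ← so, ← mul_assoc, mul_assoc o x s, hx.xs]; noncomm_ring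
    · rw [← mul_assoc, ← mul_assoc, hpo, zero_mul, zero_mul]
    · rw [mul_assoc, hoq, mul_zero]
  obtain ⟨c, hc⟩ := D.top _ hcp.1 (by rw [← mul_assoc, ← mul_assoc, hpp]) (by rw [mul_assoc, hqq])
  obtain ⟨x₁, hx₁⟩ : ∃ x₁, x₁ = p * x * o + o * x * q := ⟨_, rfl⟩
  have hxd : x = c • E + x₁ := by
    rw [← hc, hx₁]
    have hsum : p + o + q = 1 := by rw [ho]; abel
    have e1 : x = (p + o + q) * x * (p + o + q) := by rw [hsum, one_mul, mul_one]
    have e2 : (p + o + q) * x * (p + o + q) = p * (x * p) + p * x * o + p * x * q + o * (x * p)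
        + o * x * o + o * x * q + (q * x) * p + (q * x) * o + (q * x) * q := by noncomm_ring
    rw [e2, xp, qx, hoxo] at e1
    simp only [mul_zero, zero_mul, add_zero, zero_add] at e1
    nth_rewrite 1 [e1]
    abel
  have hXd : Xd L s p q x₁ := by
    have hm : x₁ = x - c • E := by rw [hxd]; abel
    refine ⟨⟨?_, ?_, ?_, ?_⟩, ?_, ?_⟩
    · rw [hx₁]; exact hcp.2.1
    · rw [hx₁]
      have e1 : p * (p * x * o + o * x * q) = (p * p) * x * o + (p * o) * x * q := by noncomm_ring
      have e2 : (p * x * o + o * x * q) * q = p * x * (o * q) + o * x * (q * q) := by noncomm_ring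
      rw [e1, e2, hpp, hpo, hoq, hqq]; simp
    · rw [hm, mul_sub, qx, mul_smul_comm, D.toTri.qE, smul_zero, sub_zero]
    · rw [hm, sub_mul, xp, smul_mul_assoc, D.toTri.Ep, smul_zero, sub_zero]
    · rw [hm, mul_sub, hx.sx, mul_smul_comm, D.sE]
    · rw [hm, sub_mul, hx.xs, smul_mul_assoc, D.Es, smul_neg]; abel
  -- the case of a nonzero component
  have key : ∀ (c : K) (x₁ : Module.End K V), c ≠ 0 → Xd L s p q x₁ →
      ∃ F' p' q', PA L s κ (c • E + x₁) F' p' q' ∧ rk (c • E + x₁) = rk E := by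
    intro c x₁ hc0 hx₁
    obtain ⟨u, hu⟩ : ∃ u, u = c⁻¹ • x₁ := ⟨_, rfl⟩
    have hux : Xd L s p q u := by rw [hu]; exact hx₁.smul _
    have uE : u * E = 0 := by rw [← D.pE, ← mul_assoc, hux.t.xp, zero_mul]
    have Eu : E * u = 0 := by rw [← D.Eq, mul_assoc, hux.t.qx, mul_zero]
    have uu : u * u = 0 := XX hux hux
    have uFu : u * F * u = 0 := by
      have := h.xFx hux hux
      rw [← two_smul K] at this
      exact (smul_eq_zero.mp this).resolve_left two_ne_zero
    obtain ⟨z, hz⟩ : ∃ z, z = u * F - F * u := ⟨_, rfl⟩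
    have hzL : z ∈ L := by rw [hz]; exact D.brk u hux.t.mem F D.hF
    have hzz : z * z = 0 := by
      have e : z * z = (u * F * u) * F - u * (F * F) * u - F * (u * u) * F + F * (u * F * u) := by
        rw [hz]; noncomm_ring
      rw [e, uFu, D.FF, uu]; simp
    have hsz : s * z = z * s := by
      have a1 : s * z = (s * u) * F - (s * F) * u := by rw [hz]; noncomm_ring
      have a2 : z * s = u * (F * s) - F * (u * s) := by rw [hz]; noncomm_ring
      rw [a1, a2, hux.sx, D.sF, D.Fs, hux.xs]; noncomm_ring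
    have hcE : cj z E = E + u := by
      have e : cj z E = E + (u * (F * E) - F * (u * E) - (E * u) * F + (E * F) * u)
          - (u * (F * E) * (u * F - F * u) - F * (u * E) * (u * F - F * u)) := by
        simp only [cj]; rw [hz]; noncomm_ring
      rw [e, uE, Eu, D.FE, D.EF]
      have e2 : u * q * (u * F - F * u) - F * 0 * (u * F - F * u) = u * (q * u) * F - u * (q * F) * u := by
        noncomm_ring
      rw [e2, hux.t.qx, D.qF, uFu, hux.t.px]; simp
    have h1 := (h.conj hzL hzz hsz).smul hc0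
    rw [hcE, smul_add, hu, smul_smul, mul_inv_cancel₀ hc0, one_smul] at h1
    refine ⟨_, _, _, h1, ?_⟩
    have e3 : c • E + x₁ = c • cj z E := by
      rw [hcE, smul_add, hu, smul_smul, mul_inv_cancel₀ hc0, one_smul]
    rw [e3, rk_smul hc0, cj_rk hzz]
  by_cases hc0 : c = 0
  · rw [hc0, zero_smul, zero_add] at hxd
    rw [← hxd] at hXd
    obtain ⟨y, hy, hy0⟩ : ∃ y, Yd L s p q y ∧ pr F (rk E : K) x y ≠ 0 := by
      by_contra hne
      push Not at hne
      exact x0 (h.ndX hXd hne)
    have yy := h.YY hy hy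
    have Ey : E * y = 0 := by rw [← D.Eq, mul_assoc, hy.t.qx, mul_zero]
    have hyx : y * x = x * y - pr F (rk E : K) x y • E := by
      rw [← hXd.t.brk_eq D.toTri h.E0 hy.t]; abel
    have e1 : cj y x = (-pr F (rk E : K) x y) • E + x := by
      have e : cj y x = x + (y * x - x * y) - (y * x) * y := by simp only [cj]; noncomm_ring
      rw [e, hyx, sub_mul, mul_assoc x y y, yy, smul_mul_assoc, Ey]
      simp only [mul_zero, smul_zero, sub_zero, neg_smul]
      abel
    obtain ⟨F', p', q', h1, h2⟩ := key (-pr F (rk E : K) x y) x (neg_ne_zero.mpr hy0) hXd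
    rw [← e1] at h1 h2
    have hny : (-y) * (-y) = 0 := by rw [neg_mul_neg, yy]
    have h3 := h1.conj (L.neg_mem hy.t.mem) hny (by rw [mul_neg, neg_mul, hy.sy])
    rw [cj_neg' yy] at h3
    exact ⟨_, _, _, h3, by rw [← h2, cj_rk yy]⟩
  · obtain ⟨F', p', q', h1, h2⟩ := key c x₁ hc0 hXd
    rw [← hxd] at h1 h2
    exact ⟨F', p', q', h1, h2⟩

theorem hsc (h : PA L s κ E F p q) (c : K) : s ≠ c • 1 := by
  intro hs
  apply h.E0
  apply zero_of_eq_neg
  have h1 := h.sE
  have h2 := h.Es
  rw [hs, smul_mul_assoc, one_mul] at h1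
  rw [hs, mul_smul_comm, mul_one, h1] at h2
  exact h2

/-- Square zero elements whose component of s-degree one is E. -/
theorem red (h : PA L s κ E F p q) (hr : rk E ≠ 1) {N : Module.End K V} (hN : N ∈ L)
    (hNN : N * N = 0) (hx : (1 + s) * N * (1 - s) = (4 : K) • E) : rk N = rk E := by
  have D := h.toSDU
  have hL := h.S.good
  have hI := D.inv
  have hss := D.ss
  have hpp := D.toTri.pp
  have hqq := D.toTri.qq
  have hpq := D.toTri.pq
  have hqp := D.toTri.qp
  -- general facts about elements of s-degree minus one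
  have facts : ∀ y, J1 L (-s) y → s * y = -y ∧ y * s = y ∧ p * y = 0 ∧ y * q = 0 := by
    intro y hy
    have sy : s * y = -y := by
      have := hy.sx
      rw [neg_mul] at this
      exact neg_eq_iff_eq_neg.mp this
    have ys : y * s = y := by
      have := hy.xs
      rw [mul_neg] at this
      exact neg_injective this
    refine ⟨sy, ys, ?_, ?_⟩
    · apply zero_of_eq_neg
      nth_rewrite 1 [← D.ps]
      rw [mul_assoc, sy, mul_neg]
    · apply zero_of_eq_neg
      nth_rewrite 1 [← ys]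
      rw [mul_assoc, D.sq, mul_neg]
  -- the relation in degree one
  have rel : ∀ y z, J1 L (-s) y → s * z = z * s → (E + y + z) * (E + y + z) = 0 →
      E * z + z * E = 0 := by
    intro y z hy hz hsq
    obtain ⟨sy, ys, -, -⟩ := facts y hy
    have e1 : (1 + s) * (E + y + z) = (2 : K) • E + z * (1 + s) := by
      have : (1 + s) * (E + y + z) = E + s * E + (y + s * y) + (z + s * z) := by noncomm_ring
      rw [this, D.sE, sy, hz, two_smul]; noncomm_ring
    have e2 : (E + y + z) * (1 - s) = (2 : K) • E + z * (1 - s) := by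
      have : (E + y + z) * (1 - s) = E - E * s + (y - y * s) + (z - z * s) := by noncomm_ring
      rw [this, D.Es, ys, two_smul]; noncomm_ring
    have e3 : (1 + s) * (E + y + z) * ((E + y + z) * (1 - s)) = 0 := by
      have : (1 + s) * (E + y + z) * ((E + y + z) * (1 - s))
          = (1 + s) * ((E + y + z) * (E + y + z)) * (1 - s) := by simp only [mul_assoc]
      rw [this, hsq, mul_zero, zero_mul]
    rw [e1, e2] at e3
    have e4 : ((2 : K) • E + z * (1 + s)) * ((2 : K) • E + z * (1 - s)) = (4 : K) • (E * z + z * E) := by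
      have a1 : E * (z * (1 - s)) = (2 : K) • (E * z) := by
        have : E * (z * (1 - s)) = E * z - E * (z * s) := by noncomm_ring
        rw [this, ← hz, ← mul_assoc, D.Es, two_smul]; noncomm_ring
      have a2 : z * (1 + s) * E = (2 : K) • (z * E) := by
        have : z * (1 + s) * E = z * E + z * (s * E) := by noncomm_ring
        rw [this, D.sE, two_smul]
      have a3 : z * (1 + s) * (z * (1 - s)) = 0 := by
        have : z * (1 + s) * (z * (1 - s)) = z * z * (1 - s * s) + z * (s * z - z * s) * (1 - s) := by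
          noncomm_ring
        rw [this, hss, hz]; simp
      rw [mul_add, add_mul, add_mul, smul_mul_smul_comm, D.EE, smul_zero, zero_add, mul_smul_comm, a2,
        smul_mul_assoc, a1, a3, add_zero, smul_smul, smul_smul, ← smul_add, add_comm (z * E)]
      norm_num
    rw [e4] at e3
    exact (smul_eq_zero.mp e3).resolve_left (by norm_num)
  -- decomposition
  obtain ⟨j, y, z, hj, hy, hzL, hzs, hNd⟩ := hI.dec hL hN
  obtain ⟨sy, ys, py, yq⟩ := facts y hy
  have hjE : j = E := by
    have e : (1 + s) * N * (1 - s) = (4 : K) • j := by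
      have a1 : (1 + s) * (j + y + z) = (2 : K) • j + z * (1 + s) := by
        have : (1 + s) * (j + y + z) = j + s * j + (y + s * y) + (z + s * z) := by noncomm_ring
        rw [this, hj.sx, sy, hzs, two_smul]; noncomm_ring
      have a2 : j * (1 - s) = (2 : K) • j := by rw [mul_sub, mul_one, hj.xs, two_smul]; abel
      have a3 : z * (1 + s) * (1 - s) = z * (1 - s * s) := by noncomm_ring
      rw [hNd, a1, add_mul, smul_mul_assoc, a2, a3, hss, sub_self, mul_zero, add_zero, smul_smul]
      norm_num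
    rw [hx] at e
    exact (smul_right_injective _ (by norm_num : (4 : K) ≠ 0) e).symm
  rw [hjE] at hNd
  have hEz := rel y z hy hzs (by rw [← hNd, hNN])
  -- z has no part of degree minus one
  obtain ⟨o, ho⟩ : ∃ o, o = 1 - p - q := ⟨_, rfl⟩
  have hop : o * p = 0 := by rw [ho]; simp only [sub_mul, one_mul, hpp, hqp]; abel
  have hpo : p * o = 0 := by rw [ho]; simp only [mul_sub, mul_one, hpp, hpq]; abel
  have hqo : q * o = 0 := by rw [ho]; simp only [mul_sub, mul_one, hqq, hqp]; abel
  have hoq : o * q = 0 := by rw [ho]; simp only [sub_mul, one_mul, hqq, hpq]; abel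
  have hoE : o * E = 0 := by rw [← D.pE, ← mul_assoc, hop, zero_mul]
  have hEo : E * o = 0 := by rw [← D.Eq, mul_assoc, hqo, mul_zero]
  have so : s * o = o * s := by
    rw [ho, mul_sub, mul_sub, sub_mul, sub_mul, D.sp, D.ps, D.sq, D.qs, mul_one, one_mul]
  have hcp := comp_pq hL.brk hpp hqq hpq hqp ho D.toTri.hH hzL
  have ozp : o * z * p = 0 := by
    have h1 : o * (E * z + z * E) * F = 0 := by rw [hEz, mul_zero, zero_mul]
    have e : o * (E * z + z * E) * F = (o * E) * z * F + o * z * (E * F) := by noncomm_ring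
    rw [e, hoE, D.EF, zero_mul, zero_mul, zero_add] at h1
    exact h1
  have qzo : q * z * o = 0 := by
    have h1 : F * (E * z + z * E) * o = 0 := by rw [hEz, mul_zero, zero_mul]
    have e : F * (E * z + z * E) * o = (F * E) * z * o + F * z * (E * o) := by noncomm_ring
    rw [e, hEo, D.FE, mul_zero, add_zero] at h1
    exact h1
  have pzq : p * z * q = 0 := by
    apply zero_of_eq_neg
    nth_rewrite 1 [← D.ps]
    rw [mul_assoc p s z, hzs, ← mul_assoc, mul_assoc, D.sq, mul_neg]
  have qzp : q * z * p = 0 := by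
    apply zero_of_eq_neg
    nth_rewrite 2 [← D.sp]
    rw [← mul_assoc, mul_assoc q z s, ← hzs, ← mul_assoc q s z, D.qs]
    simp only [neg_mul, neg_neg]
  obtain ⟨z₁, hz₁⟩ : ∃ z₁, z₁ = p * z * o + o * z * q := ⟨_, rfl⟩
  obtain ⟨z₀, hz₀⟩ : ∃ z₀, z₀ = p * z * p + o * z * o + q * z * q := ⟨_, rfl⟩
  have hzd : z = z₁ + z₀ := by
    have hsum : p + o + q = 1 := by rw [ho]; abel
    have e1 : z = (p + o + q) * z * (p + o + q) := by rw [hsum, one_mul, mul_one]
    have e2 : (p + o + q) * z * (p + o + q) = p * z * p + p * z * o + p * z * q + o * z * p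
        + o * z * o + o * z * q + q * z * p + q * z * o + q * z * q := by noncomm_ring
    rw [e2, ozp, qzo, pzq, qzp] at e1
    rw [hz₁, hz₀]
    nth_rewrite 1 [e1]
    abel
  have hY : T1 L p q z₁ := by
    refine ⟨by rw [hz₁]; exact hcp.2.1, ?_, ?_, ?_⟩
    · rw [hz₁]
      have e1 : p * (p * z * o + o * z * q) = (p * p) * z * o + (p * o) * z * q := by noncomm_ring
      have e2 : (p * z * o + o * z * q) * q = p * z * (o * q) + o * z * (q * q) := by noncomm_ring
      rw [e1, e2, hpp, hpo, hoq, hqq]; simp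
    · rw [hz₁]
      have e1 : q * (p * z * o + o * z * q) = (q * p) * z * o + (q * o) * z * q := by noncomm_ring
      rw [e1, hqp, hqo]; simp
    · rw [hz₁]
      have e1 : (p * z * o + o * z * q) * p = p * z * (o * p) + o * z * (q * p) := by noncomm_ring
      rw [e1, hop, hqp]; simp
  have hz1s : s * z₁ = z₁ * s := by
    have a1 : s * (p * z * o) = p * z * o * s := by
      rw [mul_assoc (p * z) o s, ← so, ← mul_assoc (p * z), mul_assoc p z s, ← hzs, ← mul_assoc p s z,
        D.ps, ← mul_assoc s (p * z) o, ← mul_assoc s p z, D.sp]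
    have a2 : s * (o * z * q) = o * z * q * s := by
      rw [← mul_assoc, ← mul_assoc, so, mul_assoc o s z, hzs, ← mul_assoc, mul_assoc (o * z) s q, D.sq,
        mul_assoc (o * z) q s, D.qs]
    rw [hz₁, mul_add, add_mul, a1, a2]
  have hT0 : T0 L p q z₀ := by
    refine ⟨by rw [hz₀]; exact hcp.2.2.1, ?_, ?_⟩
    · have e1 : p * z₀ = (p * p) * z * p + (p * o) * z * o + (p * q) * z * q := by rw [hz₀]; noncomm_ring
      have e2 : z₀ * p = p * z * (p * p) + o * z * (o * p) + q * z * (q * p) := by rw [hz₀]; noncomm_ring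
      rw [e1, e2, hpp, hpo, hpq, hop, hqp]; simp
    · have e1 : q * z₀ = (q * p) * z * p + (q * o) * z * o + (q * q) * z * q := by rw [hz₀]; noncomm_ring
      have e2 : z₀ * q = p * z * (p * q) + o * z * (o * q) + q * z * (q * q) := by rw [hz₀]; noncomm_ring
      rw [e1, e2, hqq, hqo, hqp, hoq, hpq]; simp
  have hz0s : s * z₀ = z₀ * s := by
    have : z₀ = z - z₁ := by rw [hzd]; abel
    rw [this, mul_sub, sub_mul, hzs, hz1s]
  -- the conjugating element
  obtain ⟨c, hc⟩ := D.toTri.brkE hT0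
  obtain ⟨v, hv⟩ : ∃ v, v = (F * z₁ - z₁ * F) + (c / 2) • F := ⟨_, rfl⟩
  have hvJ : J1 L (-s) v := by
    refine ⟨?_, ?_, ?_⟩
    · rw [hv]
      exact L.add_mem (D.brk F D.hF z₁ hY.mem) (L.smul_mem _ D.hF)
    · have a1 : s * v = (s * F) * z₁ - (s * z₁) * F + (c / 2) • (s * F) := by
        rw [hv, mul_add, mul_smul_comm]; noncomm_ring
      rw [neg_mul, a1, hz1s, D.sF, mul_assoc z₁ s F, D.sF, hv, smul_neg]; noncomm_ring
    · have a1 : v * s = F * (z₁ * s) - z₁ * (F * s) + (c / 2) • (F * s) := by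
        rw [hv, add_mul, smul_mul_assoc]; noncomm_ring
      rw [mul_neg, a1, ← hz1s, D.Fs, ← mul_assoc F s z₁, D.Fs, hv]
  obtain ⟨sv, vs, pv, vq⟩ := facts v hvJ
  have vv : v * v = 0 := One.mul_zero_of hvJ.xs hvJ.sx
  have vy : v * y = 0 := One.mul_zero_of hvJ.xs hy.sx
  have yv : y * v = 0 := One.mul_zero_of hy.xs hvJ.sx
  have vzv : v * z * v = 0 := by
    apply zero_of_eq_neg
    nth_rewrite 1 [← vs]
    rw [mul_assoc v s z, hzs, ← mul_assoc, mul_assoc (v * z) s v, sv, mul_neg]
  have hvE : v * E - E * v = -z₁ - (c / 2) • (p - q) := by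
    have z1E : z₁ * E = 0 := by rw [← D.pE, ← mul_assoc, hY.xp, zero_mul]
    have Ez1 : E * z₁ = 0 := by rw [← D.Eq, mul_assoc, hY.qx, mul_zero]
    have e : v * E - E * v = F * (z₁ * E) - z₁ * (F * E) - (E * F) * z₁ + (E * z₁) * F
        + ((c / 2) • (F * E) - (c / 2) • (E * F)) := by
      rw [hv, add_mul, mul_add, smul_mul_assoc, mul_smul_comm]; noncomm_ring
    rw [e, z1E, Ez1, D.FE, D.EF, hY.px, mul_zero, zero_mul, smul_sub]
    abel
  obtain ⟨z₂, hz₂⟩ : ∃ z₂, z₂ = z₀ - (c / 2) • (p - q) := ⟨_, rfl⟩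
  obtain ⟨y₂, hy₂⟩ : ∃ y₂, y₂ = y + (v * z - z * v) - v * E * v := ⟨_, rfl⟩
  have hN2 : cj v N = E + y₂ + z₂ := by
    have e : cj v N = E + y + z + (v * E - E * v) + (v * y - y * v) + (v * z - z * v)
        - (v * E * v + v * (y * v) + v * z * v) := by
      rw [hNd]; simp only [cj]; noncomm_ring
    rw [e, hvE, vy, yv, vzv, mul_zero, hy₂, hz₂]
    nth_rewrite 1 [hzd]
    abel
  have hN2s : cj v N * cj v N = 0 := by rw [cj_mul vv, hNN, cj_zero]
  have hz2s : s * z₂ = z₂ * s := by
    rw [hz₂, mul_sub, sub_mul, hz0s, mul_smul_comm, smul_mul_assoc, mul_sub, sub_mul, D.sp, D.ps, D.sq,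
      D.qs]
  have hz2L : z₂ ∈ L := by
    rw [hz₂]; exact L.sub_mem hT0.mem (L.smul_mem _ D.toTri.hH)
  have hy2L : y₂ ∈ L := by
    have : y₂ = cj v N - E - z₂ := by rw [hN2]; abel
    rw [this]
    exact L.sub_mem (L.sub_mem (cj_mem hL hvJ.mem vv hN) D.hE) hz2L
  have sy2 : s * y₂ = -y₂ := by
    have e : s * y₂ = s * y + ((s * v) * z - (s * z) * v) - (s * v) * E * v := by rw [hy₂]; noncomm_ring
    rw [e, sy, sv, hzs, mul_assoc z s v, sv, hy₂]; noncomm_ring
  have y2s : y₂ * s = y₂ := by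
    have e : y₂ * s = y * s + (v * (z * s) - z * (v * s)) - v * E * (v * s) := by rw [hy₂]; noncomm_ring
    rw [e, ys, vs, ← hzs, ← mul_assoc v s z, vs, hy₂]
  have hy2J : J1 L (-s) y₂ := ⟨hy2L, by rw [neg_mul, sy2, neg_neg], by rw [mul_neg, y2s]⟩
  obtain ⟨-, -, py2, y2q⟩ := facts y₂ hy2J
  have hEz2 := rel y₂ z₂ hy2J hz2s (by rw [← hN2]; exact hN2s)
  have hz2E : z₂ * E = E * z₂ := by
    have pE2 : (p - q) * E = E := by rw [sub_mul, D.pE, D.toTri.qE, sub_zero]
    have Ep2 : E * (p - q) = -E := by rw [mul_sub, D.toTri.Ep, D.Eq, zero_sub]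
    have e : z₂ * E - E * z₂ = (z₀ * E - E * z₀) - (c / 2) • ((p - q) * E - E * (p - q)) := by
      rw [hz₂, sub_mul, mul_sub, smul_mul_assoc, mul_smul_comm, smul_sub]; abel
    rw [hc, pE2, Ep2] at e
    have e2 : c • E - (c / 2) • (E - -E) = 0 := by module
    rw [e2] at e
    exact sub_eq_zero.mp e
  have z2E : z₂ * E = 0 := by
    rw [← hz2E, ← two_smul K] at hEz2
    exact (smul_eq_zero.mp hEz2).resolve_left two_ne_zero
  have Ez2 : E * z₂ = 0 := by rw [← hz2E, z2E]
  have z2p : z₂ * p = 0 := by rw [← D.EF, ← mul_assoc, z2E, zero_mul]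
  have qz2 : q * z₂ = 0 := by rw [← D.FE, mul_assoc, Ez2, mul_zero]
  have pz2 : p * z₂ = 0 := by
    have : p * z₂ = z₂ * p := by
      rw [hz₂, mul_sub, sub_mul, hT0.pz, mul_smul_comm, smul_mul_assoc, mul_sub, sub_mul, hpp, hpq, hqp]
    rw [this, z2p]
  have z2q : z₂ * q = 0 := by
    have : q * z₂ = z₂ * q := by
      rw [hz₂, mul_sub, sub_mul, hT0.qz, mul_smul_comm, smul_mul_assoc, mul_sub, sub_mul, hqq, hpq, hqp]
    rw [← this, qz2]
  rw [hN2] at hN2s
  have Ey2 : E * y₂ = 0 := by
    have h1 : p * ((E + y₂ + z₂) * (E + y₂ + z₂)) = 0 := by rw [hN2s, mul_zero]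
    have e : p * ((E + y₂ + z₂) * (E + y₂ + z₂)) = (p * E) * E + (p * E) * y₂ + (p * E) * z₂
        + (p * y₂) * (E + y₂ + z₂) + (p * z₂) * (E + y₂ + z₂) := by noncomm_ring
    rw [e, D.pE, D.EE, Ez2, py2, pz2] at h1
    simpa using h1
  have y2E : y₂ * E = 0 := by
    have h1 : ((E + y₂ + z₂) * (E + y₂ + z₂)) * q = 0 := by rw [hN2s, zero_mul]
    have e : ((E + y₂ + z₂) * (E + y₂ + z₂)) * q = E * (E * q) + y₂ * (E * q) + z₂ * (E * q)
        + (E + y₂ + z₂) * (y₂ * q) + (E + y₂ + z₂) * (z₂ * q) := by noncomm_ring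
    rw [e, D.Eq, D.EE, z2E, y2q, z2q] at h1
    simpa using h1
  have y20 : y₂ = 0 := h.hA y₂ hy2L sy2 y2s (by rw [← D.FE, mul_assoc, Ey2, mul_zero])
    (by rw [← D.EF, ← mul_assoc, y2E, zero_mul])
  have z2z2 : z₂ * z₂ = 0 := by
    rw [y20, add_zero] at hN2s
    have e : (E + z₂) * (E + z₂) = E * E + E * z₂ + z₂ * E + z₂ * z₂ := by noncomm_ring
    rw [e, D.EE, Ez2, z2E, add_zero, zero_add, zero_add] at hN2s
    exact hN2s
  have z20 : z₂ = 0 := h.L00 hr hz2L z2z2 z2p pz2 z2q qz2 hz2s
  rw [y20, z20, add_zero, add_zero] at hN2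
  rw [← cj_rk vv N, hN2]

end PA

end Pool.Agent.OU
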