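import Pool.Agent.Lib_helper48.OU.U14

/-! Elements of s-degree one from classes closed under conjugation; the two cases. -/

set_option linter.unusedSectionVars false
set_option linter.unusedSimpArgs false

namespace Pool.Agent.OU

open Module Pool.Agent.OT

variable {K : Type*} [Field K] [CharZero K] [IsAlgClosed K]
variable {V : Type*} [AddCommGroup V] [Module K V] [FiniteDimensional K V]
variable {L : Submodule K (Module.End K V)}
variable {E F p q s x y z w b : Module.End K V} {κ : K}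

/-- An element commuting with all elements of s-degree one or minus one is zero. -/
theorem SimU.cenJ (S : SimU L) (hI : Inv L s κ) (hsc : ∀ c : K, s ≠ c • 1) (hx : x ∈ L)
    (h : ∀ t, (t = s ∨ t = -s) → ∀ z, J1 L t z → x * z = z * x) : x = 0 := by
  refine S.cenL hx ?_
  let T : Submodule K (Module.End K V) :=
    { carrier := {y | x * y = y * x}
      zero_mem' := by simp
      add_mem' := fun {a b} ha hb => by
        show x * (a + b) = (a + b) * x
        rw [mul_add, add_mul, ha, hb]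
      smul_mem' := fun c {a} ha => by
        show x * (c • a) = (c • a) * x
        rw [mul_smul_comm, smul_mul_assoc, ha] }
  refine S.genJ hI hsc T ?_ ?_
  · intro a ha b hb
    have c1 : Commute x a := ha
    have c2 : Commute x b := hb
    exact ((c1.mul_right c2).sub_right (c2.mul_right c1)).eq
  · rintro j (hj | hj)
    · exact h s (Or.inl rfl) j hj
    · exact h (-s) (Or.inr rfl) j hj

/-- A class of elements closed under conjugation contains an element with a component of s-degree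
one or minus one. -/
theorem SimU.exC (S : SimU L) (hI : Inv L s κ) (hsc : ∀ c : K, s ≠ c • 1)
    (P : Module.End K V → Prop) (hP : ∀ y, P y → y ∈ L)
    (hcj : ∀ y z, P y → z ∈ L → z * z = 0 → P (cj z y)) (hx : P x) (hx0 : x ≠ 0) :
    ∃ y, P y ∧ ∃ t, (t = s ∨ t = -s) ∧ (1 + t) * y * (1 - t) ≠ 0 := by
  have hL := S.good
  by_contra hne
  push Not at hne
  apply hx0
  have hxs : s * x = x * s := by
    have h1 := hne x hx s (Or.inl rfl)
    have h2 := hne x hx (-s) (Or.inr rfl)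
    have e : (1 + s) * x * (1 - s) - (1 + -s) * x * (1 - -s) = (2 : K) • (s * x - x * s) := by
      rw [two_smul]; noncomm_ring
    rw [h1, h2, sub_zero] at e
    exact sub_eq_zero.mp ((smul_eq_zero.mp e.symm).resolve_left (by norm_num))
  refine S.cenJ hI hsc (hP x hx) ?_
  intro t ht z hz
  have htx : t * x = x * t := by
    rcases ht with rfl | rfl
    · exact hxs
    · rw [neg_mul, mul_neg, hxs]
  have htt : t * t = 1 := by
    rcases ht with rfl | rfl
    · exact hI.ss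
    · rw [neg_mul_neg, hI.ss]
  have hzz : z * z = 0 := One.mul_zero_of hz.xs hz.sx
  have zxz : z * x * z = 0 := by
    apply zero_of_eq_neg
    nth_rewrite 2 [← hz.sx]
    rw [← mul_assoc, mul_assoc z x t, ← htx, ← mul_assoc, hz.xs, neg_mul, neg_mul]
  have hy : cj z x = x + (z * x - x * z) := by
    have : cj z x = x + (z * x - x * z) - z * x * z := by simp only [cj]; noncomm_ring
    rw [this, zxz, sub_zero]
  have h1 := hne _ (hcj x z hx hz.mem hzz) t ht
  rw [hy] at h1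
  have h2 := hne x hx t ht
  have e : (1 + t) * (x + (z * x - x * z)) * (1 - t) = (1 + t) * x * (1 - t)
      + ((1 + t) * z * (x - x * t) - (1 + t) * x * (z - z * t)) := by noncomm_ring
  rw [h1, h2, zero_add] at e
  have a1 : (1 + t) * z = (2 : K) • z := by rw [add_mul, one_mul, hz.sx, two_smul]
  have a2 : z - z * t = (2 : K) • z := by rw [hz.xs, two_smul]; abel
  have a3 : z * (x - x * t) = (2 : K) • (z * x) := by
    rw [mul_sub, ← htx, ← mul_assoc, hz.xs, two_smul]; noncomm_ring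
  have a4 : (1 + t) * x * z = (2 : K) • (x * z) := by
    rw [add_mul, one_mul, add_mul, htx, mul_assoc x t z, hz.sx, two_smul]
  rw [a1, a2, mul_smul_comm, a4, smul_mul_assoc, a3, smul_smul, smul_smul, ← smul_sub] at e
  have h3 := (smul_eq_zero.mp e.symm).resolve_left (by norm_num)
  exact (sub_eq_zero.mp h3).symm

/-- Elements of s-degree one of small rank, from an element which has small rank after adding
a scalar. -/
theorem SimU.exJc (S : SimU L) (hI : Inv L s κ) (hsc : ∀ c : K, s ≠ c • 1) (hx : x ∈ L)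
    (hx0 : x ≠ 0) (c : K) :
    ∃ t κ', Inv L t κ' ∧ (t = s ∧ κ' = κ ∨ t = -s ∧ κ' = -κ) ∧
      ∃ e, J1 L t e ∧ e ≠ 0 ∧ rk e ≤ rk (x + c • (1 : Module.End K V)) := by
  have hL := S.good
  obtain ⟨y, ⟨hy, hyr⟩, t, ht, hyt⟩ := S.exC hI hsc
    (fun y => y ∈ L ∧ rk (y + c • (1 : Module.End K V)) ≤ rk (x + c • (1 : Module.End K V)))
    (fun y hy => hy.1)
    (by
      rintro y z ⟨hy, hyr⟩ hz hzz
      refine ⟨cj_mem hL hz hzz hy, ?_⟩
      have : cj z y + c • (1 : Module.End K V) = cj z (y + c • 1) := by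
        have e1 : cj z (1 : Module.End K V) = 1 := by
          have : cj z (1 : Module.End K V) = 1 - z * z := by simp only [cj]; noncomm_ring
          rw [this, hzz, sub_zero]
        rw [cj_add, cj_smul, e1]
      rw [this, cj_rk hzz]
      exact hyr) ⟨hx, le_rfl⟩ hx0
  have hr : ∀ t : Module.End K V, t * t = 1 → rk ((1 + t) * y * (1 - t)) ≤ rk (x + c • (1 : Module.End K V)) := by
    intro t htt
    have e : (1 + t) * y * (1 - t) = (1 + t) * (y + c • 1) * (1 - t) := by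
      have : (1 + t) * (y + c • 1) * (1 - t) = (1 + t) * y * (1 - t) + c • (1 - t * t) := by
        rw [mul_add, add_mul, mul_smul_comm, smul_mul_assoc]; noncomm_ring
      rw [this, htt, sub_self, smul_zero, add_zero]
    rw [e]
    exact (rk_sandwich _ _ _).trans hyr
  rcases ht with rfl | rfl
  · exact ⟨_, _, hI, Or.inl ⟨rfl, rfl⟩, _, hI.J hL hy, hyt, hr _ hI.ss⟩
  · exact ⟨_, _, hI.neg, Or.inr ⟨rfl, rfl⟩, _, hI.neg.J hL hy, hyt, hr _ hI.neg.ss⟩

/-- No second pair: all elements with square zero have the same rank. -/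
theorem PA.sq (h : PA L s κ E F p q) (hr : rk E ≠ 1) {N : Module.End K V} (hN : N ∈ L)
    (hNN : N * N = 0) (hN0 : N ≠ 0) : rk N = rk E := by
  have hL := h.S.good
  have hI := h.toSDU.inv
  obtain ⟨y, ⟨hy, hyy, hyr⟩, t, ht, hyt⟩ := h.S.exC hI h.hsc
    (fun y => y ∈ L ∧ y * y = 0 ∧ rk y = rk N) (fun y hy => hy.1)
    (by
      rintro y z ⟨hy, hyy, hyr⟩ hz hzz
      exact ⟨cj_mem hL hz hzz hy, by rw [cj_mul hzz, hyy, cj_zero], by rw [cj_rk hzz, hyr]⟩)
    ⟨hN, hNN, rfl⟩ hN0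
  have main : ∀ (s : Module.End K V) (κ : K) (E F p q : Module.End K V), PA L s κ E F p q →
      rk E ≠ 1 → (1 + s) * y * (1 - s) ≠ 0 → rk y = rk E := by
    intro s κ E F p q h hr hyt
    have hI := h.toSDU.inv
    obtain ⟨e, he⟩ : ∃ e, e = (1/4 : K) • ((1 + s) * y * (1 - s)) := ⟨_, rfl⟩
    have heJ : J1 L s e := by rw [he]; exact (hI.J hL hy).smul _
    have he0 : e ≠ 0 := by rw [he]; exact smul_ne_zero (by norm_num) hyt
    have he4 : (1 + s) * y * (1 - s) = (4 : K) • e := by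
      rw [he, smul_smul]; norm_num
    obtain ⟨F', p', q', h', hr'⟩ := h.all heJ he0
    rw [← hr']
    exact h'.red (by rw [hr']; exact hr) hy hyy he4
  rw [← hyr]
  rcases ht with rfl | rfl
  · exact main _ _ _ _ _ _ h hr hyt
  · rw [main _ _ _ _ _ _ h.neg (by rw [h.rkF]; exact hr) hyt, h.rkF]

/-- The two cases. -/
theorem SimU.cases (S : SimU L) (hI : Inv L s κ) {e₀ : Module.End K V} (he₀ : J1 L s e₀)
    (he₀0 : e₀ ≠ 0) :
    ∃ E F p q, SDU L s κ E F p q ∧ E ≠ 0 ∧ rk E ≤ rk e₀ ∧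
      (PA L s κ E F p q ∨ ∃ E' F' p' q' x₀, CfgU L s κ E F p q E' F' p' q' x₀) := by
  classical
  have hL := S.good
  -- minimal rank
  have hex : ∃ n, ∃ a, J1 L s a ∧ a ≠ 0 ∧ rk a = n := ⟨_, e₀, he₀, he₀0, rfl⟩
  obtain ⟨E, hE, hE0, hErk⟩ := Nat.find_spec hex
  have hmin : ∀ a, J1 L s a → a ≠ 0 → rk E ≤ rk a := by
    intro a ha ha0
    rw [hErk]
    exact Nat.find_min' hex ⟨a, ha, ha0, rfl⟩
  have hfix : ∀ {e f : Module.End K V}, J1 L s e → J1 L (-s) f → e * (f * e) = e →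
      J1 L (-s) (f * (e * f)) ∧ e * (f * (e * f) * e) = e ∧
        (f * (e * f)) * (e * (f * (e * f))) = f * (e * f) := by
    intro e f he hf h1
    have hff : f * f = 0 := One.mul_zero_of hf.xs hf.sx
    refine ⟨⟨?_, ?_, ?_⟩, ?_, ?_⟩
    · rw [← mul_assoc]; exact hL.sand hf.mem hff he.mem
    · rw [← mul_assoc, hf.sx]
    · rw [mul_assoc, mul_assoc, hf.xs, mul_neg, mul_neg]
    · have : e * (f * (e * f) * e) = e * (f * (e * (f * e))) := by simp only [mul_assoc]
      rw [this, h1, h1]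
    · have : (f * (e * f)) * (e * (f * (e * f))) = f * (e * (f * (e * (f * e)))) * f := by
        simp only [mul_assoc]
      rw [this, h1, h1, mul_assoc]
  obtain ⟨F₀, hF₀, hF₀E⟩ := Inv.partner hL hI hE
  obtain ⟨hF, hEFE, hFEF⟩ := hfix hE hF₀ hF₀E
  obtain ⟨F, hFd⟩ : ∃ F, F = F₀ * (E * F₀) := ⟨_, rfl⟩
  rw [← hFd] at hF hEFE hFEF
  have D : SDU L s κ E F (E * F) (F * E) := mkSDU hL hI hE hF hEFE hFEF hE0 (by
    intro a b ha hb _ _ _ _ hab
    by_contra hc
    push Not at hc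
    have h1 := hmin a ha hc.1
    have h2 : rk b ≠ 0 := fun h => hc.2 (eq_zero_of_rk h)
    omega)
  obtain ⟨p, hp⟩ : ∃ p, p = E * F := ⟨_, rfl⟩
  obtain ⟨q, hq⟩ : ∃ q, q = F * E := ⟨_, rfl⟩
  rw [← hp, ← hq] at D
  refine ⟨E, F, p, q, D, hE0, hmin e₀ he₀ he₀0, ?_⟩
  by_cases hA : ∀ z ∈ L, s * z = -z → z * s = z → q * z = 0 → z * p = 0 → z = 0
  · left
    exact { D with S := S, E0 := hE0, hA := hA }
  right
  push Not at hA
  obtain ⟨z, hz, tz, zt, qz, zp, hz0⟩ := hA
  -- partners inside the orthogonal part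
  obtain ⟨o, ho⟩ : ∃ o, o = 1 - p - q := ⟨_, rfl⟩
  have hpp := D.toTri.pp
  have hqq := D.toTri.qq
  have hpq := D.toTri.pq
  have hqp := D.toTri.qp
  have hto : s * o = o * s := by
    rw [ho, mul_sub, mul_sub, sub_mul, sub_mul, D.sp, D.ps, D.sq, D.qs, mul_one, one_mul]
  have hpo : p * o = 0 := by rw [ho]; simp only [mul_sub, mul_one, hpp, hpq]; abel
  have hop : o * p = 0 := by rw [ho]; simp only [sub_mul, one_mul, hpp, hqp]; abel
  have hqo : q * o = 0 := by rw [ho]; simp only [mul_sub, mul_one, hqq, hqp]; abel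
  have hoq : o * q = 0 := by rw [ho]; simp only [sub_mul, one_mul, hqq, hpq]; abel
  -- p, q kill one side
  have pf : ∀ f, J1 L (-s) f → p * f = 0 ∧ f * q = 0 := by
    intro f hf
    constructor
    · apply zero_of_eq_neg
      nth_rewrite 1 [← hf.sx]
      rw [neg_mul, mul_neg, ← mul_assoc, D.ps]
    · apply zero_of_eq_neg
      have h1 : f * s = f := by
        have := hf.xs
        rw [mul_neg] at this
        exact neg_injective this
      nth_rewrite 1 [← h1]
      rw [mul_assoc, D.sq, mul_neg]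
  have pe : ∀ e, J1 L s e → q * e = 0 ∧ e * p = 0 := by
    intro e he
    constructor
    · apply zero_of_eq_neg
      nth_rewrite 1 [← he.sx]
      rw [← mul_assoc, D.qs, neg_mul]
    · apply zero_of_eq_neg
      nth_rewrite 1 [← D.sp]
      rw [← mul_assoc, he.xs, neg_mul]
  have hzJ : J1 L (-s) z := ⟨hz, by rw [neg_mul, tz, neg_neg], by rw [mul_neg, zt]⟩
  -- an element of degree one in the orthogonal part
  obtain ⟨y, hy, hy0, hpy, hyq⟩ : ∃ y, J1 L s y ∧ y ≠ 0 ∧ p * y = 0 ∧ y * q = 0 := by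
    obtain ⟨y, hy, hyz⟩ := Inv.partner hL hI.neg hzJ
    rw [neg_neg] at hy
    obtain ⟨hqy, hyp⟩ := pe y hy
    have hc := (comp_pq hL.brk hpp hqq hpq hqp ho D.toTri.hH hy.mem).2.2.1
    have e1 : p * y * p + o * y * o + q * y * q = o * y * o := by
      rw [hqy, mul_assoc p y p, hyp, mul_zero, zero_mul, zero_add, add_zero]
    rw [e1] at hc
    have oz : o * z = z := by
      rw [ho, sub_mul, sub_mul, one_mul, (pf z hzJ).1, qz, sub_zero, sub_zero]
    have zo : z * o = z := by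
      rw [ho, mul_sub, mul_sub, mul_one, zp, (pf z hzJ).2, sub_zero, sub_zero]
    refine ⟨o * y * o, ⟨hc, ?_, ?_⟩, ?_, ?_, ?_⟩
    · rw [← mul_assoc, ← mul_assoc, hto, mul_assoc o s y, hy.sx]
    · rw [mul_assoc, ← hto, ← mul_assoc, mul_assoc o y s, hy.xs]; noncomm_ring
    · intro h0
      apply hz0
      rw [← hyz]
      have e2 : z * (y * z) = z * ((o * y * o) * z) := by
        nth_rewrite 1 [← zo]
        nth_rewrite 2 [← oz]
        simp only [mul_assoc]
      rw [e2, h0, zero_mul, mul_zero]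
    · rw [← mul_assoc, ← mul_assoc, hpo, zero_mul, zero_mul]
    · rw [mul_assoc, hoq, mul_zero]
  have hex2 : ∃ n, ∃ a, J1 L s a ∧ a ≠ 0 ∧ p * a = 0 ∧ a * q = 0 ∧ rk a = n :=
    ⟨_, y, hy, hy0, hpy, hyq, rfl⟩
  obtain ⟨E', hE', hE0', hpE', hE'q, hErk'⟩ := Nat.find_spec hex2
  have hmin2 : ∀ a, J1 L s a → a ≠ 0 → p * a = 0 → a * q = 0 → rk E' ≤ rk a := by
    intro a ha ha0 h1 h2
    rw [hErk']
    exact Nat.find_min' hex2 ⟨a, ha, ha0, h1, h2, rfl⟩
  -- its partner in the orthogonal part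
  obtain ⟨G, hG, hGE, hGp, hqG⟩ : ∃ G, J1 L (-s) G ∧ E' * (G * E') = E' ∧ G * p = 0 ∧ q * G = 0 := by
    obtain ⟨G₀, hG₀, hG₀E⟩ := Inv.partner hL hI hE'
    obtain ⟨hpG, hGq⟩ := pf G₀ hG₀
    have hc := (comp_pq hL.brk hpp hqq hpq hqp ho D.toTri.hH hG₀.mem).2.2.1
    have e1 : p * G₀ * p + o * G₀ * o + q * G₀ * q = o * G₀ * o := by
      rw [hpG, zero_mul, zero_add, mul_assoc q G₀ q, hGq, mul_zero, add_zero]
    rw [e1] at hc
    have oE : o * E' = E' := by
      rw [ho, sub_mul, sub_mul, one_mul, hpE', (pe E' hE').1, sub_zero, sub_zero]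
    have Eo : E' * o = E' := by
      rw [ho, mul_sub, mul_sub, mul_one, (pe E' hE').2, hE'q, sub_zero, sub_zero]
    refine ⟨o * G₀ * o, ⟨hc, ?_, ?_⟩, ?_, ?_, ?_⟩
    · have h1 := hG₀.sx
      rw [neg_mul] at h1 ⊢
      rw [← mul_assoc, ← mul_assoc, hto, mul_assoc o s G₀]
      have h2 : s * G₀ = -G₀ := neg_eq_iff_eq_neg.mp h1
      rw [h2]; noncomm_ring
    · have h1 := hG₀.xs
      rw [mul_neg] at h1 ⊢
      have h2 : G₀ * s = G₀ := neg_injective h1
      rw [mul_assoc, ← hto, ← mul_assoc, mul_assoc o G₀ s, h2]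
    · have e2 : E' * (o * G₀ * o * E') = (E' * o) * G₀ * (o * E') := by simp only [mul_assoc]
      rw [e2, Eo, oE, mul_assoc, hG₀E]
    · rw [mul_assoc, hop, mul_zero]
    · rw [← mul_assoc, ← mul_assoc, hqo, zero_mul, zero_mul]
  obtain ⟨hF', hEFE', hFEF'⟩ := hfix hE' hG hGE
  obtain ⟨F', hFd'⟩ : ∃ F', F' = G * (E' * G) := ⟨_, rfl⟩
  have hF'p : F' * p = 0 := by rw [hFd', mul_assoc, mul_assoc, hGp, mul_zero, mul_zero]
  have hqF' : q * F' = 0 := by rw [hFd', ← mul_assoc, hqG, zero_mul]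
  rw [← hFd'] at hF' hEFE' hFEF'
  have D' : SDU L s κ E' F' (E' * F') (F' * E') := mkSDU hL hI hE' hF' hEFE' hFEF' hE0' (by
    intro a b ha hb a1 a2 b1 b2 hab
    by_contra hc
    push Not at hc
    have g1 : p * a = 0 := by rw [← a1, ← mul_assoc, hpE', zero_mul]
    have g2 : a * q = 0 := by
      rw [← a2, mul_assoc, mul_assoc, hE'q, mul_zero, mul_zero]
    have h1 := hmin2 a ha hc.1 g1 g2
    have h2 : rk b ≠ 0 := fun h => hc.2 (eq_zero_of_rk h)
    omega)
  have P : PrU L s κ E F p q E' F' (E' * F') (F' * E') :=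
    { A := D
      B := D'
      pp := by rw [← mul_assoc, hpE', zero_mul]
      pp' := by rw [mul_assoc, hF'p, mul_zero]
      qq := by rw [← mul_assoc, hqF', zero_mul]
      qq' := by rw [mul_assoc, hE'q, mul_zero] }
  obtain ⟨x₀, h1, h2, h3⟩ := P.exX0 S hE0 hE0'
  exact ⟨_, _, _, _, x₀, CfgU.mk' S P hE0 h1 h2 h3⟩

end Pool.Agent.OU
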