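import Pool.Agent.Lib_helper48.OU.U15

/-! Numerical consequences. -/

set_option linter.unusedSectionVars false
set_option linter.unusedSimpArgs false

namespace Pool.Agent.OU

open Module Pool.Agent.OT

variable {K : Type*} [Field K] [CharZero K] [IsAlgClosed K]
variable {V : Type*} [AddCommGroup V] [Module K V] [FiniteDimensional K V]
variable {L : Submodule K (Module.End K V)}
variable {E F p q s x y z w b : Module.End K V} {κ : K}

/-- The exceptional signatures and ranks (exterior powers). -/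
def ExcU (a b r : ℕ) : Prop :=
  ∃ m k, 1 ≤ k ∧ k < m ∧ a = (m + 1).choose (k + 1) ∧ b = (m + 1).choose k ∧ r = m.choose k

theorem ExcU.symm {a b r : ℕ} (h : ExcU a b r) : ExcU b a r := by
  obtain ⟨m, k, h1, h2, rfl, rfl, rfl⟩ := h
  refine ⟨m, m - k, by omega, by omega, ?_, ?_, ?_⟩
  · rw [← Nat.choose_symm (by omega : k ≤ m + 1)]
    congr 1; omega
  · rw [← Nat.choose_symm (by omega : k + 1 ≤ m + 1)]
    congr 1; omega
  · exact (Nat.choose_symm (by omega : k ≤ m)).symm

theorem choose_ineq {m k : ℕ} (hk : k ≤ m) :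
    (m + 1).choose (k + 1) * (m + 1).choose k
      ≤ ((m + 1).choose (k + 1) + (m + 1).choose k) * m.choose k := by
  obtain ⟨a, ha⟩ : ∃ a, a = (m + 1).choose (k + 1) := ⟨_, rfl⟩
  obtain ⟨b, hb⟩ : ∃ b, b = (m + 1).choose k := ⟨_, rfl⟩
  obtain ⟨r, hr⟩ : ∃ r, r = m.choose k := ⟨_, rfl⟩
  have h1 : (m + 1) * r = a * (k + 1) := by rw [ha, hr]; exact Nat.add_one_mul_choose_eq m k
  have h2 : r * (m + 1) = b * (m + 1 - k) := by rw [hb, hr]; exact Nat.choose_mul_succ_eq m k
  obtain ⟨l, hl⟩ : ∃ l, m + 1 = k + l := ⟨m + 1 - k, by omega⟩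
  have h3 : m + 1 - k = l := by omega
  rw [h3] at h2
  rw [← ha, ← hb, ← hr]
  have h4 : (m + 1) * ((a + b) * r) = (m + 2) * (a * b) := by
    have : (m + 1) * ((a + b) * r) = a * (r * (m + 1)) + b * ((m + 1) * r) := by ring
    rw [this, h1, h2]
    have e : m + 2 = l + (k + 1) := by omega
    rw [e]; ring
  have h5 : (m + 1) * (a * b) ≤ (m + 1) * ((a + b) * r) := by
    rw [h4]; exact Nat.mul_le_mul_right _ (by omega)
  exact Nat.le_of_mul_le_mul_left h5 (by omega)

/-- The signature is determined by the dimension and the trace up to order. -/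
theorem sig_eq {a b A B : ℕ} (h : a + b = A + B)
    (ht : (A : K) - B = a - b ∨ (A : K) - B = -((a : K) - b)) :
    (a = A ∧ b = B) ∨ (a = B ∧ b = A) := by
  rcases ht with ht | ht
  · left
    have : ((A + b : ℕ) : K) = ((a + B : ℕ) : K) := by push_cast; linear_combination ht
    have h2 : A + b = a + B := by exact_mod_cast this
    omega
  · right
    have : ((A + a : ℕ) : K) = ((b + B : ℕ) : K) := by push_cast; linear_combination ht
    have h2 : A + a = b + B := by exact_mod_cast this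
    omega

/-- If kappa is not zero then s is not a scalar as soon as there is an element of s-degree one; in
general this follows from the trace. -/
theorem Inv.nsc (S : SimU L) (hI : Inv L s κ) (hκ : κ ≠ 0) (hs : s - κ • (1 : Module.End K V) ≠ 0)
    (c : K) : s ≠ c • 1 := by
  intro h
  apply hs
  have h1 : s - κ • (1 : Module.End K V) = (c - κ) • 1 := by rw [h, sub_smul]
  refine S.cenL hI.sL ?_
  intro x _
  rw [h1, smul_mul_assoc, mul_smul_comm, one_mul, mul_one]

/-- Summary in the case of an involution of nonzero trace: either there is a configuration of two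
pairs with 4 rk E < dim V, or an adapted pair without second pair with the dimensions of an exterior
power. -/
theorem SimU.alt (S : SimU L) (hI : Inv L s κ) (hκ : κ ≠ 0) {e₀ : Module.End K V}
    (he₀ : J1 L s e₀) (he₀0 : e₀ ≠ 0) {a b : ℕ} (hab : a + b = finrank K V)
    (htr : LinearMap.trace K V s = (a : K) - b ∨ LinearMap.trace K V s = -((a : K) - b)) :
    (∃ E F p q E' F' p' q' x₀, CfgU L s κ E F p q E' F' p' q' x₀ ∧ 4 * rk E < finrank K V) ∨
      ∃ E F p q, PA L s κ E F p q ∧ rk E ≤ rk e₀ ∧ ∃ m k, k ≤ m ∧ rk E = m.choose k ∧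
        ((a = (m + 1).choose (k + 1) ∧ b = (m + 1).choose k) ∨
          (a = (m + 1).choose k ∧ b = (m + 1).choose (k + 1))) := by
  obtain ⟨E, F, p, q, D, E0, hEr, h | ⟨E', F', p', q', x₀, C⟩⟩ := S.cases hI he₀ he₀0
  · right
    obtain ⟨m, k, hkm, h1, h2, h3⟩ := S.caseA_full D E0 h.hA
    refine ⟨E, F, p, q, h, hEr, m, k, hkm, h1, ?_⟩
    refine sig_eq (K := K) (hab.trans h2) ?_
    rw [← h3]
    exact htr
  · left
    refine ⟨E, F, p, q, E', F', p', q', x₀, C, ?_⟩
    rcases C.le4.lt_or_eq with h | h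
    · exact h
    · exact absurd (C.kap h) hκ

/-- Elements of small rank. -/
theorem SimU.smallU (S : SimU L) (hI : Inv L s κ) (hκ : κ ≠ 0) (hsc : ∀ c : K, s ≠ c • 1)
    (hx : x ∈ L) (hx0 : x ≠ 0) (c : K) {a b : ℕ} (hab : a + b = finrank K V)
    (htr : LinearMap.trace K V s = (a : K) - b)
    (hlt : (a + b) * rk (x + c • (1 : Module.End K V)) < a * b) :
    ∃ t κ' E F p q E' F' p' q' x₀, κ' ≠ 0 ∧ CfgU L t κ' E F p q E' F' p' q' x₀ ∧
      4 * rk E < finrank K V := by
  obtain ⟨t, κ', hI', ht, e, he, he0, her⟩ := S.exJc hI hsc hx hx0 c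
  have hκ' : κ' ≠ 0 := by
    rcases ht with ⟨-, rfl⟩ | ⟨-, rfl⟩
    · exact hκ
    · exact neg_ne_zero.mpr hκ
  have htr' : LinearMap.trace K V t = (a : K) - b ∨ LinearMap.trace K V t = -((a : K) - b) := by
    rcases ht with ⟨rfl, -⟩ | ⟨rfl, -⟩
    · left; exact htr
    · right; rw [map_neg, htr]
  rcases S.alt hI' hκ' he he0 hab htr' with ⟨E, F, p, q, E', F', p', q', x₀, C, h⟩ |
    ⟨E, F, p, q, h, hEr, m, k, hkm, h1, h2⟩
  · exact ⟨t, κ', E, F, p, q, E', F', p', q', x₀, hκ', C, h⟩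
  · exfalso
    have h3 : (a + b) * rk E < a * b :=
      (Nat.mul_le_mul_left _ (hEr.trans her)).trans_lt hlt
    have h4 := choose_ineq hkm
    rw [← h1] at h4
    rcases h2 with ⟨rfl, rfl⟩ | ⟨rfl, rfl⟩
    · omega
    · rw [add_comm, mul_comm ((m + 1).choose k)] at h3
      omega

/-- Elements with square zero. -/
theorem SimU.nilU (S : SimU L) (hI : Inv L s κ) (hκ : κ ≠ 0) (hsc : ∀ c : K, s ≠ c • 1)
    (hx : x ∈ L) (hxx : x * x = 0) (hx0 : x ≠ 0) {a b : ℕ} (hab : a + b = finrank K V)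
    (htr : LinearMap.trace K V s = (a : K) - b) (hne : ¬ ExcU a b (rk x)) :
    ∃ t κ' E F p q, κ' ≠ 0 ∧ ((∃ E' F' p' q' x₀, CfgU L t κ' E F p q E' F' p' q' x₀ ∧
      4 * rk E < finrank K V) ∨ (PA L t κ' E F p q ∧ rk E = 1)) := by
  obtain ⟨t, κ', hI', ht, e, he, he0, her⟩ := S.exJc hI hsc hx hx0 0
  have hκ' : κ' ≠ 0 := by
    rcases ht with ⟨-, rfl⟩ | ⟨-, rfl⟩
    · exact hκ
    · exact neg_ne_zero.mpr hκ
  have htr' : LinearMap.trace K V t = (a : K) - b ∨ LinearMap.trace K V t = -((a : K) - b) := by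
    rcases ht with ⟨rfl, -⟩ | ⟨rfl, -⟩
    · left; exact htr
    · right; rw [map_neg, htr]
  rcases S.alt hI' hκ' he he0 hab htr' with ⟨E, F, p, q, E', F', p', q', x₀, C, h⟩ |
    ⟨E, F, p, q, h, hEr, m, k, hkm, h1, h2⟩
  · exact ⟨t, κ', E, F, p, q, hκ', Or.inl ⟨E', F', p', q', x₀, C, h⟩⟩
  · refine ⟨t, κ', E, F, p, q, hκ', Or.inr ⟨h, ?_⟩⟩
    by_contra hr
    apply hne
    rw [h.sq hr hx hxx hx0, h1]
    have hk0 : k ≠ 0 := by
      rintro rfl
      exact hr (by rw [h1, Nat.choose_zero_right])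
    have hkm' : k ≠ m := by
      rintro rfl
      exact hr (by rw [h1, Nat.choose_self])
    have hex : ExcU ((m + 1).choose (k + 1)) ((m + 1).choose k) (m.choose k) :=
      ⟨m, k, by omega, by omega, rfl, rfl, rfl⟩
    rcases h2 with ⟨rfl, rfl⟩ | ⟨rfl, rfl⟩
    · exact hex
    · exact hex.symm

end Pool.Agent.OU
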