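import Pool.Agent.Lib_helper48.OU.U16
import Pool.Agent.Lib_helper48.OT.Nondeg

/-! From a Lie algebra acting irreducibly to the space of the traceless parts. -/

set_option linter.unusedSectionVars false
set_option linter.unusedSimpArgs false

namespace Pool.Agent.OU

open Module Pool.Agent.OT

variable {K : Type*} [Field K] [CharZero K]
variable {V : Type*} [AddCommGroup V] [Module K V] [FiniteDimensional K V]

/-- The traceless part. -/
noncomputable def tl (K : Type*) [Field K] (V : Type*) [AddCommGroup V] [Module K V] :
    Module.End K V →ₗ[K] Module.End K V :=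
  LinearMap.id - (LinearMap.trace K V).smulRight (((finrank K V : K)⁻¹) • (1 : Module.End K V))

theorem tl_apply (x : Module.End K V) :
    tl K V x = x - (LinearMap.trace K V x * (finrank K V : K)⁻¹) • (1 : Module.End K V) := by
  rw [tl, LinearMap.sub_apply, LinearMap.id_apply, LinearMap.smulRight_apply, smul_smul]

theorem tl_tr [Nontrivial V] (x : Module.End K V) : LinearMap.trace K V (tl K V x) = 0 := by
  have h : (finrank K V : K) ≠ 0 := by
    have := Module.finrank_pos (R := K) (M := V)
    exact_mod_cast this.ne'
  rw [tl_apply, map_sub, map_smul, LinearMap.trace_one, smul_eq_mul, mul_assoc, inv_mul_cancel₀ h,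
    mul_one, sub_self]

theorem tl_of_tr {x : Module.End K V} (h : LinearMap.trace K V x = 0) : tl K V x = x := by
  rw [tl_apply, h, zero_mul, zero_smul, sub_zero]

theorem tl_scalar [Nontrivial V] (c : K) : tl K V (c • (1 : Module.End K V)) = 0 := by
  have h : (finrank K V : K) ≠ 0 := by
    have := Module.finrank_pos (R := K) (M := V)
    exact_mod_cast this.ne'
  rw [tl_apply, map_smul, LinearMap.trace_one, smul_eq_mul, mul_assoc, mul_inv_cancel₀ h, mul_one,
    sub_self]

theorem tl_brk (x y : Module.End K V) :
    tl K V x * tl K V y - tl K V y * tl K V x = x * y - y * x := by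
  rw [tl_apply, tl_apply]
  simp only [sub_mul, mul_sub, smul_mul_assoc, mul_smul_comm, one_mul, mul_one, smul_sub, smul_smul]
  rw [mul_comm (LinearMap.trace K V x * (finrank K V : K)⁻¹)]
  abel

attribute [local instance 100] LieRing.ofAssociativeRing

variable {g : Type*} [LieRing g] [LieAlgebra K g] [LieRingModule g V] [LieModule K g V]

/-- The Lie algebra of the traceless parts of the elements of g. -/
noncomputable def TL (K : Type*) [Field K] [CharZero K] (V : Type*) [AddCommGroup V] [Module K V]
    [FiniteDimensional K V] (g : Type*) [LieRing g] [LieAlgebra K g] [LieRingModule g V] [LieModule K g V] :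
    LieSubalgebra K (Module.End K V) :=
  { Submodule.map (tl K V) (LieModule.toEnd K g V).range.toSubmodule with
    lie_mem' := by
      rintro _ _ ⟨_, ⟨y, rfl⟩, rfl⟩ ⟨_, ⟨z, rfl⟩, rfl⟩
      refine ⟨⁅LieModule.toEnd K g V y, LieModule.toEnd K g V z⁆, ⟨⁅y, z⁆, ?_⟩, ?_⟩
      · rw [← LieHom.map_lie]; rfl
      · have e : ⁅LieModule.toEnd K g V y, LieModule.toEnd K g V z⁆
            = LieModule.toEnd K g V y * LieModule.toEnd K g V z
              - LieModule.toEnd K g V z * LieModule.toEnd K g V y := rfl
        have e2 : ⁅(tl K V) (LieModule.toEnd K g V y), (tl K V) (LieModule.toEnd K g V z)⁆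
            = tl K V (LieModule.toEnd K g V y) * tl K V (LieModule.toEnd K g V z)
              - tl K V (LieModule.toEnd K g V z) * tl K V (LieModule.toEnd K g V y) := rfl
        show (tl K V) ⁅LieModule.toEnd K g V y, LieModule.toEnd K g V z⁆
          = ⁅(tl K V) ((LieModule.toEnd K g V) y), (tl K V) ((LieModule.toEnd K g V) z)⁆
        rw [e, e2, tl_brk]
        apply tl_of_tr
        rw [map_sub, LinearMap.trace_mul_comm, sub_self] }

theorem mem_TL {x : Module.End K V} :
    x ∈ TL K V g ↔ ∃ y : g, tl K V (LieModule.toEnd K g V y) = x := by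
  constructor
  · rintro ⟨_, ⟨y, rfl⟩, rfl⟩
    exact ⟨y, rfl⟩
  · rintro ⟨y, rfl⟩
    exact ⟨_, ⟨y, rfl⟩, rfl⟩

theorem TL_irr [LieModule.IsIrreducible K g V] (W : Submodule K V)
    (hW : ∀ x ∈ TL K V g, ∀ v ∈ W, x v ∈ W) : W = ⊥ ∨ W = ⊤ := by
  let N : LieSubmodule K g V :=
    { W with
      lie_mem := by
        intro y v hv
        have h1 := hW _ (mem_TL.mpr ⟨y, rfl⟩) v hv
        rw [tl_apply, LinearMap.sub_apply, LinearMap.smul_apply, Module.End.one_apply] at h1
        have h2 := W.add_mem h1 (W.smul_mem (LinearMap.trace K V (LieModule.toEnd K g V y)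
          * (finrank K V : K)⁻¹) hv)
        rw [sub_add_cancel] at h2
        exact h2 }
  have hNU : (N : Submodule K V) = W := rfl
  rcases eq_bot_or_eq_top N with h | h
  · left
    rw [← hNU, h]; simp
  · right
    rw [← hNU, h]; simp

variable [IsAlgClosed K]

/-- Projectively simple image. -/
def PSimple (K : Type*) [Field K] (g : Type*) [LieRing g] [LieAlgebra K g]
    (V : Type*) [AddCommGroup V] [Module K V] [LieRingModule g V] [LieModule K g V] : Prop :=
  ∀ I : LieIdeal K g, (∀ y ∈ I, ∃ c : K, ∀ v : V, ⁅y, v⁆ = c • v) ∨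
    (∀ z : g, ∃ y ∈ I, ∃ c : K, ∀ v : V, ⁅z, v⁆ = ⁅y, v⁆ + c • v)

theorem TL_simU [LieModule.IsIrreducible K g V] (h : PSimple K g V) :
    SimU (TL K V g).toSubmodule := by
  have hnt : Nontrivial V := LieModule.nontrivial_of_isIrreducible K g V
  have htr : ∀ x ∈ TL K V g, LinearMap.trace K V x = 0 := by
    intro x hx
    obtain ⟨y, rfl⟩ := mem_TL.mp hx
    exact tl_tr _
  refine ⟨⟨?_, ?_⟩, htr, ?_, ?_⟩
  · intro x hx y hy
    exact (TL K V g).lie_mem hx hy
  · exact nondeg (TL K V g) htr (fun W hW => TL_irr W hW)
  · exact fun W hW => TL_irr W hW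
  · intro I h1 h2
    let J : LieIdeal K g :=
      { carrier := {y | tl K V (LieModule.toEnd K g V y) ∈ I}
        zero_mem' := by
          show tl K V (LieModule.toEnd K g V 0) ∈ I
          rw [map_zero, map_zero]; exact I.zero_mem
        add_mem' := by
          intro a b ha hb
          show tl K V (LieModule.toEnd K g V (a + b)) ∈ I
          rw [map_add, map_add]; exact I.add_mem ha hb
        smul_mem' := by
          intro c a ha
          show tl K V (LieModule.toEnd K g V (c • a)) ∈ I
          rw [map_smul, map_smul]; exact I.smul_mem c ha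
        lie_mem := by
          intro y a ha
          show tl K V (LieModule.toEnd K g V ⁅y, a⁆) ∈ I
          have h3 := h2 _ (mem_TL.mpr ⟨y, rfl⟩) _ ha
          rw [tl_brk] at h3
          have e : LieModule.toEnd K g V ⁅y, a⁆ = LieModule.toEnd K g V y * LieModule.toEnd K g V a
              - LieModule.toEnd K g V a * LieModule.toEnd K g V y := by
            rw [LieHom.map_lie]; rfl
          rw [e, tl_of_tr]
          · exact h3
          · rw [map_sub, LinearMap.trace_mul_comm, sub_self] }
    rcases h J with hJ | hJ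
    · left
      intro z hz
      obtain ⟨y, rfl⟩ := mem_TL.mp (h1 z hz)
      obtain ⟨c, hc⟩ := hJ y hz
      have : LieModule.toEnd K g V y = c • (1 : Module.End K V) := by
        ext v; exact hc v
      rw [this, tl_scalar]
    · right
      intro x hx
      obtain ⟨z, rfl⟩ := mem_TL.mp hx
      obtain ⟨y, hy, c, hc⟩ := hJ z
      have : LieModule.toEnd K g V z = LieModule.toEnd K g V y + c • (1 : Module.End K V) := by
        ext v; exact hc v
      rw [this, map_add, tl_scalar, add_zero]
      exact hy

end Pool.Agent.OU
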