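import Pool.Agent.Lib_helper48.OU.U18
import Pool.Agent.Lib_helper9.U4.B
import Pool.Agent.Lib_helper48.OT.G14

/-! The theorems for one module. -/

set_option linter.unusedSectionVars false
set_option linter.unusedSimpArgs false

namespace Pool.Agent.OU

open Module Pool.Agent.OT

section one

variable {K : Type*} [Field K] [CharZero K] [IsAlgClosed K]
variable {V : Type*} [AddCommGroup V] [Module K V] [FiniteDimensional K V]
variable {L : Submodule K (Module.End K V)}
variable {E F p q s x y z w b : Module.End K V} {κ : K}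

/-- Small rank up to a scalar, or square zero outside of the exceptional cases. -/
theorem SimU.core (S : SimU L) (hI : Inv L s κ) (hκ : κ ≠ 0) (hsc : ∀ c : K, s ≠ c • 1)
    (hx : x ∈ L) (hx0 : x ≠ 0) {a b : ℕ} (hab : a + b = finrank K V)
    (htr : LinearMap.trace K V s = (a : K) - b)
    (h : (∃ c : K, (a + b) * rk (x + c • (1 : Module.End K V)) < a * b) ∨
      (x * x = 0 ∧ ¬ ExcU a b (rk x))) :
    ∀ y : Module.End K V, LinearMap.trace K V y = 0 → y ∈ L := by
  rcases h with ⟨c, hc⟩ | ⟨hxx, hne⟩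
  · obtain ⟨t, κ', E, F, p, q, E', F', p', q', x₀, hκ', C, h4⟩ :=
      S.smallU hI hκ hsc hx hx0 c hab htr hc
    exact Pool.Agent.U4.caseB_full C h4 hκ'
  · obtain ⟨t, κ', E, F, p, q, hκ', h | ⟨h, h1⟩⟩ := S.nilU hI hκ hsc hx hxx hx0 hab htr hne
    · obtain ⟨E', F', p', q', x₀, C, h4⟩ := h
      exact Pool.Agent.U4.caseB_full C h4 hκ'
    · exact Pool.Agent.U4.full_of_SDU S h.toSDU h1 hκ'

end one

attribute [local instance 100] LieRing.ofAssociativeRing

variable {K : Type*} [Field K] [CharZero K]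
variable {g : Type*} [LieRing g] [LieAlgebra K g]
variable {U : Type*} [AddCommGroup U] [Module K U] [FiniteDimensional K U]
  [LieRingModule g U] [LieModule K g U]

theorem brk_mem_derived (a b : g) : ⁅a, b⁆ ∈ LieAlgebra.derivedSeries K g 1 := by
  rw [LieAlgebra.derivedSeries_def, LieAlgebra.derivedSeriesOfIdeal_succ,
    LieAlgebra.derivedSeriesOfIdeal_zero]
  exact LieSubmodule.lie_mem_lie (LieSubmodule.mem_top a) (LieSubmodule.mem_top b)

theorem derived_induction {P : g → Prop} (h0 : P 0) (hb : ∀ a b : g, P ⁅a, b⁆)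
    (hadd : ∀ x y, P x → P y → P (x + y)) (hs : ∀ (c : K) x, P x → P (c • x)) {x : g}
    (hx : x ∈ LieAlgebra.derivedSeries K g 1) : P x := by
  rw [LieAlgebra.derivedSeries_def, LieAlgebra.derivedSeriesOfIdeal_succ,
    LieAlgebra.derivedSeriesOfIdeal_zero, ← LieSubmodule.mem_toSubmodule,
    LieSubmodule.lieIdeal_oper_eq_linear_span'] at hx
  induction hx using Submodule.span_induction with
  | mem x hx =>
    obtain ⟨a, -, b, -, rfl⟩ := hx
    exact hb a b
  | zero => exact h0
  | add a b _ _ ha hb => exact hadd _ _ ha hb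
  | smul c a _ ha => exact hs _ _ ha

/-- The derived algebra acts by maps of trace zero. -/
theorem derived_tr {y : g} (hy : y ∈ LieAlgebra.derivedSeries K g 1) :
    LinearMap.trace K U (LieModule.toEnd K g U y) = 0 := by
  refine derived_induction (K := K)
    (P := fun y : g => LinearMap.trace K U (LieModule.toEnd K g U y) = 0) ?_ ?_ ?_ ?_ hy
  · show LinearMap.trace K U (LieModule.toEnd K g U 0) = 0
    rw [map_zero, map_zero]
  · intro a b
    show LinearMap.trace K U (LieModule.toEnd K g U ⁅a, b⁆) = 0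
    have e : LieModule.toEnd K g U ⁅a, b⁆ = LieModule.toEnd K g U a * LieModule.toEnd K g U b
        - LieModule.toEnd K g U b * LieModule.toEnd K g U a := by
      rw [LieHom.map_lie]; rfl
    rw [e, map_sub, LinearMap.trace_mul_comm, sub_self]
  · intro a b ha hb
    show LinearMap.trace K U (LieModule.toEnd K g U (a + b)) = 0
    rw [map_add, map_add, ha, hb, add_zero]
  · intro c a ha
    show LinearMap.trace K U (LieModule.toEnd K g U (c • a)) = 0
    rw [map_smul, map_smul, ha, smul_zero]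

/-- The theorem for one module without invariant form. -/
theorem coreU [IsAlgClosed K] [LieModule.IsIrreducible K g U] (hAS : PSimple K g U) (h : g)
    (hh : ∀ v : U, ⁅h, ⁅h, v⁆⁆ = (1/4 : K) • v) {a b : ℕ} (hab : a + b = finrank K U)
    (ha : 0 < a) (hb : 0 < b) (hne : a ≠ b)
    (htr : 2 * LinearMap.trace K U (LieModule.toEnd K g U h) = (a : K) - b)
    (x : g) (hx : ¬ ∃ c : K, ∀ v : U, ⁅x, v⁆ = c • v)
    (hsm : (∃ c : K, (a + b) * finrank K (LinearMap.range
        (LieModule.toEnd K g U x + c • (1 : Module.End K U))) < a * b) ∨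
      ((∀ v : U, ⁅x, ⁅x, v⁆⁆ = 0) ∧
        ¬ ExcU a b (finrank K (LinearMap.range (LieModule.toEnd K g U x))))) :
    ∀ z : Module.End K U, LinearMap.trace K U z = 0 →
      ∃ y ∈ LieAlgebra.derivedSeries K g 1, ∀ v : U, ⁅y, v⁆ = z v := by
  have hnt : Nontrivial U := LieModule.nontrivial_of_isIrreducible K g U
  have hn0 : (finrank K U : K) ≠ 0 := by
    have := Module.finrank_pos (R := K) (M := U)
    exact_mod_cast this.ne'
  have S := TL_simU (K := K) (g := g) (V := U) hAS
  obtain ⟨s, hs⟩ : ∃ s, s = (2 : K) • LieModule.toEnd K g U h := ⟨_, rfl⟩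
  have hss : s * s = 1 := by
    ext v
    have : (LieModule.toEnd K g U h) ((LieModule.toEnd K g U h) v) = (1/4 : K) • v := hh v
    rw [hs, smul_mul_smul_comm, LinearMap.smul_apply, Module.End.mul_apply, this, smul_smul,
      Module.End.one_apply]
    norm_num
  have hts : LinearMap.trace K U s = (a : K) - b := by
    rw [hs, map_smul, smul_eq_mul, htr]
  obtain ⟨κ, hκd⟩ : ∃ κ : K, κ = ((a : K) - b) * (finrank K U : K)⁻¹ := ⟨_, rfl⟩
  have hκ : κ ≠ 0 := by
    rw [hκd]
    refine mul_ne_zero ?_ (inv_ne_zero hn0)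
    rw [sub_ne_zero]
    exact_mod_cast hne
  have hI : Inv (TL K U g).toSubmodule s κ := by
    refine ⟨?_, hss⟩
    refine mem_TL.mpr ⟨(2 : K) • h, ?_⟩
    rw [map_smul, ← hs, tl_apply, hts, hκd]
  have hsc : ∀ c : K, s ≠ c • 1 := by
    intro c hc
    have h1 : c * c = 1 := by
      rw [hc, smul_mul_smul_comm, mul_one] at hss
      obtain ⟨v, hv⟩ := exists_ne (0 : U)
      have h2 := LinearMap.congr_fun hss v
      rw [LinearMap.smul_apply, Module.End.one_apply] at h2
      have h3 : (c * c - 1) • v = 0 := by rw [sub_smul, h2, one_smul, sub_self]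
      exact sub_eq_zero.mp ((smul_eq_zero.mp h3).resolve_right hv)
    rw [hc, map_smul, LinearMap.trace_one, smul_eq_mul, ← hab] at hts
    push_cast at hts
    have h2 : (c - 1) * (c + 1) = 0 := by linear_combination h1
    have ha' : (a : K) ≠ 0 := by exact_mod_cast ha.ne'
    have hb' : (b : K) ≠ 0 := by exact_mod_cast hb.ne'
    rcases mul_eq_zero.mp h2 with h3 | h3
    · have hc1 : c = 1 := sub_eq_zero.mp h3
      rw [hc1] at hts
      apply hb'
      have : (2 : K) * b = 0 := by linear_combination hts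
      exact (mul_eq_zero.mp this).resolve_left two_ne_zero
    · have hc1 : c = -1 := eq_neg_of_add_eq_zero_left h3
      rw [hc1] at hts
      apply ha'
      have : (2 : K) * a = 0 := by linear_combination -hts
      exact (mul_eq_zero.mp this).resolve_left two_ne_zero
  obtain ⟨x', hx'⟩ : ∃ x', x' = tl K U (LieModule.toEnd K g U x) := ⟨_, rfl⟩
  have hx'L : x' ∈ (TL K U g).toSubmodule := mem_TL.mpr ⟨x, hx'.symm⟩
  have hx'e : LieModule.toEnd K g U x = x'
      + (LinearMap.trace K U (LieModule.toEnd K g U x) * (finrank K U : K)⁻¹) •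
        (1 : Module.End K U) := by
    rw [hx', tl_apply, sub_add_cancel]
  have hx'0 : x' ≠ 0 := by
    intro h0
    apply hx
    refine ⟨LinearMap.trace K U (LieModule.toEnd K g U x) * (finrank K U : K)⁻¹, fun v => ?_⟩
    have := LinearMap.congr_fun hx'e v
    rw [h0, zero_add] at this
    exact this
  have hcore := S.core hI hκ hsc hx'L hx'0 hab hts (by
    rcases hsm with ⟨c, hc⟩ | ⟨hxx, hne⟩
    · left
      refine ⟨LinearMap.trace K U (LieModule.toEnd K g U x) * (finrank K U : K)⁻¹ + c, ?_⟩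
      have : x' + (LinearMap.trace K U (LieModule.toEnd K g U x) * (finrank K U : K)⁻¹ + c) •
          (1 : Module.End K U) = LieModule.toEnd K g U x + c • (1 : Module.End K U) := by
        rw [add_smul, ← add_assoc, ← hx'e]
      rw [this]
      exact hc
    · right
      have hsq : LieModule.toEnd K g U x * LieModule.toEnd K g U x = 0 := by
        ext v
        exact hxx v
      have ht : LinearMap.trace K U (LieModule.toEnd K g U x) = 0 :=
        trace_eq_zero_of_nil ⟨2, by rw [pow_two, hsq]⟩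
      have : x' = LieModule.toEnd K g U x := by rw [hx', tl_of_tr ht]
      rw [this]
      exact ⟨hsq, hne⟩)
  intro z hz
  obtain ⟨z', hz'⟩ := mem_TL.mp (hcore z hz)
  rcases hAS (LieAlgebra.derivedSeries K g 1) with hD | hD
  · -- the derived algebra acts by scalars
    exfalso
    apply hsc κ
    rw [← sub_eq_zero]
    refine S.cenL hI.sL ?_
    intro y hy
    obtain ⟨u, hu⟩ := mem_TL.mp (show s - κ • 1 ∈ TL K U g from hI.sL)
    obtain ⟨t, ht⟩ := mem_TL.mp (show y ∈ TL K U g from hy)
    rw [← hu, ← ht, ← sub_eq_zero, tl_brk]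
    have e : LieModule.toEnd K g U ⁅u, t⁆ = LieModule.toEnd K g U u * LieModule.toEnd K g U t
        - LieModule.toEnd K g U t * LieModule.toEnd K g U u := by
      rw [LieHom.map_lie]; rfl
    rw [← e]
    obtain ⟨c, hc⟩ := hD _ (brk_mem_derived (K := K) u t)
    have h1 : LieModule.toEnd K g U ⁅u, t⁆ = c • (1 : Module.End K U) := by
      ext v; exact hc v
    have h2 := derived_tr (U := U) (brk_mem_derived (K := K) u t)
    rw [h1, map_smul, LinearMap.trace_one, smul_eq_mul] at h2
    rw [h1, (mul_eq_zero.mp h2).resolve_right hn0, zero_smul]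
  · obtain ⟨y, hy, c, hc⟩ := hD z'
    refine ⟨y, hy, ?_⟩
    have h1 : LieModule.toEnd K g U z' = LieModule.toEnd K g U y + c • (1 : Module.End K U) := by
      ext v; exact hc v
    have h2 : z = LieModule.toEnd K g U y := by
      rw [← hz', h1, map_add, tl_scalar, add_zero, tl_of_tr (derived_tr hy)]
    intro v
    rw [h2]
    rfl

variable {ω : LinearMap.BilinForm K U}

/-- The derived algebra maps onto sp if g does. -/
theorem derived_sp [Nontrivial U] (hω : ω.Nondegenerate) (halt : ∀ v w, ω v w = - ω w v)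
    (hsk : ∀ (y : g) (v w : U), ω ⁅y, v⁆ w = - ω v ⁅y, w⁆)
    (hsurj : ∀ x : Module.End K U, (∀ v w, ω (x v) w = - ω v (x w)) →
      ∃ y : g, ∀ v : U, ⁅y, v⁆ = x v) :
    ∀ x : Module.End K U, (∀ v w, ω (x v) w = - ω v (x w)) →
      ∃ y ∈ LieAlgebra.derivedSeries K g 1, ∀ v : U, ⁅y, v⁆ = x v := by
  obtain ⟨I, hI⟩ : ∃ I : Submodule K (Module.End K U),
      I = Submodule.map (LieModule.toEnd K g U : g →ₗ[K] Module.End K U)
        (LieAlgebra.derivedSeries K g 1).toSubmodule := ⟨_, rfl⟩
  have memI : ∀ x, x ∈ I ↔ ∃ y ∈ LieAlgebra.derivedSeries K g 1, LieModule.toEnd K g U y = x := by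
    intro x
    rw [hI]
    constructor
    · rintro ⟨y, hy, rfl⟩
      exact ⟨y, hy, rfl⟩
    · rintro ⟨y, hy, rfl⟩
      exact ⟨y, hy, rfl⟩
  have hsurj' : ∀ x, Sk ω x → ∃ y : g, LieModule.toEnd K g U y = x := by
    intro x hx
    obtain ⟨y, hy⟩ := hsurj x hx
    exact ⟨y, LinearMap.ext hy⟩
  obtain ⟨x₀, y₀, hx₀, hy₀, h0⟩ := sp_nonabelian hω halt
  obtain ⟨a, ha⟩ := hsurj' x₀ hx₀
  obtain ⟨b, hb⟩ := hsurj' y₀ hy₀
  have e : ∀ a b : g, LieModule.toEnd K g U ⁅a, b⁆ = LieModule.toEnd K g U a * LieModule.toEnd K g U b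
      - LieModule.toEnd K g U b * LieModule.toEnd K g U a := by
    intro a b
    rw [LieHom.map_lie]; rfl
  have hm : x₀ * y₀ - y₀ * x₀ ∈ I := by
    rw [memI]
    exact ⟨⁅a, b⁆, brk_mem_derived a b, by rw [e, ha, hb]⟩
  intro x hx
  have := sp_simple hω halt I
    (by
      intro x hx
      obtain ⟨y, -, rfl⟩ := (memI x).mp hx
      exact fun v w => hsk y v w)
    (by
      intro y hy x hx
      obtain ⟨y', rfl⟩ := hsurj' y hy
      obtain ⟨x', hx', rfl⟩ := (memI x).mp hx
      rw [← e, memI]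
      exact ⟨⁅y', x'⁆, (LieAlgebra.derivedSeries K g 1).lie_mem hx', rfl⟩) hm h0 x hx
  obtain ⟨y, hy, hyx⟩ := (memI x).mp this
  exact ⟨y, hy, fun v => LinearMap.congr_fun hyx v⟩

end Pool.Agent.OU
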