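import Pool.Agent.Lib_helper48.OU.U1

/-! Small rank: submodules generated by a part of the range of q. -/

set_option linter.unusedSectionVars false
set_option linter.unusedSimpArgs false

namespace Pool.Agent.OU

open Module Pool.Agent.OT

variable {K : Type*} [Field K] [CharZero K] [IsAlgClosed K]
variable {V : Type*} [AddCommGroup V] [Module K V] [FiniteDimensional K V]
variable {L : Submodule K (Module.End K V)}
variable {E F p q : Module.End K V} {κ : K}

theorem SimU.genW (S : SimU L) (D : Tri L E F p q) (E0 : E ≠ 0) (U' : Submodule K V)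
    (hq : ∀ u ∈ U', q u = u)
    (hst : ∀ y y', T1 L p q y → T1 L p q y' → ∀ u ∈ U', F (y (y' u)) ∈ U') :
    ∃ W : Submodule K V, U' ≤ W ∧ (W = ⊥ ∨ W = ⊤) ∧ (∀ v ∈ W, q v ∈ U') ∧
      (∀ v ∈ W, v - p v - q v ∈ TU L p q U') := by
  let Sx : Set V := {v | v ∈ U' ∨ (∃ u ∈ U', v = E u) ∨ ∃ y u, T1 L p q y ∧ u ∈ U' ∧ v = y u}
  obtain ⟨W, hW⟩ : ∃ W, W = Submodule.span K Sx := ⟨_, rfl⟩
  have WU : U' ≤ W := by
    intro u hu; rw [hW]; exact Submodule.subset_span (Or.inl hu)
  have WE : ∀ u ∈ U', E u ∈ W := by
    intro u hu; rw [hW]; exact Submodule.subset_span (Or.inr (Or.inl ⟨u, hu, rfl⟩))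
  have WY : ∀ y, T1 L p q y → ∀ u ∈ U', y u ∈ W := by
    intro y hy u hu; rw [hW]; exact Submodule.subset_span (Or.inr (Or.inr ⟨y, u, hy, hu, rfl⟩))
  have q1 : ∀ x, T1 L p q x → ∀ v, q (x v) = 0 := fun x hx v => LinearMap.congr_fun hx.qx v
  have p1 : ∀ x, T1 L p q x → ∀ u ∈ U', p (x u) = 0 := by
    intro x hx u hu
    have := LinearMap.congr_fun hx.px u
    simp only [Module.End.mul_apply, LinearMap.sub_apply, hq u hu, sub_self] at this
    exact this
  have p2 : ∀ x x', T1 L p q x → T1 L p q x' → ∀ v, p (x (x' v)) = x (x' v) := by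
    intro x x' hx hx' v
    have := LinearMap.congr_fun hx.px (x' v)
    simp only [Module.End.mul_apply, LinearMap.sub_apply, q1 x' hx', map_zero, sub_zero] at this
    exact this
  have pE' : ∀ v, p (E v) = E v := fun v => LinearMap.congr_fun D.pE v
  have Eq' : ∀ v, E (q v) = E v := fun v => LinearMap.congr_fun D.Eq v
  have FE' : ∀ v, F (E v) = q v := fun v => LinearMap.congr_fun D.FE v
  have EF' : ∀ v, E (F v) = p v := fun v => LinearMap.congr_fun D.EF v
  have pu : ∀ u ∈ U', p u = 0 := by
    intro u hu; rw [← hq u hu]; exact LinearMap.congr_fun D.pq u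
  have Fu : ∀ u ∈ U', F u = 0 := by
    intro u hu; rw [← hq u hu]; exact LinearMap.congr_fun D.Fq u
  have stab : W = ⊥ ∨ W = ⊤ := by
    refine S.stab D E0 W ?_
    intro n hn v hv
    rw [hW] at hv
    induction hv using Submodule.span_induction with
    | mem v hv =>
      rcases hv with hv | ⟨u, hu, rfl⟩ | ⟨y, u, hy, hu, rfl⟩
      · cases hn with
        | e => exact WE v hv
        | f => rw [Fu v hv]; exact W.zero_mem
        | x h => exact WY _ h v hv
        | y h =>
          have : n (q v) = 0 := LinearMap.congr_fun h.xp v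
          rw [hq v hv] at this
          rw [this]; exact W.zero_mem
      · cases hn with
        | e =>
          have : E (E u) = 0 := LinearMap.congr_fun D.EE u
          rw [this]; exact W.zero_mem
        | f => rw [FE', hq u hu]; exact WU hu
        | x h =>
          have : n (p (E u)) = 0 := LinearMap.congr_fun h.xp (E u)
          rw [pE'] at this
          rw [this]; exact W.zero_mem
        | y h =>
          have h0 : n (q u) = 0 := LinearMap.congr_fun h.xp u
          rw [hq u hu] at h0
          have e : n (E u) = (n * E - E * n) u := by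
            simp only [LinearMap.sub_apply, Module.End.mul_apply, h0, map_zero, sub_zero]
          rw [e]
          exact WY _ (D.gE h) u hu
      · cases hn with
        | e =>
          rw [← Eq', q1 y hy, map_zero]; exact W.zero_mem
        | f =>
          have : F (p (y u)) = F (y u) := LinearMap.congr_fun D.Fp (y u)
          rw [← this, p1 y hy u hu, map_zero]; exact W.zero_mem
        | x h =>
          rw [← p2 n y h hy, ← EF']
          exact WE _ (hst n y h hy u hu)
        | y h =>
          have e1 : q (n (y u)) = n (y u) := by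
            have := LinearMap.congr_fun h.px (y u)
            simp only [Module.End.mul_apply, LinearMap.sub_apply, p1 y hy u hu, map_zero,
              sub_zero] at this
            exact this
          have e2 : n (y u) = -(F ((n * E - E * n) (y u))) := by
            have e3 : E (y u) = 0 := by rw [← Eq', q1 y hy, map_zero]
            simp only [LinearMap.sub_apply, Module.End.mul_apply, e3, map_zero, zero_sub, map_neg,
              neg_neg, FE', e1]
          rw [e2]
          exact W.neg_mem (WU (hst _ y (D.gE h) hy u hu))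
    | zero => rw [map_zero]; exact W.zero_mem
    | add a b _ _ ha hb => rw [map_add]; exact W.add_mem ha hb
    | smul r a _ ha => rw [map_smul]; exact W.smul_mem _ ha
  refine ⟨W, WU, stab, ?_, ?_⟩
  · intro v hv
    rw [hW] at hv
    induction hv using Submodule.span_induction with
    | mem v hv =>
      rcases hv with hv | ⟨u, hu, rfl⟩ | ⟨y, u, hy, hu, rfl⟩
      · rw [hq v hv]; exact hv
      · have : q (E u) = 0 := LinearMap.congr_fun D.qE u
        rw [this]; exact U'.zero_mem
      · rw [q1 y hy]; exact U'.zero_mem
    | zero => rw [map_zero]; exact U'.zero_mem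
    | add a b _ _ ha hb => rw [map_add]; exact U'.add_mem ha hb
    | smul r a _ ha => rw [map_smul]; exact U'.smul_mem _ ha
  · intro v hv
    rw [hW] at hv
    induction hv using Submodule.span_induction with
    | mem v hv =>
      rcases hv with hv | ⟨u, hu, rfl⟩ | ⟨y, u, hy, hu, rfl⟩
      · rw [hq v hv, pu v hv, sub_zero, sub_self]; exact Submodule.zero_mem _
      · have : q (E u) = 0 := LinearMap.congr_fun D.qE u
        rw [this, pE', sub_self, sub_zero]; exact Submodule.zero_mem _
      · rw [q1 y hy, p1 y hy u hu, sub_zero, sub_zero]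
        exact Submodule.subset_span ⟨y, u, hy, hu, rfl⟩
    | zero => simp only [map_zero, sub_zero]; exact Submodule.zero_mem _
    | add a b _ _ ha hb =>
      have : a + b - p (a + b) - q (a + b) = (a - p a - q a) + (b - p b - q b) := by
        simp only [map_add]; abel
      rw [this]; exact Submodule.add_mem _ ha hb
    | smul r a _ ha =>
      have : r • a - p (r • a) - q (r • a) = r • (a - p a - q a) := by
        simp only [map_smul, smul_sub]
      rw [this]; exact Submodule.smul_mem _ _ ha

/-- The range of q is irreducible under the operators F y y'. -/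
theorem SimU.irrU (S : SimU L) (D : Tri L E F p q) (E0 : E ≠ 0) (U' : Submodule K V)
    (hq : ∀ u ∈ U', q u = u)
    (hst : ∀ y y', T1 L p q y → T1 L p q y' → ∀ u ∈ U', F (y (y' u)) ∈ U')
    {u₀ : V} (hu₀ : u₀ ∈ U') (h0 : u₀ ≠ 0) : ∀ v, q v ∈ U' := by
  obtain ⟨W, h1, h2, h3, -⟩ := S.genW D E0 U' hq hst
  rcases h2 with h | h
  · exfalso
    have := h1 hu₀
    rw [h, Submodule.mem_bot] at this
    exact h0 this
  · intro v
    exact h3 v (by rw [h]; exact Submodule.mem_top)

/-- The middle part is spanned by the vectors y u. -/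
theorem SimU.mid (S : SimU L) (D : Tri L E F p q) (E0 : E ≠ 0) :
    ∀ v, v - p v - q v ∈ TU L p q (LinearMap.range q) := by
  have hq : ∀ u ∈ LinearMap.range q, q u = u := by
    rintro _ ⟨v, rfl⟩; exact LinearMap.congr_fun D.qq v
  obtain ⟨W, h1, h2, -, h4⟩ := S.genW D E0 (LinearMap.range q) hq (by
    intro y y' hy hy' u hu
    exact ⟨F (y (y' u)), LinearMap.congr_fun D.qF _⟩)
  rcases h2 with h | h
  · exfalso
    apply E0
    have hq0 : q = 0 := by
      rw [← LinearMap.range_eq_bot, eq_bot_iff, ← h]; exact h1
    rw [← D.Eq, hq0, mul_zero]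
  · intro v
    exact h4 v (by rw [h]; exact Submodule.mem_top)

end Pool.Agent.OU
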