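import Pool.Agent.Lib_helper48.OU.U19

/-! Preparations for the family theorem. -/

set_option linter.unusedSectionVars false
set_option linter.unusedSimpArgs false

namespace Pool.Agent.OU

open Module Pool.Agent.OT

attribute [local instance 100] LieRing.ofAssociativeRing

variable {K : Type*} [Field K] [CharZero K]
variable {g : Type*} [LieRing g] [LieAlgebra K g]
variable {V : Type*} [AddCommGroup V] [Module K V] [FiniteDimensional K V]
  [LieRingModule g V] [LieModule K g V]

theorem irr_of [LieModule.IsIrreducible K g V] (U : Submodule K V)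
    (hU : ∀ y : g, ∀ v ∈ U, ⁅y, v⁆ ∈ U) : U = ⊥ ∨ U = ⊤ := by
  let N : LieSubmodule K g V := { U with lie_mem := fun {y v} hv => hU y v hv }
  have hNU : (N : Submodule K V) = U := rfl
  rcases eq_bot_or_eq_top N with h | h
  · left
    rw [← hNU, h]; simp
  · right
    rw [← hNU, h]; simp

/-- Schur's lemma. -/
theorem schur [IsAlgClosed K] [LieModule.IsIrreducible K g V] (s : Module.End K V)
    (h : ∀ (x : g) (v : V), s ⁅x, v⁆ = ⁅x, s v⁆) : ∃ c : K, ∀ v, s v = c • v := by
  have hnt : Nontrivial V := LieModule.nontrivial_of_isIrreducible K g V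
  obtain ⟨c, hc⟩ := Module.End.exists_eigenvalue s
  refine ⟨c, ?_⟩
  have hW : Module.End.eigenspace s c = ⊤ := by
    rcases irr_of (K := K) (g := g) (Module.End.eigenspace s c) (by
      intro x v hv
      rw [Module.End.mem_eigenspace_iff] at hv ⊢
      rw [h, hv, lie_smul]) with h | h
    · exact absurd h hc
    · exact h
  intro v
  have : v ∈ Module.End.eigenspace s c := by rw [hW]; exact Submodule.mem_top
  rwa [Module.End.mem_eigenspace_iff] at this

theorem rk_add_le (x y : Module.End K V) : rk (x + y) ≤ rk x + rk y := by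
  have h : LinearMap.range (x + y) ≤ LinearMap.range x ⊔ LinearMap.range y := by
    rintro _ ⟨v, rfl⟩
    exact Submodule.add_mem_sup ⟨v, rfl⟩ ⟨v, rfl⟩
  exact (Submodule.finrank_mono h).trans (Submodule.finrank_add_le_finrank_add_finrank _ _)

theorem rk_neg' (x : Module.End K V) : rk (-x) = rk x := by
  have : LinearMap.range (-x) = LinearMap.range x := by
    ext v
    constructor
    · rintro ⟨w, rfl⟩
      exact ⟨-w, by simp⟩
    · rintro ⟨w, rfl⟩
      exact ⟨-w, by simp⟩
  show finrank K (LinearMap.range (-x)) = finrank K (LinearMap.range x)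
  rw [this]

/-- An element of the normaliser which is nearly scalar gives an element of small rank. -/
theorem small_of_norm [IsAlgClosed K] [LieModule.IsIrreducible K g V] {N d : ℕ}
    (hd : d ≤ N * finrank K V) (s : V ≃ₗ[K] V) (c : K)
    (hs : ∀ x : g, ∃ y : g, ∀ v : V, s ⁅x, v⁆ = ⁅y, s v⁆)
    (hns : ¬ ∃ a : K, ∀ v : V, s v = a • v)
    (hr : 2 * N * finrank K (LinearMap.range ((s : Module.End K V) - c • (1 : Module.End K V))) < d) :
    ∃ x : g, (¬ ∃ a : K, ∀ v : V, ⁅x, v⁆ = a • v) ∧
      N * finrank K (LinearMap.range (LieModule.toEnd K g V x)) < d := by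
  obtain ⟨x, v, hxv⟩ : ∃ (x : g) (v : V), s ⁅x, v⁆ ≠ ⁅x, s v⁆ := by
    by_contra hne
    push Not at hne
    exact hns (schur (K := K) (g := g) (s : Module.End K V) hne)
  obtain ⟨y, hy⟩ := hs x
  obtain ⟨X, hX⟩ : ∃ X, X = LieModule.toEnd K g V x := ⟨_, rfl⟩
  obtain ⟨S, hS⟩ : ∃ S, S = (s : Module.End K V) := ⟨_, rfl⟩
  have hrk : rk (LieModule.toEnd K g V (y - x)) ≤ 2 * rk (S - c • (1 : Module.End K V)) := by
    have e1 : LieModule.toEnd K g V (y - x) * S
        = (S - c • 1) * X + -(X * (S - c • 1)) := by
      ext w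
      have h1 : ⁅y, s w⁆ = s ⁅x, w⁆ := (hy w).symm
      have h2 : (LieModule.toEnd K g V (y - x) * S) w = ⁅y, s w⁆ - ⁅x, s w⁆ := by
        rw [hS]
        show ⁅y - x, s w⁆ = _
        rw [sub_lie]
      have h3 : ((S - c • 1) * X + -(X * (S - c • 1))) w
          = (s ⁅x, w⁆ - c • ⁅x, w⁆) - (⁅x, s w⁆ - c • ⁅x, w⁆) := by
        rw [hS, hX, LinearMap.add_apply, LinearMap.neg_apply, ← sub_eq_add_neg]
        have : (LieModule.toEnd K g V x) ((s : Module.End K V) w - c • w) = ⁅x, s w⁆ - c • ⁅x, w⁆ := by
          show ⁅x, s w - c • w⁆ = _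
          rw [lie_sub, lie_smul]
        show (s ⁅x, w⁆ - c • ⁅x, w⁆) - (LieModule.toEnd K g V x) ((s : Module.End K V) w - c • w) = _
        rw [this]
      rw [h2, h3, h1]; abel
    have e2 : LieModule.toEnd K g V (y - x)
        = (LieModule.toEnd K g V (y - x) * S) * (s.symm : Module.End K V) := by
      ext w
      rw [hS]
      show _ = (LieModule.toEnd K g V (y - x)) (s (s.symm w))
      rw [LinearEquiv.apply_symm_apply]
    have e3 : rk (LieModule.toEnd K g V (y - x)) ≤ rk (LieModule.toEnd K g V (y - x) * S) := by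
      conv_lhs => rw [e2]
      exact rk_mul_le _ _
    refine e3.trans ?_
    rw [e1]
    refine (rk_add_le _ _).trans ?_
    rw [rk_neg']
    have := rk_mul_le (S - c • (1 : Module.End K V)) X
    have := rk_mul_le' X (S - c • (1 : Module.End K V))
    omega
  have hlt : N * rk (LieModule.toEnd K g V (y - x)) < d := by
    have h1 : N * rk (LieModule.toEnd K g V (y - x)) ≤ N * (2 * rk (S - c • (1 : Module.End K V))) :=
      Nat.mul_le_mul_left _ hrk
    have h2 : N * (2 * rk (S - c • (1 : Module.End K V)))
        = 2 * N * rk (S - c • (1 : Module.End K V)) := by ring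
    rw [h2] at h1
    rw [← hS] at hr
    exact h1.trans_lt hr
  refine ⟨y - x, ?_, hlt⟩
  rintro ⟨a, ha⟩
  by_cases ha0 : a = 0
  · apply hxv
    have := ha (s v)
    rw [ha0, zero_smul, sub_lie, ← hy v] at this
    exact sub_eq_zero.mp this
  · have h1 : LieModule.toEnd K g V (y - x) = a • (1 : Module.End K V) := by
      ext w; exact ha w
    have h2 : rk (LieModule.toEnd K g V (y - x)) = finrank K V := by
      have : LinearMap.range (LieModule.toEnd K g V (y - x)) = ⊤ := by
        rw [h1, LinearMap.range_eq_top]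
        intro w
        refine ⟨a⁻¹ • w, ?_⟩
        rw [LinearMap.smul_apply, Module.End.one_apply, smul_smul, mul_inv_cancel₀ ha0, one_smul]
      show finrank K (LinearMap.range (LieModule.toEnd K g V (y - x))) = _
      rw [this, finrank_top]
    rw [h2] at hlt
    omega

/-- The multiplicities of the eigenvalues. -/
theorem sign_eq (h : g) (hh : ∀ v : V, ⁅h, ⁅h, v⁆⁆ = (1/4 : K) • v) :
    finrank K (Module.End.eigenspace (LieModule.toEnd K g V h) (1/2)) +
      finrank K (Module.End.eigenspace (LieModule.toEnd K g V h) (-(1/2))) = finrank K V ∧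
    2 * LinearMap.trace K V (LieModule.toEnd K g V h) =
      (finrank K (Module.End.eigenspace (LieModule.toEnd K g V h) (1/2)) : K) -
      (finrank K (Module.End.eigenspace (LieModule.toEnd K g V h) (-(1/2))) : K) := by
  have key : ∀ (e : K), e * e = 1 →
      (finrank K (Module.End.eigenspace (LieModule.toEnd K g V h) (e * (1/2))) : K)
        = (1/2) * finrank K V + e * LinearMap.trace K V (LieModule.toEnd K g V h) := by
    intro e he
    have hP : LinearMap.IsProj (Module.End.eigenspace (LieModule.toEnd K g V h) (e * (1/2)))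
        ((1/2 : K) • (1 : Module.End K V) + e • LieModule.toEnd K g V h) := by
      refine ⟨fun v => ?_, fun v hv => ?_⟩
      · rw [Module.End.mem_eigenspace_iff, LinearMap.add_apply, LinearMap.smul_apply,
          LinearMap.smul_apply, Module.End.one_apply, map_add, map_smul, map_smul]
        have h2 : (LieModule.toEnd K g V h) ((LieModule.toEnd K g V h) v) = (1/4 : K) • v := hh v
        rw [h2, smul_add, smul_smul, smul_smul, smul_smul]
        have e1 : e * (1/2) * (1/2) = e * (1/4 : K) := by ring
        have e2 : e * (1/2) * e = (1/2 : K) := by linear_combination (1/2 : K) * he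
        rw [e1, e2]; abel
      · rw [Module.End.mem_eigenspace_iff] at hv
        rw [LinearMap.add_apply, LinearMap.smul_apply, LinearMap.smul_apply, Module.End.one_apply, hv,
          smul_smul, ← add_smul]
        have e2 : 1/2 + e * (e * (1/2)) = (1 : K) := by linear_combination (1/2 : K) * he
        rw [e2, one_smul]
    have := hP.trace
    rw [map_add, map_smul, map_smul, LinearMap.trace_one, smul_eq_mul, smul_eq_mul] at this
    exact this.symm
  have h1 := key 1 (by norm_num)
  have h2 := key (-1) (by norm_num)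
  rw [one_mul] at h1
  rw [neg_one_mul] at h2
  constructor
  · have : ((finrank K (Module.End.eigenspace (LieModule.toEnd K g V h) (1/2)) +
      finrank K (Module.End.eigenspace (LieModule.toEnd K g V h) (-(1/2))) : ℕ) : K)
        = ((finrank K V : ℕ) : K) := by
      push_cast
      rw [h1, h2]; ring
    exact_mod_cast this
  · rw [h1, h2]; ring

end Pool.Agent.OU
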