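import Pool.Agent.Lib_helper48.OU.U20

/-! One symplectic module, in the form needed for the family theorem. -/

set_option linter.unusedSectionVars false
set_option linter.unusedSimpArgs false

namespace Pool.Agent.OU

open Module Pool.Agent.OT

attribute [local instance 100] LieRing.ofAssociativeRing

variable {K : Type*} [Field K] [CharZero K]
variable {g : Type*} [LieRing g] [LieAlgebra K g]
variable {V : Type*} [AddCommGroup V] [Module K V] [FiniteDimensional K V]
  [LieRingModule g V] [LieModule K g V]

/-- A scalar in sp is zero. -/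
theorem scalar_zero [Nontrivial V] {ω : LinearMap.BilinForm K V} (hω : ω.Nondegenerate) {c : K}
    (h : ∀ v w, ω (c • v) w = - ω v (c • w)) : c = 0 := by
  obtain ⟨v, hv⟩ := exists_ne (0 : V)
  obtain ⟨w, hw⟩ := exists_pair hω hv
  have := h v w
  rw [map_smul, LinearMap.smul_apply, map_smul, hw, smul_eq_mul, mul_one] at this
  have h2 : (2 : K) * c = 0 := by linear_combination this
  exact (mul_eq_zero.mp h2).resolve_left two_ne_zero

/-- The theorem for one symplectic module. -/
theorem coreS [IsAlgClosed K] [LieModule.IsIrreducible K g V] {ω : LinearMap.BilinForm K V}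
    (hω : ω.Nondegenerate) (halt : ∀ v w, ω v w = - ω w v)
    (hinv : ∀ (x : g) (v w : V), ω ⁅x, v⁆ w = - ω v ⁅x, w⁆)
    (HT : ∀ I : LieIdeal K g, (∀ h : g, (∀ v : V, ⁅h, ⁅h, v⁆⁆ = (1/4 : K) • v) → h ∈ I) → I = ⊤)
    (hN : (∃ N : g, (∀ v : V, ⁅N, ⁅N, v⁆⁆ = 0) ∧
      (Odd (finrank K (LinearMap.range (LieModule.toEnd K g V N))) ∨
        finrank K (LinearMap.range (LieModule.toEnd K g V N)) = 2)) ∨
      (PSimple K g V ∧
        ∃ x : g, (¬ ∃ c : K, ∀ v : V, ⁅x, v⁆ = c • v) ∧
          ((∃ c : K, 4 * finrank K (LinearMap.range
              (LieModule.toEnd K g V x + c • (1 : Module.End K V))) < finrank K V) ∨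
            ((∀ v : V, ⁅x, ⁅x, v⁆⁆ = 0) ∧ ¬ Exc (finrank K V)
              (finrank K (LinearMap.range (LieModule.toEnd K g V x))))))) :
    ∀ x : Module.End K V, Sk ω x → ∃ y : g, LieModule.toEnd K g V y = x := by
  have hnt : Nontrivial V := LieModule.nontrivial_of_isIrreducible K g V
  have hex : ∃ h : g, ∀ v : V, ⁅h, ⁅h, v⁆⁆ = (1/4 : K) • v := by
    by_contra hne
    push Not at hne
    have htop := HT ⊥ (fun h hh => by
      obtain ⟨v, hv⟩ := hne h
      exact absurd (hh v) hv)
    have hz : ∀ z : g, z = 0 := by
      intro z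
      have : z ∈ (⊥ : LieIdeal K g) := by rw [htop]; exact LieSubmodule.mem_top z
      rwa [LieSubmodule.mem_bot] at this
    rcases hN with ⟨N, h1, h2⟩ | ⟨-, x, hx, -⟩
    · rw [hz N, map_zero, LinearMap.range_zero, finrank_bot] at h2
      exact absurd h2 (by decide)
    · exact hx ⟨0, fun v => by rw [hz x, zero_lie, zero_smul]⟩
  obtain ⟨h, hh⟩ := hex
  have sc0 : ∀ (y : g) (c : K), (∀ v : V, ⁅y, v⁆ = c • v) → c = 0 := by
    intro y c hc
    refine scalar_zero hω (c := c) ?_
    intro v w
    rw [← hc, ← hc]
    exact hinv y v w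
  have key : ∀ x : ∀ _ : Unit, Module.End K V, (∀ i v w, ω (x i v) w = - ω v (x i w)) →
      ∃ y : g, ∀ (i : Unit) (v : V), ⁅y, v⁆ = x i v := by
    refine part1c (ι := Unit) (W := fun _ => V) (ω := fun _ => ω) (fun _ => hω) (fun _ => halt)
      (fun _ => hinv) (fun i j hij => absurd (Subsingleton.elim i j) hij) ?_ ?_
    · intro I hI
      exact HT I (fun h hh => hI h (fun _ v => hh v))
    · intro _
      rcases hN with hN | ⟨hs, x, hx, hx2⟩
      · exact Or.inl hN
      right
      refine ⟨?_, ?_⟩
      · intro I
        rcases hs I with hI | hI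
        · left
          intro y hy v
          obtain ⟨c, hc⟩ := hI y hy
          rw [hc, sc0 y c hc, zero_smul]
        · right
          intro z
          obtain ⟨y, hy, c, hc⟩ := hI z
          refine ⟨y, hy, fun v => ?_⟩
          have h1 := sc0 (z - y) c (fun v => by rw [sub_lie, hc]; abel)
          rw [hc, h1, zero_smul, add_zero]
      · rcases hx2 with ⟨c, hc⟩ | ⟨hxx, hxe⟩
        · -- an element of small rank without scalar
          have S := TL_simU (K := K) (g := g) (V := V) hs
          have htl : ∀ y : g, tl K V (LieModule.toEnd K g V y) = LieModule.toEnd K g V y :=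
            fun y => tl_of_tr (tr_skew ω hω (fun v w => hinv y v w))
          obtain ⟨s, hsd⟩ : ∃ s, s = (2 : K) • LieModule.toEnd K g V h := ⟨_, rfl⟩
          have hss : s * s = 1 := by
            ext v
            have : (LieModule.toEnd K g V h) ((LieModule.toEnd K g V h) v) = (1/4 : K) • v := hh v
            rw [hsd, smul_mul_smul_comm, LinearMap.smul_apply, Module.End.mul_apply, this, smul_smul,
              Module.End.one_apply]
            norm_num
          have hI : Inv (TL K V g).toSubmodule s 0 := by
            refine ⟨?_, hss⟩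
            refine mem_TL.mpr ⟨(2 : K) • h, ?_⟩
            rw [htl, map_smul, ← hsd, zero_smul, sub_zero]
          have hsc : ∀ c : K, s ≠ c • 1 := by
            intro a ha
            have h1 : a = 0 := by
              refine sc0 ((2 : K) • h) a (fun v => ?_)
              have h2 := LinearMap.congr_fun ha v
              rw [hsd] at h2
              rw [smul_lie]
              exact h2
            rw [ha, h1, zero_smul, mul_zero] at hss
            exact zero_ne_one hss
          have hxL : LieModule.toEnd K g V x ∈ (TL K V g).toSubmodule :=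
            mem_TL.mpr ⟨x, htl x⟩
          have hx0 : LieModule.toEnd K g V x ≠ 0 := by
            intro h0
            exact hx ⟨0, fun v => by
              rw [zero_smul]
              exact LinearMap.congr_fun h0 v⟩
          obtain ⟨t, κ', -, -, e, he, he0, her⟩ := S.exJc hI hsc hxL hx0 c
          obtain ⟨x', hx'⟩ := mem_TL.mp (show e ∈ TL K V g from he.mem)
          rw [htl] at hx'
          refine ⟨x', ?_, Or.inl ?_⟩
          · by_contra hne
            push Not at hne
            apply he0
            rw [← hx']
            ext v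
            exact hne v
          · rw [hx']
            exact (Nat.mul_le_mul_left 4 her).trans_lt hc
        · refine ⟨x, ?_, Or.inr ⟨hxx, hxe⟩⟩
          by_contra hne
          push Not at hne
          exact hx ⟨0, fun v => by rw [hne, zero_smul]⟩
  intro x hx
  obtain ⟨y, hy⟩ := key (fun _ => x) (fun _ v w => hx v w)
  exact ⟨y, LinearMap.ext (hy ())⟩

end Pool.Agent.OU
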