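import Pool.Agent.Lib_helper48.OU.U22

/-! Modules of dimension two; links with symplectic modules. -/

set_option linter.unusedSectionVars false
set_option linter.unusedSimpArgs false

namespace Pool.Agent.OU

open Module Pool.Agent.OT

attribute [local instance 100] LieRing.ofAssociativeRing

variable {K : Type*} [Field K] [CharZero K]
variable {g : Type*} [LieRing g] [LieAlgebra K g]
variable {V : Type*} [AddCommGroup V] [Module K V] [FiniteDimensional K V]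
  [LieRingModule g V] [LieModule K g V]

theorem eig_vecs (h : g) (hh : ∀ v : V, ⁅h, ⁅h, v⁆⁆ = (1/4 : K) • v)
    (hns : ¬ ∃ c : K, ∀ v : V, ⁅h, v⁆ = c • v) :
    ∃ e f : V, e ≠ 0 ∧ f ≠ 0 ∧ ⁅h, e⁆ = (1/2 : K) • e ∧ ⁅h, f⁆ = (-(1/2) : K) • f := by
  push Not at hns
  obtain ⟨v, hv⟩ := hns (-(1/2))
  obtain ⟨w, hw⟩ := hns (1/2)
  refine ⟨⁅h, v⁆ + (1/2 : K) • v, ⁅h, w⁆ - (1/2 : K) • w, ?_, ?_, ?_, ?_⟩
  · intro h0
    apply hv
    rw [neg_smul]
    exact eq_neg_of_add_eq_zero_left h0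
  · intro h0
    exact hw (sub_eq_zero.mp h0)
  · rw [lie_add, hh, lie_smul, smul_add, smul_smul]
    norm_num
    rw [add_comm]
  · rw [lie_sub, hh, lie_smul, smul_sub, smul_smul]
    norm_num
    abel

theorem dim2 [LieModule.IsIrreducible K g V] (hV : finrank K V = 2) (h : g)
    (hh : ∀ v : V, ⁅h, ⁅h, v⁆⁆ = (1/4 : K) • v) (hns : ¬ ∃ c : K, ∀ v : V, ⁅h, v⁆ = c • v)
    (z : Module.End K V) (hz : LinearMap.trace K V z = 0) : ∃ y : g, ∀ v : V, ⁅y, v⁆ = z v := by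
  obtain ⟨e, f, he, hf, hhe, hhf⟩ := eig_vecs h hh hns
  have hli : LinearIndependent K ![e, f] := by
    rw [LinearIndependent.pair_iff]
    intro s t hst
    have h1 : ⁅h, s • e + t • f⁆ = 0 := by rw [hst, lie_zero]
    rw [lie_add, lie_smul, lie_smul, hhe, hhf] at h1
    have h2 : s • e = 0 := by
      have : s • e = (s • (1/2 : K) • e + t • (-(1/2) : K) • f) + (1/2 : K) • (s • e + t • f) := by
        module
      rw [this, h1, hst, smul_zero, add_zero]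
    have h3 : t • f = 0 := by
      rw [h2, zero_add] at hst; exact hst
    exact ⟨(smul_eq_zero.mp h2).resolve_right he, (smul_eq_zero.mp h3).resolve_right hf⟩
  obtain ⟨b, hb⟩ : ∃ b : Basis (Fin 2) K V, ⇑b = ![e, f] :=
    ⟨basisOfLinearIndependentOfCardEqFinrank hli (by simp [hV]),
      coe_basisOfLinearIndependentOfCardEqFinrank _ _⟩
  have hb0 : b 0 = e := by rw [hb]; rfl
  have hb1 : b 1 = f := by rw [hb]; rfl
  have dec : ∀ v : V, v = b.repr v 0 • e + b.repr v 1 • f := by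
    intro v
    have := b.sum_repr v
    rw [Fin.sum_univ_two, hb0, hb1] at this
    exact this.symm
  have co : ∀ p q : K, b.repr (p • e + q • f) 0 = p ∧ b.repr (p • e + q • f) 1 = q := by
    intro p q
    rw [← hb0, ← hb1]
    simp
  have hne : ∀ u : V, u ≠ 0 → (K ∙ u) ≠ ⊤ := by
    intro u hu htop
    have := finrank_span_singleton (K := K) hu
    rw [htop, finrank_top, hV] at this
    omega
  have hnb : ∀ u : V, u ≠ 0 → (K ∙ u) ≠ ⊥ := by
    intro u hu hbot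
    exact hu (Submodule.span_singleton_eq_bot.mp hbot)
  -- elements moving e and f
  have mv : ∀ u : V, u ≠ 0 → ∃ x : g, ⁅x, u⁆ ∉ (K ∙ u) := by
    intro u hu
    by_contra hcon
    push Not at hcon
    rcases irr_of (g := g) (K ∙ u) (fun x v hv => by
      obtain ⟨c, rfl⟩ := Submodule.mem_span_singleton.mp hv
      rw [lie_smul]
      exact Submodule.smul_mem _ _ (hcon x)) with h1 | h1
    · exact hnb u hu h1
    · exact hne u hu h1
  have parts : ∀ x : g, (∀ v, ⁅(1/2 : K) • (⁅h, ⁅h, x⁆⁆ - ⁅h, x⁆), v⁆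
        = (b.repr v 0 * b.repr ⁅x, e⁆ 1) • f) ∧
      ∀ v, ⁅(1/2 : K) • (⁅h, ⁅h, x⁆⁆ + ⁅h, x⁆), v⁆ = (b.repr v 1 * b.repr ⁅x, f⁆ 0) • e := by
    intro x
    have xe := dec ⁅x, e⁆
    have xf := dec ⁅x, f⁆
    obtain ⟨p, hp⟩ : ∃ p, p = b.repr ⁅x, e⁆ 0 := ⟨_, rfl⟩
    obtain ⟨q, hq⟩ : ∃ q, q = b.repr ⁅x, e⁆ 1 := ⟨_, rfl⟩
    obtain ⟨r, hr⟩ : ∃ r, r = b.repr ⁅x, f⁆ 0 := ⟨_, rfl⟩
    obtain ⟨s, hs⟩ : ∃ s, s = b.repr ⁅x, f⁆ 1 := ⟨_, rfl⟩
    rw [← hp, ← hq] at xe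
    rw [← hr, ← hs] at xf
    rw [← hq, ← hr]
    have h1 : ⁅⁅h, x⁆, e⁆ = (-q) • f := by
      rw [lie_lie, xe, hhe, lie_smul, xe, lie_add, lie_smul, lie_smul, hhe, hhf]; module
    have h2 : ⁅⁅h, x⁆, f⁆ = r • e := by
      rw [lie_lie, xf, hhf, lie_smul, xf, lie_add, lie_smul, lie_smul, hhe, hhf]; module
    have h3 : ⁅⁅h, ⁅h, x⁆⁆, e⁆ = q • f := by
      rw [lie_lie, h1, lie_smul, hhf, hhe, lie_smul, h1]; module
    have h4 : ⁅⁅h, ⁅h, x⁆⁆, f⁆ = r • e := by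
      rw [lie_lie, h2, lie_smul, hhe, hhf, lie_smul, h2]; module
    refine ⟨fun v => ?_, fun v => ?_⟩
    · conv_lhs => rw [dec v]
      rw [smul_lie, sub_lie, lie_add, lie_add, lie_smul, lie_smul, lie_smul, lie_smul, h1, h2, h3, h4]
      module
    · conv_lhs => rw [dec v]
      rw [smul_lie, add_lie, lie_add, lie_add, lie_smul, lie_smul, lie_smul, lie_smul, h1, h2, h3, h4]
      module
  obtain ⟨x, hx⟩ := mv e he
  obtain ⟨x', hx'⟩ := mv f hf
  have hq : b.repr ⁅x, e⁆ 1 ≠ 0 := by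
    intro h0
    apply hx
    rw [dec ⁅x, e⁆, h0, zero_smul, add_zero]
    exact Submodule.mem_span_singleton.mpr ⟨_, rfl⟩
  have hr : b.repr ⁅x', f⁆ 0 ≠ 0 := by
    intro h0
    apply hx'
    rw [dec ⁅x', f⁆, h0, zero_smul, zero_add]
    exact Submodule.mem_span_singleton.mpr ⟨_, rfl⟩
  have htr : b.repr (z e) 0 + b.repr (z f) 1 = 0 := by
    rw [LinearMap.trace_eq_matrix_trace K b, Matrix.trace_fin_two, LinearMap.toMatrix_apply,
      LinearMap.toMatrix_apply, hb0, hb1] at hz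
    exact hz
  refine ⟨(2 * b.repr (z e) 0) • h
    + (b.repr (z e) 1 * (b.repr ⁅x, e⁆ 1)⁻¹) • ((1/2 : K) • (⁅h, ⁅h, x⁆⁆ - ⁅h, x⁆))
    + (b.repr (z f) 0 * (b.repr ⁅x', f⁆ 0)⁻¹) • ((1/2 : K) • (⁅h, ⁅h, x'⁆⁆ + ⁅h, x'⁆)), fun v => ?_⟩
  rw [add_lie, add_lie, smul_lie, smul_lie _ ((1/2 : K) • (⁅h, ⁅h, x⁆⁆ - ⁅h, x⁆)),
    smul_lie _ ((1/2 : K) • (⁅h, ⁅h, x'⁆⁆ + ⁅h, x'⁆)), (parts x).1, (parts x').2]
  have e1 : ⁅h, v⁆ = (1/2 * b.repr v 0 : K) • e + (-(1/2) * b.repr v 1 : K) • f := by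
    conv_lhs => rw [dec v]
    rw [lie_add, lie_smul, lie_smul, hhe, hhf]
    module
  have e2 : z v = b.repr v 0 • z e + b.repr v 1 • z f := by
    conv_lhs => rw [dec v]
    rw [map_add, map_smul, map_smul]
  have e3 : b.repr (z f) 1 = - b.repr (z e) 0 := by linear_combination htr
  rw [e1, e2, dec (z e), dec (z f), e3]
  simp only [(co _ _).1, (co _ _).2]
  have h5 : b.repr (z e) 1 * (b.repr ⁅x, e⁆ 1)⁻¹ * (b.repr v 0 * b.repr ⁅x, e⁆ 1)
      = b.repr (z e) 1 * b.repr v 0 := by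
    field_simp
  have h6 : b.repr (z f) 0 * (b.repr ⁅x', f⁆ 0)⁻¹ * (b.repr v 1 * b.repr ⁅x', f⁆ 0)
      = b.repr (z f) 0 * b.repr v 1 := by
    field_simp
  rw [smul_smul, smul_smul, h5, h6]
  module

theorem tr_zero {W : Type*} [AddCommGroup W] [Module K W] [FiniteDimensional K W] (φ : V ≃ₗ[K] W)
    (S : Module.End K V) (T : Module.End K W) (c : K) (hφ : ∀ v, φ (S v) = T (φ v) + c • φ v)
    (hT : ∀ w, T (T w) = (1/4 : K) • w) {e f : V} (he : e ≠ 0) (hf : f ≠ 0)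
    (hSe : S e = (1/2 : K) • e) (hSf : S f = (-(1/2) : K) • f)
    (ht : LinearMap.trace K W T = 0) : LinearMap.trace K V S = 0 := by
  have key : ∀ (r : K) (u : V), u ≠ 0 → S u = r • u → (r - c) * (r - c) = 1/4 := by
    intro r u hu hS
    have h1 : T (φ u) = (r - c) • φ u := by
      have := hφ u
      rw [hS, map_smul] at this
      rw [sub_smul, this, add_sub_cancel_right]
    have h2 := hT (φ u)
    rw [h1, map_smul, h1, smul_smul] at h2
    have h3 : ((r - c) * (r - c) - 1/4) • φ u = 0 := by rw [sub_smul, h2, sub_self]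
    have h4 : φ u ≠ 0 := by
      intro h0
      exact hu (φ.injective (by rw [h0, map_zero]))
    exact sub_eq_zero.mp ((smul_eq_zero.mp h3).resolve_right h4)
  have h1 := key _ e he hSe
  have h2 := key _ f hf hSf
  have hc : c = 0 := by linear_combination (1/2 : K) * h2 - (1/2 : K) * h1
  have h3 : T = φ.toLinearMap ∘ₗ S ∘ₗ φ.symm.toLinearMap := by
    ext w
    have := hφ (φ.symm w)
    rw [hc, zero_smul, add_zero, LinearEquiv.apply_symm_apply] at this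
    rw [← this]; rfl
  rw [h3] at ht
  rw [← LinearMap.trace_conj' S φ]
  exact ht

/-- An element with different multiplicities excludes a link with a symplectic module. -/
theorem no_link {W : Type*} [AddCommGroup W] [Module K W] [FiniteDimensional K W]
    [LieRingModule g W] [LieModule K g W] {ω : LinearMap.BilinForm K W}
    (hω : ω.Nondegenerate) (halt : ∀ v w, ω v w = - ω w v)
    (hinv : ∀ (x : g) (v w : W), ω ⁅x, v⁆ w = - ω v ⁅x, w⁆) (h : g)
    (hh : ∀ v : V, ⁅h, ⁅h, v⁆⁆ = (1/4 : K) • v) (hhW : ∀ v : W, ⁅h, ⁅h, v⁆⁆ = (1/4 : K) • v)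
    (hns : ¬ ∃ c : K, ∀ v : V, ⁅h, v⁆ = c • v)
    (htr : LinearMap.trace K V (LieModule.toEnd K g V h) ≠ 0) :
    (¬ ∃ (f : V ≃ₗ[K] W) (χ : g → K), ∀ (x : g) (v : V), f ⁅x, v⁆ = ⁅x, f v⁆ + χ x • f v) ∧
    ¬ ∃ (f : V ≃ₗ[K] Module.Dual K W) (χ : g → K), ∀ (x : g) (v : V),
      f ⁅x, v⁆ = ⁅x, f v⁆ + χ x • f v := by
  obtain ⟨e, f, he, hf, hhe, hhf⟩ := eig_vecs h hh hns
  have htW : LinearMap.trace K W (LieModule.toEnd K g W h) = 0 := by
    exact tr_skew ω hω (fun v w => by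
      have := hinv h v w
      exact this)
  refine ⟨?_, ?_⟩
  · rintro ⟨φ, χ, hφ⟩
    exact htr (tr_zero φ (LieModule.toEnd K g V h) (LieModule.toEnd K g W h) (χ h) (hφ h) hhW he hf
      hhe hhf htW)
  · rintro ⟨φ, χ, hφ⟩
    refine htr (tr_zero φ (LieModule.toEnd K g V h) (LieModule.toEnd K g (Module.Dual K W) h) (χ h)
      (hφ h) (fun η => ?_) he hf hhe hhf ?_)
    · ext w
      show - (- η ⁅h, ⁅h, w⁆⁆) = _
      rw [hhW, map_smul, neg_neg]
      rfl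
    · have h5 : LieModule.toEnd K g (Module.Dual K W) h
          + Module.Dual.transpose (R := K) (LieModule.toEnd K g W h) = 0 := by
        ext η w
        show - η ⁅h, w⁆ + η ⁅h, w⁆ = 0
        exact neg_add_cancel _
      have h6 := congrArg (LinearMap.trace K (Module.Dual K W)) h5
      rw [map_add, LinearMap.trace_transpose', htW, add_zero, map_zero] at h6
      exact h6

end Pool.Agent.OU
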