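import Pool.Agent.Lib_helper48.OU.U25
import Pool.Agent.Lib_helper24.K0.S9
import Pool.Agent.Lib_helper9.U4.SD3

/-! The theorem for one module, trace zero. -/

set_option linter.unusedSectionVars false
set_option linter.unusedSimpArgs false

namespace Pool.Agent.OU

open Module Pool.Agent.OT Pool.Agent.U4

attribute [local instance 100] LieRing.ofAssociativeRing

variable {K : Type*} [Field K] [CharZero K]
variable {g : Type*} [LieRing g] [LieAlgebra K g]
variable {U : Type*} [AddCommGroup U] [Module K U] [FiniteDimensional K U]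
  [LieRingModule g U] [LieModule K g U]

/-- The theorem for one module without invariant form, when h has trace zero. -/
theorem coreU0 [IsAlgClosed K] [LieModule.IsIrreducible K g U] (hAS : PSimple K g U) (h : g)
    (hh : ∀ v : U, ⁅h, ⁅h, v⁆⁆ = (1/4 : K) • v)
    (htr : LinearMap.trace K U (LieModule.toEnd K g U h) = 0)
    (htw : ¬ ∃ (f : U ≃ₗ[K] Module.Dual K U) (χ : g → K), ∀ (x : g) (v : U),
      f ⁅x, v⁆ = ⁅x, f v⁆ + χ x • f v)
    (x : g) (hx : ¬ ∃ c : K, ∀ v : U, ⁅x, v⁆ = c • v)
    (hsm : (∃ c : K, 4 * finrank K (LinearMap.range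
        (LieModule.toEnd K g U x + c • (1 : Module.End K U))) < finrank K U) ∨
      ((∀ v : U, ⁅x, ⁅x, v⁆⁆ = 0) ∧
        ¬ ExcT (finrank K U) (finrank K (LinearMap.range (LieModule.toEnd K g U x))))) :
    ∀ z : Module.End K U, LinearMap.trace K U z = 0 →
      ∃ (y : g) (c : K), ∀ v : U, ⁅y, v⁆ = z v + c • v := by
  have hnt : Nontrivial U := LieModule.nontrivial_of_isIrreducible K g U
  have hn0 : (finrank K U : K) ≠ 0 := by
    have := Module.finrank_pos (R := K) (M := U)
    exact_mod_cast this.ne'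
  have S := TL_simU (K := K) (g := g) (V := U) hAS
  obtain ⟨s, hs⟩ : ∃ s, s = (2 : K) • LieModule.toEnd K g U h := ⟨_, rfl⟩
  have hss : s * s = 1 := by
    ext v
    have : (LieModule.toEnd K g U h) ((LieModule.toEnd K g U h) v) = (1/4 : K) • v := hh v
    rw [hs, smul_mul_smul_comm, LinearMap.smul_apply, Module.End.mul_apply, this, smul_smul,
      Module.End.one_apply]
    norm_num
  have hts : LinearMap.trace K U s = 0 := by
    rw [hs, map_smul, htr, smul_zero]
  have hI : Inv (TL K U g).toSubmodule s 0 := by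
    refine ⟨?_, hss⟩
    refine mem_TL.mpr ⟨(2 : K) • h, ?_⟩
    rw [map_smul, ← hs, tl_of_tr hts, zero_smul, sub_zero]
  have hsc : ∀ c : K, s ≠ c • 1 := by
    intro c hc
    have h1 := hts
    rw [hc, map_smul, LinearMap.trace_one, smul_eq_mul] at h1
    rw [hc, (mul_eq_zero.mp h1).resolve_right hn0, zero_smul, zero_mul] at hss
    exact zero_ne_one hss
  obtain ⟨x', hx'⟩ : ∃ x', x' = tl K U (LieModule.toEnd K g U x) := ⟨_, rfl⟩
  have hx'L : x' ∈ (TL K U g).toSubmodule := mem_TL.mpr ⟨x, hx'.symm⟩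
  have hx'e : LieModule.toEnd K g U x = x'
      + (LinearMap.trace K U (LieModule.toEnd K g U x) * (finrank K U : K)⁻¹) •
        (1 : Module.End K U) := by
    rw [hx', tl_apply, sub_add_cancel]
  have hx'0 : x' ≠ 0 := by
    intro h0
    apply hx
    refine ⟨LinearMap.trace K U (LieModule.toEnd K g U x) * (finrank K U : K)⁻¹, fun v => ?_⟩
    have := LinearMap.congr_fun hx'e v
    rw [h0, zero_add] at this
    exact this
  have key : (∀ x : Module.End K U, LinearMap.trace K U x = 0 → x ∈ (TL K U g).toSubmodule) ∨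
      ∃ f : U ≃ₗ[K] Module.Dual K U, ∀ x ∈ (TL K U g).toSubmodule, ∀ v, f (x v) = ctr x (f v) := by
    refine fullOrDual S hI hsc hx'L hx'0 ?_
    rcases hsm with ⟨c, hc⟩ | ⟨hxx, hne⟩
    · left
      refine ⟨LinearMap.trace K U (LieModule.toEnd K g U x) * (finrank K U : K)⁻¹ + c, ?_⟩
      have : x' + (LinearMap.trace K U (LieModule.toEnd K g U x) * (finrank K U : K)⁻¹ + c) •
          (1 : Module.End K U) = LieModule.toEnd K g U x + c • (1 : Module.End K U) := by
        rw [add_smul, ← add_assoc, ← hx'e]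
      rw [this]
      exact hc
    · right
      have hsq : LieModule.toEnd K g U x * LieModule.toEnd K g U x = 0 := by
        ext v
        exact hxx v
      have ht : LinearMap.trace K U (LieModule.toEnd K g U x) = 0 :=
        trace_eq_zero_of_nil ⟨2, by rw [pow_two, hsq]⟩
      have : x' = LieModule.toEnd K g U x := by rw [hx', tl_of_tr ht]
      rw [this]
      exact ⟨hsq, hne⟩
  rcases key with key | ⟨f, hf⟩
  · intro z hz
    obtain ⟨y, hy⟩ := mem_TL.mp (key z hz)
    refine ⟨y, LinearMap.trace K U (LieModule.toEnd K g U y) * (finrank K U : K)⁻¹, fun v => ?_⟩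
    rw [← hy, tl_apply, LinearMap.sub_apply, LinearMap.smul_apply, Module.End.one_apply,
      sub_add_cancel]
    rfl
  · exfalso
    apply htw
    refine ⟨f, fun y => 2 * (LinearMap.trace K U (LieModule.toEnd K g U y) *
      (finrank K U : K)⁻¹), fun y v => ?_⟩
    obtain ⟨τ, hτ⟩ : ∃ τ, τ = LinearMap.trace K U (LieModule.toEnd K g U y) *
      (finrank K U : K)⁻¹ := ⟨_, rfl⟩
    show f ⁅y, v⁆ = ⁅y, f v⁆ + (2 * (LinearMap.trace K U (LieModule.toEnd K g U y) *
      (finrank K U : K)⁻¹)) • f v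
    rw [← hτ]
    have h1 := hf _ (mem_TL.mpr ⟨y, rfl⟩) v
    rw [tl_apply, ← hτ, LinearMap.sub_apply, LinearMap.smul_apply, Module.End.one_apply, map_sub,
      map_smul] at h1
    have h2 : f ⁅y, v⁆ - τ • f v
        = ctr (LieModule.toEnd K g U y - τ • (1 : Module.End K U)) (f v) := h1
    rw [sub_eq_iff_eq_add] at h2
    rw [h2]
    ext w
    show - (f v) ((LieModule.toEnd K g U y - τ • (1 : Module.End K U)) w) + τ * (f v) w
      = - (f v) ⁅y, w⁆ + 2 * τ * (f v) w
    rw [LinearMap.sub_apply, LinearMap.smul_apply, Module.End.one_apply, map_sub, map_smul,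
      smul_eq_mul]
    show - ((f v) ⁅y, w⁆ - τ * (f v) w) + τ * (f v) w = _
    ring

end Pool.Agent.OU
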