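import Pool.Agent.Lib_helper48.OT.G4
import Pool.Agent.Lib_helper48.OU.U2

/-! Extremal pairs adapted to an involution which is in L up to a scalar. -/

set_option linter.unusedSectionVars false
set_option linter.unusedSimpArgs false

namespace Pool.Agent.OU

open Module Pool.Agent.OT

variable {K : Type*} [Field K] [CharZero K] [IsAlgClosed K]
variable {V : Type*} [AddCommGroup V] [Module K V] [FiniteDimensional K V]
variable {L : Submodule K (Module.End K V)}
variable {E F p q s : Module.End K V} {κ : K}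

/-- An involution which is in L up to the scalar κ. -/
structure Inv (L : Submodule K (Module.End K V)) (s : Module.End K V) (κ : K) : Prop where
  sL : s - κ • (1 : Module.End K V) ∈ L
  ss : s * s = 1

theorem Inv.neg (h : Inv L s κ) : Inv L (-s) (-κ) := by
  refine ⟨?_, by rw [neg_mul_neg, h.ss]⟩
  have : -s - (-κ) • (1 : Module.End K V) = -(s - κ • 1) := by rw [neg_smul]; abel
  rw [this]; exact L.neg_mem h.sL

theorem Inv.brk (hb : ∀ x ∈ L, ∀ y ∈ L, x * y - y * x ∈ L) (h : Inv L s κ) {x : Module.End K V}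
    (hx : x ∈ L) : s * x - x * s ∈ L := by
  have e : s * x - x * s = (s - κ • 1) * x - x * (s - κ • 1) := by
    rw [sub_mul, mul_sub, smul_mul_assoc, mul_smul_comm, one_mul, mul_one]; abel
  rw [e]; exact hb _ h.sL x hx

theorem Inv.conj (hb : ∀ x ∈ L, ∀ y ∈ L, x * y - y * x ∈ L) (h : Inv L s κ) {x : Module.End K V}
    (hx : x ∈ L) : s * x * s ∈ L := by
  have h1 := h.brk hb (h.brk hb hx)
  have e : s * x * s = x - (1/2 : K) • (s * (s * x - x * s) - (s * x - x * s) * s) := by
    have : s * (s * x - x * s) - (s * x - x * s) * s = (s * s) * x + x * (s * s) - (s * x * s + s * x * s) := by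
      noncomm_ring
    rw [this, h.ss, one_mul, mul_one, ← two_smul K x, ← two_smul K (s * x * s)]
    module
  rw [e]; exact L.sub_mem hx (L.smul_mem _ h1)

theorem Inv.up (hb : ∀ x ∈ L, ∀ y ∈ L, x * y - y * x ∈ L) (h : Inv L s κ) {x : Module.End K V}
    (hx : x ∈ L) : (1 + s) * x * (1 - s) ∈ L := by
  have e : (1 + s) * x * (1 - s) = x + (s * x - x * s) - s * x * s := by noncomm_ring
  rw [e]; exact L.sub_mem (L.add_mem hx (h.brk hb hx)) (h.conj hb hx)

/-- An extremal pair adapted to an involution. -/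
structure SDU (L : Submodule K (Module.End K V)) (s : Module.End K V) (κ : K)
    (E F p q : Module.End K V) : Prop extends Tri L E F p q where
  hs : s - κ • (1 : Module.End K V) ∈ L
  ss : s * s = 1
  sE : s * E = E
  Es : E * s = -E
  sF : s * F = -F
  Fs : F * s = F

namespace SDU

theorem inv (D : SDU L s κ E F p q) : Inv L s κ := ⟨D.hs, D.ss⟩
theorem sp (D : SDU L s κ E F p q) : s * p = p := by rw [← D.EF, ← mul_assoc, D.sE]
theorem ps (D : SDU L s κ E F p q) : p * s = p := by rw [← D.EF, mul_assoc, D.Fs]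
theorem sq (D : SDU L s κ E F p q) : s * q = -q := by rw [← D.FE, ← mul_assoc, D.sF, neg_mul]
theorem qs (D : SDU L s κ E F p q) : q * s = -q := by rw [← D.FE, mul_assoc, D.Es, mul_neg]
theorem T0s (D : SDU L s κ E F p q) : T0 L p q (s - κ • 1) :=
  ⟨D.hs, by rw [mul_sub, sub_mul, D.sp, D.ps, mul_smul_comm, smul_mul_assoc, mul_one, one_mul],
    by rw [mul_sub, sub_mul, D.sq, D.qs, mul_smul_comm, smul_mul_assoc, mul_one, one_mul]⟩

theorem brks (D : SDU L s κ E F p q) {t : Module.End K V} (ht : T1 L p q t) :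
    T1 L p q (s * t - t * s) := by
  have e : s * t - t * s = (s - κ • 1) * t - t * (s - κ • 1) := by
    rw [sub_mul, mul_sub, smul_mul_assoc, mul_smul_comm, one_mul, mul_one]; abel
  rw [e]; exact D.T0s.brk1 D.brk ht

/-- The component of s-degree one of an element of degree one. -/
theorem spl (D : SDU L s κ E F p q) {t : Module.End K V} (ht : T1 L p q t) :
    ∃ x y, T1 L p q x ∧ s * x = x ∧ x * s = -x ∧ T1 L p q y ∧ s * y = y * s ∧ t = x + y := by
  have h0 : (1 - s) * t * (1 + s) = 0 := by
    have e1 : (1 - s) * t * (1 + s) = (1 - s) * (p * t + t * q) * (1 + s) := by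
      have : p * t + t * q = t := by rw [ht.px]; abel
      rw [this]
    have e2 : (1 - s) * (p * t + t * q) * (1 + s)
        = (p - s * p) * t * (1 + s) + (1 - s) * t * (q + q * s) := by noncomm_ring
    rw [e1, e2, D.sp, D.qs, sub_self, add_neg_cancel, mul_zero, zero_mul, zero_mul, add_zero]
  have h1 : s * t * s = t - s * t + t * s := by
    have : (1 - s) * t * (1 + s) = t - s * t + t * s - s * t * s := by noncomm_ring
    rw [this, sub_eq_zero] at h0
    exact h0.symm
  have hx : T1 L p q ((1/2 : K) • (s * t - t * s)) := (D.brks ht).smul _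
  have sx : s * ((1/2 : K) • (s * t - t * s)) = (1/2 : K) • (s * t - t * s) := by
    rw [mul_smul_comm, mul_sub, ← mul_assoc, D.ss, one_mul, ← mul_assoc, h1]
    congr 1; abel
  have xs : ((1/2 : K) • (s * t - t * s)) * s = -((1/2 : K) • (s * t - t * s)) := by
    rw [smul_mul_assoc, sub_mul, mul_assoc t s s, D.ss, mul_one, h1, ← smul_neg]
    congr 1; abel
  refine ⟨(1/2 : K) • (s * t - t * s), t - (1/2 : K) • (s * t - t * s), hx, sx, xs, ht.sub hx, ?_,
    by abel⟩
  rw [mul_sub, sub_mul, sx, xs]
  module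

end SDU

end Pool.Agent.OU
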